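import Pool.Agent.V7H91.GT.G5

/-!
The Euler product of `y² = x³ - D² x` over `M`: the main theorem.
-/

set_option autoImplicit false
set_option linter.unusedSectionVars false

open NumberField IsDedekindDomain

namespace Pool.Agent.V7H91.GT

open H385 (ZI RQ im1 nrm)
open Pool.Agent.Y699
open Pool.Agent.W164.RC (tc_mul tc_star two2 prim_iff_dvd unit_norm unit_cases Ip Ip_spec Ip_exists dg
  aD_roots)
open Pool.Agent.H921R2.TatePole (below deg nm nm_eq nm_summable two_le_nm)
open Pool.Agent.H304R3.HK (tc tc_star_mul LH)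

variable {K M : Type} [Field K] [NumberField K] [Field M] [NumberField M] [Algebra K M]
  (e : ZI ≃+* 𝓞 K)

/-- the place below -/
noncomputable def bel (K : Type) [Field K] [NumberField K] [Algebra K M]
    (v : HeightOneSpectrum (𝓞 M)) : HeightOneSpectrum (𝓞 K) where
  asIdeal := v.asIdeal.comap (algebraMap (𝓞 K) (𝓞 M))
  isPrime := v.isPrime.comap _
  ne_bot := by
    intro h
    have hN := Ideal.absNorm_mem v.asIdeal
    have hN0 : Ideal.absNorm v.asIdeal ≠ 0 := fun h => v.ne_bot (Ideal.absNorm_eq_zero_iff.1 h)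
    have h1 : ((Ideal.absNorm v.asIdeal : ℕ) : 𝓞 K) ∈
        v.asIdeal.comap (algebraMap (𝓞 K) (𝓞 M)) := by
      rw [Ideal.mem_comap, map_natCast]
      exact hN
    rw [h, Ideal.mem_bot] at h1
    exact hN0 (by exact_mod_cast h1)

lemma bel_iff {v : HeightOneSpectrum (𝓞 M)} {w : HeightOneSpectrum (𝓞 K)} :
    bel K v = w ↔ io M e (pg e w) ∈ v.asIdeal := by
  have h1 := pg_span e w
  constructor
  · rintro rfl
    have h2 : e (pg e (bel K v)) ∈ (bel K v).asIdeal := by
      rw [h1]
      exact Ideal.mem_span_singleton_self _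
    exact h2
  · intro h
    apply HeightOneSpectrum.ext
    have hmax : w.asIdeal.IsMaximal := w.isPrime.isMaximal w.ne_bot
    refine (hmax.eq_of_le (bel K v).isPrime.ne_top ?_).symm
    rw [h1, Ideal.span_singleton_le_iff_mem]
    exact h

lemma qr_zero {z a : ZI} (h : z ∣ a) : qr z a = 0 := by
  unfold qr
  rw [if_pos h]

lemma qr_sd {z : ZI} (hz : PP z) {T T' : Finset ZI} (h : ¬ z ∣ ∏ l ∈ T, l) :
    qr z (∏ l ∈ symmDiff T T', l) = qr z (∏ l ∈ T, l) * qr z (∏ l ∈ T', l) := by
  classical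
  have h1 := prod_sd T T'
  have h2 : ¬ z ∣ ∏ l ∈ T ∩ T', l := by
    intro h2
    apply h
    exact h2.trans (Finset.prod_dvd_prod_of_subset _ _ _ Finset.inter_subset_left)
  have h3 := congrArg (qr z) h1
  rw [qr_mul hz, qr_mul hz, sq, qr_mul hz, qr_sq h2, mul_one] at h3
  exact h3.symm

lemma star_conj (z : ZI) : (starRingEnd ℂ) (tc z) = tc (star z) := (tc_star z).symm

variable {S : Finset ZI} {H : Finset (Finset ZI)} {y : Finset ZI → 𝓞 M}

/-- **The local computation.** -/
theorem loc_data [IsGalois K M] {D : ZI} (hL : Leaf D S) (C : Ctx e S H y) {z : ZI}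
    (hz : PP z) (hzD : ¬ z ∣ D) (s : ℂ) : ∃ f : ℕ, (f = 1 ∨ f = 2) ∧
      (∀ v : HeightOneSpectrum (𝓞 M), io M e z ∈ v.asIdeal → Nat.card (𝓞 M ⧸ v.asIdeal) = nrm z ^ f) ∧
      Nat.card {v : HeightOneSpectrum (𝓞 M) // io M e z ∈ v.asIdeal} ≠ 0 ∧
      ∏ T ∈ H, gz (D * ∏ l ∈ T, l) s z =
        (((1 - ((qr z D : ℂ) * tc z * ((nrm z : ℕ) : ℂ) ^ (-s)) ^ f) *
          (1 - ((qr z D : ℂ) * tc (star z) * ((nrm z : ℕ) : ℂ) ^ (-s)) ^ f))⁻¹) ^
          Nat.card {v : HeightOneSpectrum (𝓞 M) // io M e z ∈ v.asIdeal} := by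
  classical
  set Q : ℂ := ((nrm z : ℕ) : ℂ) ^ (-s) with hQ
  have hgz : ∀ T : Finset ZI, gz (D * ∏ l ∈ T, l) s z =
      ((1 - (qr z (∏ l ∈ T, l) : ℂ) * ((qr z D : ℂ) * tc z * Q)) *
        (1 - (qr z (∏ l ∈ T, l) : ℂ) * ((qr z D : ℂ) * tc (star z) * Q)))⁻¹ := by
    intro T
    unfold gz
    rw [if_pos hz, qr_mul hz, ← hQ]
    push_cast
    congr 2
    · ring
    · ring
  by_cases hram : ∃ T₀ ∈ H, z ∈ T₀
  · obtain ⟨T₀, h0, hz0⟩ := hram
    have hzS : z ∈ S := C.sub T₀ h0 hz0
    have hres : ∀ T ∈ H, z ∉ T → qr z (∏ l ∈ T, l) = 1 := by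
      intro T hT hzT
      rw [qr_fprod hz]
      refine Finset.prod_eq_one fun m hm => ?_
      exact hL.pw z hzS m (C.sub T hT hm) fun h => hzT (h ▸ hm)
    obtain ⟨h1, h2⟩ := C.ram e hL.pp hz h0 hz0 hres
    refine ⟨1, Or.inl rfl, fun v hv => by rw [pow_one]; exact h1 v hv, ?_, ?_⟩
    · rw [h2]
      apply Finset.card_ne_zero_of_mem (a := ∅)
      rw [Finset.mem_filter]
      exact ⟨C.zero, Finset.notMem_empty _⟩
    · rw [h2, ← Finset.prod_filter_mul_prod_filter_not H (fun T => z ∉ T), ← Finset.prod_const,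
        pow_one, pow_one]
      have h3 : ∏ T ∈ H.filter (fun T => ¬ z ∉ T), gz (D * ∏ l ∈ T, l) s z = 1 := by
        refine Finset.prod_eq_one fun T hT => ?_
        obtain ⟨h3, h4⟩ := Finset.mem_filter.1 hT
        have h5 : z ∣ ∏ l ∈ T, l := Finset.dvd_prod_of_mem (fun l => l) (not_not.1 h4)
        rw [hgz, qr_zero h5]
        simp
      rw [h3, mul_one]
      refine Finset.prod_congr rfl fun T hT => ?_
      obtain ⟨h3, h4⟩ := Finset.mem_filter.1 hT
      rw [hgz, hres T h3 h4]
      simp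
  · push Not at hram
    have hzH : ∀ T ∈ H, ¬ z ∣ ∏ l ∈ T, l := fun T hT h =>
      hram T hT ((dvd_prod_iff hL.pp hz (C.sub T hT)).1 h)
    obtain ⟨h1, h2⟩ := C.split e hz hzH
    have hHpos : 0 < H.card := Finset.card_pos.2 ⟨_, C.zero⟩
    refine ⟨fo H z, ?_, h1, ?_, ?_⟩
    · unfold fo
      split_ifs
      · exact Or.inl rfl
      · exact Or.inr rfl
    · intro h0
      rw [h0, zero_mul] at h2
      omega
    · by_cases hall : ∀ T ∈ H, ¬ z ∣ ∏ l ∈ T, l → qr z (∏ l ∈ T, l) = 1
      · have hf : fo H z = 1 := by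
          unfold fo
          rw [if_pos hall]
        rw [hf, mul_one] at h2
        rw [hf, h2, pow_one, pow_one, ← Finset.prod_const]
        refine Finset.prod_congr rfl fun T hT => ?_
        rw [hgz, hall T hT (hzH T hT)]
        simp
      · have hf : fo H z = 2 := by
          unfold fo
          rw [if_neg hall]
        push Not at hall
        obtain ⟨T₀, h0, h3, h4⟩ := hall
        have h5 : qr z (∏ l ∈ T₀, l) = -1 := (qr_cases h3).resolve_left h4
        have key := fun x : ℂ => sign_prod (H := H) (ε := fun T => qr z (∏ l ∈ T, l))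
          (fun T hT => qr_cases (hzH T hT)) C.sd (fun T hT T' _ => qr_sd hz (hzH T hT)) h0 h5 x
        have hN : Nat.card {v : HeightOneSpectrum (𝓞 M) // io M e z ∈ v.asIdeal} =
            (H.filter (fun T => qr z (∏ l ∈ T, l) = 1)).card := by
          have h6 := (key 0).2
          rw [hf] at h2
          omega
        rw [hf, hN, inv_pow, mul_pow, ← (key _).1, ← (key _).1, ← Finset.prod_mul_distrib,
          ← Finset.prod_inv_distrib]
        refine Finset.prod_congr rfl fun T _ => ?_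
        rw [hgz]

/-- **The `L`-function of `y² = x³ - D² x` over `M`** is entire and not zero at `1`. -/
theorem eulM [IsGalois K M] {D : ZI} (hG : Good D) (hL : Leaf D S) (C : Ctx e S H y) :
    ∃ L : ℂ → ℂ, Differentiable ℂ L ∧ L 1 ≠ 0 ∧ ∀ s : ℂ, 3 / 2 < s.re →
      HasProd (fun v : {v : HeightOneSpectrum (𝓞 M) | io M e (2 * D) ∉ v.asIdeal} =>
        ef (io M e D) s v.1) (L s) := by
  classical
  have hgood : ∀ T ∈ H, Good (D * ∏ l ∈ T, l) := fun T hT => leaf_good hG (hL.subset (C.sub T hT))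
  choose! L hL1 hL2 hL3 using fun T (hT : T ∈ H) => good_L (hgood T hT) e
  refine ⟨fun s => ∏ T ∈ H, L T s, ?_, ?_, fun s hs => ?_⟩
  · exact Differentiable.fun_finsetProd fun T hT => hL1 T hT
  · exact Finset.prod_ne_zero_iff.2 fun T hT => hL2 T hT
  · set U : Set (HeightOneSpectrum (𝓞 M)) := {v | io M e (2 * D) ∉ v.asIdeal} with hU
    have hpp : ∀ v : HeightOneSpectrum (𝓞 M), v ∈ U → PP (pg e (bel K v)) ∧
        ¬ pg e (bel K v) ∣ D ∧ io M e (pg e (bel K v)) ∈ v.asIdeal := by
      intro v hv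
      have h1 : io M e (pg e (bel K v)) ∈ v.asIdeal := (bel_iff e).1 rfl
      have h2 : ¬ pg e (bel K v) ∣ 2 * D := fun h => hv (mem_of_dvd e h1 h)
      refine ⟨?_, fun h => h2 (h.mul_left 2), h1⟩
      rcases pp_or e (bel K v) with h3 | h3
      · exact h3
      · exfalso
        rw [h3] at h2
        exact h2 (pi1_two.mul_right _)
    refine eul_abs (B := HeightOneSpectrum (𝓞 K)) (U := U) ?_ hs (fun v => bel K v.1)
      (h := fun w => ∏ T ∈ H, gz (D * ∏ l ∈ T, l) s (pg e w)) ?_ ?_
    · intro v hv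
      obtain ⟨h1, h2, h3⟩ := hpp v hv
      obtain ⟨f, hf, h4, -, -⟩ := loc_data e hL C h1 h2 s
      exact ⟨_, tr_at e h1 h3 h2 hf (h4 v h3)⟩
    · intro w
      set z := pg e w with hz
      by_cases hw : PP z ∧ ¬ z ∣ D
      · obtain ⟨hzP, hzD⟩ := hw
        obtain ⟨f, hf, h1, h2, h3⟩ := loc_data e hL C hzP hzD s
        -- the fibre
        let E : {v : U // bel K v.1 = w} ≃
            {v : HeightOneSpectrum (𝓞 M) // io M e z ∈ v.asIdeal} :=
          { toFun := fun v => ⟨v.1.1, (bel_iff e).1 v.2⟩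
            invFun := fun v => ⟨⟨v.1, by
              show io M e (2 * D) ∉ v.1.asIdeal
              rw [mem_iff_dvd e hzP v.2]
              intro h
              rcases hzP.pr.dvd_or_dvd h with h4 | h4
              · exact not_dvd_two hzP h4
              · exact hzD h4⟩, (bel_iff e).2 v.2⟩
            left_inv := fun v => rfl
            right_inv := fun v => rfl }
        have hfin : Finite {v : HeightOneSpectrum (𝓞 M) // io M e z ∈ v.asIdeal} :=
          Nat.finite_of_card_ne_zero h2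
        have hfin' : Finite {v : U // bel K v.1 = w} := Finite.of_equiv _ E.symm
        let _ : Fintype {v : U // bel K v.1 = w} := Fintype.ofFinite _
        have hN : Fintype.card {v : U // bel K v.1 = w} =
            Nat.card {v : HeightOneSpectrum (𝓞 M) // io M e z ∈ v.asIdeal} := by
          rw [← Nat.card_eq_fintype_card, Nat.card_congr E]
        have hval : ∏ T ∈ H, gz (D * ∏ l ∈ T, l) s z = ∏ _v : {v : U // bel K v.1 = w},
            ((1 - ((qr z D : ℂ) * tc z * ((nrm z : ℕ) : ℂ) ^ (-s)) ^ f) *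
              (1 - ((qr z D : ℂ) * tc (star z) * ((nrm z : ℕ) : ℂ) ^ (-s)) ^ f))⁻¹ := by
          rw [Finset.prod_const, Finset.card_univ, hN, h3]
        rw [hval]
        refine (hasProd_fintype _).congr_fun fun v => ?_
        have hv : io M e z ∈ v.1.1.asIdeal := (bel_iff e).1 v.2
        have h4 := tr_at e hzP hv hzD hf (h1 v.1.1 hv)
        rw [ef_eq h4]
        have hq : (qv v.1.1 : ℂ) ^ (-s) = (((nrm z : ℕ) : ℂ) ^ (-s)) ^ f := by
          rw [card_field v.1.1 (h1 v.1.1 hv), Nat.cast_pow]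
          have hk : ∀ k : ℕ, (((nrm z : ℕ) : ℂ) ^ k) ^ (-s) = (((nrm z : ℕ) : ℂ) ^ (-s)) ^ k := by
            intro k
            induction k with
            | zero => rw [pow_zero, pow_zero, Complex.one_cpow]
            | succ k ih =>
              rw [pow_succ, pow_succ, ← ih]
              have h := Complex.natCast_mul_natCast_cpow (nrm z ^ k) (nrm z) (-s)
              rwa [Nat.cast_pow] at h
          exact hk f
        rw [hq, map_pow, map_mul, star_conj, map_intCast, ← mul_pow, ← mul_pow]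
      · have hemp : IsEmpty {v : U // bel K v.1 = w} := by
          constructor
          rintro ⟨v, hv⟩
          obtain ⟨h1, h2, -⟩ := hpp v.1 v.2
          apply hw
          rw [hz, ← hv]
          exact ⟨h1, h2⟩
        have hval : ∏ T ∈ H, gz (D * ∏ l ∈ T, l) s z = 1 := by
          refine Finset.prod_eq_one fun T _ => ?_
          unfold gz
          split_ifs with h1
          · have h2 : z ∣ D := by
              by_contra h2
              exact hw ⟨h1, h2⟩
            rw [qr_zero (h2.mul_right _)]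
            simp
          · rfl
        rw [hval]
        exact hasProd_empty
    · exact hasProd_prod fun T hT => hL3 T hT s hs

end Pool.Agent.V7H91.GT
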