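import Pool.Agent.Y699.Mn

/-!
The curve `y² = x³ - D² x` over a field in which `1 + i` is a uniformizer.
-/

set_option autoImplicit false
set_option linter.unusedSectionVars false

open NumberField IsDedekindDomain WithZero

namespace Pool.Agent.V7H91.GT

section val

variable {M : Type} [Field M] (w : Valuation M (WithZero (Multiplicative ℤ)))

/-- `x` has order at least `n` -/
def Ov (n : ℤ) (x : M) : Prop := w x ≤ exp (-n)

variable {w} {x y : M} {n m : ℤ}

lemma Ov.add (hx : Ov w n x) (hy : Ov w n y) : Ov w n (x + y) :=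
  (w.map_add x y).trans (max_le hx hy)

lemma Ov.neg (hx : Ov w n x) : Ov w n (-x) := by
  unfold Ov
  rw [w.map_neg]
  exact hx

lemma Ov.sub (hx : Ov w n x) (hy : Ov w n y) : Ov w n (x - y) := by
  rw [sub_eq_add_neg]
  exact hx.add hy.neg

lemma Ov.mul (hx : Ov w n x) (hy : Ov w m y) : Ov w (n + m) (x * y) := by
  unfold Ov
  rw [w.map_mul, neg_add, exp_add]
  exact mul_le_mul' hx hy

lemma Ov.mono (h : m ≤ n) (hx : Ov w n x) : Ov w m x :=
  le_trans hx (exp_le_exp.2 (by omega))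

lemma Ov_zero : Ov w 0 x ↔ w x ≤ 1 := by
  unfold Ov
  rw [neg_zero, exp_zero]

lemma Ov_one : Ov w 0 (1 : M) := by
  rw [Ov_zero, w.map_one]

lemma Ov.pow (hx : Ov w n x) (k : ℕ) : Ov w (k * n) (x ^ k) := by
  induction k with
  | zero =>
    rw [pow_zero]
    simpa using Ov_one
  | succ k ih =>
    rw [pow_succ]
    have := ih.mul hx
    have e : ((k + 1 : ℕ) : ℤ) * n = k * n + n := by push_cast; ring
    rw [e]
    exact this

lemma Ov.pow0 (hx : Ov w 0 x) (k : ℕ) : Ov w 0 (x ^ k) := by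
  have := hx.pow k
  rwa [mul_zero] at this

lemma Ov_one_of_pow {k : ℕ} (hn : 0 < n) (h : Ov w n (x ^ k)) : Ov w 1 x := by
  by_cases h0 : w x = 0
  · unfold Ov
    rw [h0]
    exact zero_le
  · obtain ⟨a, ha⟩ : ∃ a : ℤ, w x = exp a := ⟨log (w x), (exp_log h0).symm⟩
    unfold Ov at h ⊢
    rw [w.map_pow, ha, ← exp_nsmul, exp_le_exp] at h
    rw [ha, exp_le_exp]
    by_contra hcon
    have h1 : 0 ≤ a := by omega
    have h2 : 0 ≤ k • a := by positivity
    omega

lemma Ov_div (hy : w y = 1) (h : Ov w n (x * y)) : Ov w n x := by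
  unfold Ov at h ⊢
  rwa [w.map_mul, hy, mul_one] at h

lemma Ov_nat (k : ℕ) : Ov w 0 (k : M) := by
  induction k with
  | zero =>
    unfold Ov
    rw [Nat.cast_zero, w.map_zero]
    exact zero_le
  | succ k ih =>
    rw [Nat.cast_succ]
    exact ih.add Ov_one

/-- no model of `y² = x³ - D² x` has good reduction at `1 + i`, if `1 + i` is a uniformizer -/
theorem no_goodM {ϖ j a1 a2 a3 a4 D U : M} (hϖ : w ϖ = exp (-1)) (hj : j ^ 2 = -1)
    (hϖj : ϖ ^ 2 = 2 * j) (h1 : w a1 ≤ 1) (h2 : w a2 ≤ 1) (h3 : w a3 ≤ 1) (h4 : w a4 ≤ 1)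
    (hU : w U = 1) (hD : Ov w 3 (D - 1))
    (h : (a1 ^ 2 + 4 * a2) ^ 2 - 24 * (2 * a4 + a1 * a3) = -12 * U ^ 4 * D ^ 2) : False := by
  have hϖ0 : ϖ ≠ 0 := by
    intro h0
    rw [h0, w.map_zero] at hϖ
    exact exp_ne_zero hϖ.symm
  have hU0 : U ≠ 0 := by
    intro h0
    rw [h0, w.map_zero] at hU
    exact zero_ne_one hU
  have hwj : w j = 1 := by
    have h5 : w j ^ 2 = 1 := by rw [← w.map_pow, hj, w.map_neg, w.map_one]
    have h6 : w j ≠ 0 := by
      intro h0
      rw [h0, zero_pow (by norm_num)] at h5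
      exact zero_ne_one h5
    obtain ⟨a, ha⟩ : ∃ a : ℤ, w j = exp a := ⟨log (w j), (exp_log h6).symm⟩
    rw [ha, ← exp_nsmul, exp_eq_one] at h5
    have : a = 0 := by
      simp at h5
      exact h5
    rw [ha, this, exp_zero]
  have hj0 : j ≠ 0 := by
    intro h0
    rw [h0, w.map_zero] at hwj
    exact zero_ne_one hwj
  have hw2 : w 2 = exp (-2) := by
    have h5 : w (2 * j) = exp (-2) := by
      rw [← hϖj, w.map_pow, hϖ, ← exp_nsmul]
      rfl
    rwa [w.map_mul, hwj, mul_one] at h5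
  have o2 : Ov w 2 (2 : M) := hw2.le
  have oj : Ov w 0 j := Ov_zero.2 hwj.le
  have oϖ : Ov w 1 ϖ := hϖ.le
  have o1' := Ov_zero.2 h1
  have o2' := Ov_zero.2 h2
  have o3' := Ov_zero.2 h3
  have o4' := Ov_zero.2 h4
  have oU : Ov w 0 U := Ov_zero.2 hU.le
  have oD : Ov w 0 D := by
    have := (hD.mono (by norm_num : (0 : ℤ) ≤ 3)).add Ov_one
    have e : D - 1 + 1 = D := by ring
    rwa [e] at this
  have onat : ∀ k : ℕ, Ov w 0 (k : M) := Ov_nat
  have o3 : Ov w 0 (3 : M) := by exact_mod_cast onat 3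
  have o6 : Ov w 0 (6 : M) := by exact_mod_cast onat 6
  -- `a1` is not a unit
  have s1 : Ov w 1 a1 := by
    apply Ov_one_of_pow (k := 4) (n := 2) (by norm_num)
    have e : a1 ^ 4 = 2 * (-6 * U ^ 4 * D ^ 2 - (4 * a1 ^ 2 * a2 + 8 * a2 ^ 2 -
        12 * (2 * a4 + a1 * a3))) := by linear_combination h
    rw [e]
    have h5 : Ov w 0 (-6 * U ^ 4 * D ^ 2 - (4 * a1 ^ 2 * a2 + 8 * a2 ^ 2 -
        12 * (2 * a4 + a1 * a3))) := by
      have t1 : Ov w 0 (-6 * U ^ 4 * D ^ 2) := by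
        have := ((o6.neg).mul (oU.pow0 4)).mul (oD.pow0 2)
        simpa using this
      have t2 : Ov w 0 (4 * a1 ^ 2 * a2) := by
        have h4' : Ov w 0 (4 : M) := by exact_mod_cast onat 4
        have := (h4'.mul (o1'.pow0 2)).mul o2'
        simpa using this
      have t3 : Ov w 0 (8 * a2 ^ 2) := by
        have h4' : Ov w 0 (8 : M) := by exact_mod_cast onat 8
        have := h4'.mul (o2'.pow0 2)
        simpa using this
      have t4 : Ov w 0 (12 * (2 * a4 + a1 * a3)) := by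
        have h12 : Ov w 0 (12 : M) := by exact_mod_cast onat 12
        have h2' : Ov w 0 (2 : M) := by exact_mod_cast onat 2
        have t5 : Ov w 0 (2 * a4) := by simpa using h2'.mul o4'
        have t6 : Ov w 0 (a1 * a3) := by simpa using o1'.mul o3'
        simpa using h12.mul (t5.add t6)
      exact t1.sub ((t2.add t3).sub t4)
    have := o2.mul h5
    simpa using this
  obtain ⟨g, hg⟩ : ∃ g : M, a1 = ϖ * g := ⟨a1 / ϖ, by field_simp⟩
  have og : Ov w 0 g := by
    have h5 : w (ϖ * g) ≤ exp (-1) := by rw [← hg]; exact s1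
    rw [w.map_mul, hϖ] at h5
    rw [Ov_zero]
    have h6 : (exp (-1 : ℤ) : WithZero (Multiplicative ℤ)) ≠ 0 := exp_ne_zero
    have h7 : exp (-1 : ℤ) * w g ≤ exp (-1 : ℤ) * 1 := by rw [mul_one]; exact h5
    exact (mul_le_mul_iff_right₀ (zero_lt_iff.2 h6)).1 h7
  -- the identity
  have hT : g ^ 4 - 4 * j * g ^ 2 * a2 - 4 * a2 ^ 2 + 12 * a4 + 6 * ϖ * g * a3 =
      3 * D ^ 2 * U ^ 4 := by
    have h20 : (2 : M) ≠ 0 := by
      intro h0
      rw [h0, w.map_zero] at hw2
      exact exp_ne_zero hw2.symm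
    have h40 : (-4 : M) ≠ 0 := by
      intro h0
      have : (2 : M) * 2 = 0 := by linear_combination -h0
      exact (mul_ne_zero h20 h20) this
    apply mul_left_cancel₀ h40
    rw [hg] at h
    have e1 : (ϖ * g) ^ 2 = 2 * j * g ^ 2 := by rw [mul_pow, hϖj]
    rw [e1] at h
    linear_combination h - 4 * g ^ 4 * hj
  obtain ⟨t, ht⟩ : ∃ t : M, g = t * U := ⟨g / U, by field_simp⟩
  have ot : Ov w 0 t := by
    apply Ov_div hU
    rw [← ht]
    exact og
  have o4 : Ov w 4 (4 : M) := by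
    have := o2.mul o2
    have e : (2 : M) * 2 = 4 := by norm_num
    rw [e] at this
    exact this
  have k1 : Ov w 3 (t ^ 4 - 3 * D ^ 2) := by
    have hU4 : w (U ^ 4) = 1 := by rw [w.map_pow, hU, one_pow]
    apply Ov_div hU4
    have e : (t ^ 4 - 3 * D ^ 2) * U ^ 4 = 4 * (j * g ^ 2 * a2 + a2 ^ 2 - 3 * a4) -
        2 * ϖ * (3 * (g * a3)) := by
      rw [ht] at hT ⊢
      linear_combination hT
    rw [e]
    have t1 : Ov w 0 (j * g ^ 2 * a2 + a2 ^ 2 - 3 * a4) := by
      have r1 : Ov w 0 (j * g ^ 2 * a2) := by simpa using (oj.mul (og.pow0 2)).mul o2'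
      have r2 : Ov w 0 (3 * a4) := by simpa using o3.mul o4'
      exact (r1.add (o2'.pow0 2)).sub r2
    have t2 : Ov w 4 (4 * (j * g ^ 2 * a2 + a2 ^ 2 - 3 * a4)) := by simpa using o4.mul t1
    have t3 : Ov w 0 (3 * (g * a3)) := by simpa using o3.mul (og.mul o3')
    have t4 : Ov w 3 (2 * ϖ * (3 * (g * a3))) := by
      have := (o2.mul oϖ).mul t3
      norm_num at this
      exact this
    exact (t2.mono (by norm_num)).sub t4
  have k2 : Ov w 3 (t ^ 4 + 1) := by
    have e : t ^ 4 + 1 = (t ^ 4 - 3 * D ^ 2) + (3 * ((D - 1) * (D + 1)) + 4) := by ring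
    rw [e]
    have r1 : Ov w 3 (3 * ((D - 1) * (D + 1))) := by
      have := o3.mul (hD.mul (oD.add Ov_one))
      simpa using this
    exact k1.add (r1.add (o4.mono (by norm_num)))
  have k3 : Ov w 1 (t - 1) := by
    apply Ov_one_of_pow (k := 4) (n := 2) (by norm_num)
    have e : (t - 1) ^ 4 = (t ^ 4 + 1) - 2 * (2 * t ^ 3 - 3 * t ^ 2 + 2 * t) := by ring
    rw [e]
    have h2' : Ov w 0 (2 : M) := by exact_mod_cast onat 2
    have r1 : Ov w 0 (2 * t ^ 3 - 3 * t ^ 2 + 2 * t) := by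
      have q1 : Ov w 0 (2 * t ^ 3) := by simpa using h2'.mul (ot.pow0 3)
      have q2 : Ov w 0 (3 * t ^ 2) := by simpa using o3.mul (ot.pow0 2)
      have q3 : Ov w 0 (2 * t) := by simpa using h2'.mul ot
      exact (q1.sub q2).add q3
    have r2 : Ov w 2 (2 * (2 * t ^ 3 - 3 * t ^ 2 + 2 * t)) := by simpa using o2.mul r1
    exact (k2.mono (by norm_num)).sub r2
  have k4 : Ov w 3 (t ^ 4 - 1) := by
    have e : t ^ 4 - 1 = (t - 1) ^ 4 + 4 * ((t - 1) ^ 3 + (t - 1)) +
        2 * (3 * (t - 1) ^ 2) := by ring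
    rw [e]
    have r1 : Ov w 4 ((t - 1) ^ 4) := by
      have := k3.pow 4
      norm_num at this
      exact this
    have k30 : Ov w 0 (t - 1) := k3.mono (by norm_num)
    have r2 : Ov w 4 (4 * ((t - 1) ^ 3 + (t - 1))) := by
      simpa using o4.mul ((k30.pow0 3).add k30)
    have r3 : Ov w 4 (2 * (3 * (t - 1) ^ 2)) := by
      have q1 := k3.pow 2
      have q2 := o2.mul (o3.mul q1)
      norm_num at q2
      exact q2
    exact ((r1.add r2).add r3).mono (by norm_num)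
  have k5 := k2.sub k4
  have e5 : t ^ 4 + 1 - (t ^ 4 - 1) = 2 := by ring
  rw [e5] at k5
  unfold Ov at k5
  rw [hw2, exp_le_exp] at k5
  omega

end val

end Pool.Agent.V7H91.GT
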