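import Pool.Agent.V7H91.GT.G8a
import Pool.Agent.V7H91.GT.G8b
import Pool.Agent.V7H91.GT.G5b

/-!
The equation `y² = x³ - D² x` is minimal over `M`; the Euler factors of minimal models.
-/

set_option autoImplicit false
set_option linter.unusedSectionVars false

open NumberField IsDedekindDomain WithZero

namespace Pool.Agent.V7H91.GT

open H385 (ZI RQ im1 nrm)
open Pool.Agent.Y699
open Pool.Agent.W164.RC (Ip_spec Ip_exists two2 prim_iff_dvd)
open Pool.Agent.H921R2.TatePole (below deg nm nm_eq nm_summable two_le_nm)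
open Pool.Agent.H304R2.EC.A1 (prim)

variable {K M : Type} [Field K] [NumberField K] [Field M] [NumberField M] [Algebra K M]
  (e : ZI ≃+* 𝓞 K)

/-- `v` is unramified over the primes dividing `2 D` -/
def Unr (D : ZI) (v : HeightOneSpectrum (𝓞 M)) : Prop :=
  (∀ z : ZI, PP z → z ∣ D → io M e z ∈ v.asIdeal → io M e z ∉ v.asIdeal ^ 2) ∧
    (io M e pi1 ∈ v.asIdeal → io M e pi1 ∉ v.asIdeal ^ 2)

lemma val_one {x : 𝓞 M} {v : HeightOneSpectrum (𝓞 M)} (h : x ∉ v.asIdeal) :
    v.valuation M (algebraMap (𝓞 M) M x) = 1 := by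
  refine le_antisymm (v.valuation_le_one _) ?_
  by_contra hlt
  push Not at hlt
  exact h ((v.valuation_lt_one_iff_mem (K := M) _).1 hlt)

lemma val_unif {x : 𝓞 M} {v : HeightOneSpectrum (𝓞 M)} (h : x ∈ v.asIdeal)
    (h2 : x ∉ v.asIdeal ^ 2) : v.valuation M (algebraMap (𝓞 M) M x) = exp (-1) := by
  have h1 : v.intValuation x ≤ exp (-((1 : ℕ) : ℤ)) := by
    rw [v.intValuation_le_pow_iff_mem, pow_one]
    exact h
  have h3 : ¬ v.intValuation x ≤ exp (-((2 : ℕ) : ℤ)) := by
    rw [v.intValuation_le_pow_iff_mem]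
    exact h2
  rw [HeightOneSpectrum.valuation_of_algebraMap]
  have h0 : v.intValuation x ≠ 0 := by
    intro h0
    apply h3
    rw [h0]
    exact zero_le
  obtain ⟨a, ha⟩ : ∃ a : ℤ, v.intValuation x = exp a := ⟨log _, (exp_log h0).symm⟩
  rw [ha, exp_le_exp] at h1 h3
  rw [ha]
  congr 1
  push_cast at h1 h3
  omega

lemma pi1_mem {v : HeightOneSpectrum (𝓞 M)} (h : (2 : 𝓞 M) ∈ v.asIdeal) :
    io M e pi1 ∈ v.asIdeal := by
  have h5 : io M e pi1 * io M e pi1 ∈ v.asIdeal := by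
    have e1 : pi1 * pi1 = ⟨0, 1⟩ * (2 : ZI) := by decide
    rw [← map_mul, e1, map_mul, map_ofNat]
    exact v.asIdeal.mul_mem_left _ h
  rcases v.isPrime.mem_or_mem h5 with h | h <;> exact h

lemma two_mem {v : HeightOneSpectrum (𝓞 M)} (h : io M e pi1 ∈ v.asIdeal) :
    (2 : 𝓞 M) ∈ v.asIdeal := by
  obtain ⟨c, hc⟩ := pi1_two
  have : (2 : 𝓞 M) = io M e pi1 * io M e c := by
    rw [← map_mul, ← hc, map_ofNat]
  rw [this]
  exact v.asIdeal.mul_mem_right _ h

/-- the prime below an odd place -/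
lemma below_odd {v : HeightOneSpectrum (𝓞 M)} (h : io M e pi1 ∉ v.asIdeal) :
    ∃ z : ZI, PP z ∧ io M e z ∈ v.asIdeal := by
  have h3 := (nm_eq v).2.2
  have h2 : (below v : ℕ) ≠ 2 := by
    intro h2
    rw [h2] at h3
    exact h (pi1_mem e (by exact_mod_cast h3))
  have := v.isPrime
  obtain ⟨z, hz, hzv⟩ := Ip_exists (below v).2 h2 (io M e) v.asIdeal h3
  have h4 := Ip_spec (below v).2 hz
  exact ⟨z, ⟨h4.2.1, h4.1⟩, hzv⟩

lemma D_notMem {D : ZI} (hD : prim D) {v : HeightOneSpectrum (𝓞 M)} (h : io M e pi1 ∈ v.asIdeal) :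
    io M e D ∉ v.asIdeal := by
  intro h1
  have h2 := sdvd e pi1_prime h h1
  exact pi1_prim hD h2

/-- the valuation of the discriminant -/
lemma val_disc {D : ZI} (hD : PS D) {v : HeightOneSpectrum (𝓞 M)} (hun : Unr e D v)
    (hodd : io M e pi1 ∉ v.asIdeal) :
    exp (-6) ≤ v.valuation M (algebraMap (𝓞 M) M (64 * io M e D ^ 6)) := by
  have h64 : (64 : 𝓞 M) ∉ v.asIdeal := by
    intro h
    have e5 : (64 : 𝓞 M) = 2 ^ 6 := by norm_num
    rw [e5] at h
    exact hodd (pi1_mem e (v.isPrime.mem_of_pow_mem 6 h))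
  rw [map_mul, (v.valuation M).map_mul, val_one h64, one_mul, map_pow, (v.valuation M).map_pow]
  obtain ⟨z, hz, hzv⟩ := below_odd e hodd
  by_cases hzD : z ∣ D
  · obtain ⟨D1, rfl⟩ := hzD
    have h1 : ¬ z ∣ D1 := by
      intro h
      exact hz.pr.not_isUnit (hD.sqf z (mul_dvd_mul_left z h))
    have h2 : io M e D1 ∉ v.asIdeal := fun h => h1 (sdvd e hz.pr hzv h)
    have h3 := val_unif hzv (hun.1 z hz (dvd_mul_right _ _) hzv)
    rw [map_mul, map_mul, (v.valuation M).map_mul, val_one h2, mul_one, h3, ← exp_nsmul]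
    exact le_of_eq rfl
  · have h2 : io M e D ∉ v.asIdeal := fun h => hzD (sdvd e hz.pr hzv h)
    rw [val_one h2, one_pow, ← exp_zero, exp_le_exp]
    norm_num

/-- the scaling factor between a model and `y² = x³ - D² x` is integral -/
theorem val_leM {D : ZI} (hD : PS D) {v : HeightOneSpectrum (𝓞 M)} (hun : Unr e D v)
    {V : WeierstrassCurve (𝓞 M)} {C : WeierstrassCurve.VariableChange M}
    (hC : C • V.map (algebraMap (𝓞 M) M) = crv (algebraMap (𝓞 M) M (io M e D))) :
    v.valuation M (C.u : M) ≤ 1 := by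
  have hinj : Function.Injective (algebraMap (𝓞 M) M) := IsFractionRing.injective (𝓞 M) M
  have hΔ := congrArg WeierstrassCurve.Δ hC
  rw [WeierstrassCurve.variableChange_Δ, WeierstrassCurve.map_Δ, crv_Δ] at hΔ
  have hc4 := congrArg WeierstrassCurve.c₄ hC
  rw [WeierstrassCurve.variableChange_c₄, WeierstrassCurve.map_c₄, crv_c4] at hc4
  have hu0 : (C.u : M) ≠ 0 := C.u.ne_zero
  have hu' : ((C.u⁻¹ : Mˣ) : M) = (C.u : M)⁻¹ := Units.val_inv_eq_inv_val _
  rw [hu'] at hΔ hc4
  set u : M := (C.u : M) with hu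
  have hVΔ : algebraMap (𝓞 M) M V.Δ = u ^ 12 * algebraMap (𝓞 M) M (64 * io M e D ^ 6) := by
    rw [map_mul, map_pow, map_ofNat, ← hΔ, ← mul_assoc, ← mul_pow, mul_inv_cancel₀ hu0,
      one_pow, one_mul]
  have hVc : algebraMap (𝓞 M) M V.c₄ = u ^ 4 * (48 * (algebraMap (𝓞 M) M (io M e D)) ^ 2) := by
    rw [← hc4, ← mul_assoc, ← mul_pow, mul_inv_cancel₀ hu0, one_pow, one_mul]
  have hw : v.valuation M (algebraMap (𝓞 M) M V.Δ) ≤ 1 := v.valuation_le_one _
  rw [hVΔ, (v.valuation M).map_mul, (v.valuation M).map_pow] at hw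
  have hwu : v.valuation M u ≠ 0 := (Valuation.ne_zero_iff _).2 hu0
  obtain ⟨m, hm⟩ : ∃ m : ℤ, v.valuation M u = exp m := ⟨log _, (exp_log hwu).symm⟩
  rw [hm, ← exp_zero, exp_le_exp]
  rw [hm] at hw
  by_contra hlt
  push Not at hlt
  by_cases hodd : io M e pi1 ∈ v.asIdeal
  · have hϖ := val_unif hodd (hun.2 hodd)
    set ϖ : M := algebraMap (𝓞 M) M (io M e pi1) with hϖd
    set j : M := algebraMap (𝓞 M) M (io M e ⟨0, 1⟩) with hjd
    have hj : j ^ 2 = -1 := by
      rw [hjd, ← map_pow, ← map_pow]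
      have : (⟨0, 1⟩ : ZI) ^ 2 = -1 := by decide
      rw [this, map_neg, map_neg, map_one, map_one]
    have hϖj : ϖ ^ 2 = 2 * j := by
      rw [hϖd, hjd, ← map_pow, ← map_pow]
      have : pi1 ^ 2 = 2 * (⟨0, 1⟩ : ZI) := by decide
      rw [this, map_mul, map_mul, map_ofNat, map_ofNat]
    have hϖ4 : ϖ ^ 4 = -4 := by linear_combination (ϖ ^ 2 + 2 * j) * hϖj + 4 * hj
    have hD1 : v.valuation M (algebraMap (𝓞 M) M (io M e D)) = 1 :=
      val_one (D_notMem e hD.prm hodd)
    have h64 : v.valuation M (algebraMap (𝓞 M) M (64 * io M e D ^ 6)) = exp (-12) := by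
      have e1 : algebraMap (𝓞 M) M (64 * io M e D ^ 6) =
          -(ϖ ^ 12) * (algebraMap (𝓞 M) M (io M e D)) ^ 6 := by
        rw [map_mul, map_pow, map_ofNat]
        have e2 : ϖ ^ 12 = -64 := by
          have e3 : ϖ ^ 12 = (ϖ ^ 4) ^ 3 := by ring
          rw [e3, hϖ4]
          norm_num
        rw [e2]
        ring
      rw [e1, (v.valuation M).map_mul, (v.valuation M).map_neg, (v.valuation M).map_pow,
        (v.valuation M).map_pow, hD1, one_pow, mul_one, hϖ, ← exp_nsmul]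
      rfl
    rw [h64, ← exp_nsmul, ← exp_add, ← exp_zero, exp_le_exp] at hw
    have hm1 : m = 1 := by
      have : (12 : ℕ) • m = 12 * m := by simp
      rw [this] at hw
      omega
    -- the reduction at `2` cannot be good
    have hU : v.valuation M (u * ϖ) = 1 := by
      rw [(v.valuation M).map_mul, hm, hm1, hϖ, ← exp_add]
      rfl
    have hle : ∀ x : 𝓞 M, v.valuation M (algebraMap (𝓞 M) M x) ≤ 1 := fun x =>
      v.valuation_le_one _
    have hDO : Ov (v.valuation M) 3 (algebraMap (𝓞 M) M (io M e D) - 1) := by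
      obtain ⟨c, hc⟩ := (prim_iff_dvd D).1 hD.prm
      have e1 : algebraMap (𝓞 M) M (io M e D) - 1 =
          (-(j * ϖ ^ 2)) * ϖ * algebraMap (𝓞 M) M (io M e c) := by
        have e2 : D = 1 + two2 * c := by linear_combination hc
        have e3 : algebraMap (𝓞 M) M (io M e two2) = 2 * ϖ := by
          have : two2 = 2 * pi1 := by decide
          rw [this, map_mul, map_mul, map_ofNat, map_ofNat]
        have e4 : -(j * ϖ ^ 2) = 2 := by
          rw [hϖj]
          linear_combination (-2) * hj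
        rw [e4]
        conv_lhs => rw [e2]
        rw [map_add, map_mul, map_one, map_add, map_mul, map_one, e3]
        ring
      rw [e1]
      have oϖ : Ov (v.valuation M) 1 ϖ := hϖ.le
      have oj : Ov (v.valuation M) 0 j := Ov_zero.2 (hle _)
      have oc : Ov (v.valuation M) 0 (algebraMap (𝓞 M) M (io M e c)) := Ov_zero.2 (hle _)
      have := (((oj.mul (oϖ.pow 2)).neg).mul oϖ).mul oc
      have e5 : (0 + ((2 : ℕ) : ℤ) * 1 + 1 + 0 : ℤ) = 3 := by norm_num
      rw [e5] at this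
      exact this
    refine no_goodM (w := v.valuation M) (ϖ := ϖ) (j := j) (a1 := algebraMap (𝓞 M) M V.a₁)
      (a2 := algebraMap (𝓞 M) M V.a₂) (a3 := algebraMap (𝓞 M) M V.a₃)
      (a4 := algebraMap (𝓞 M) M V.a₄) (D := algebraMap (𝓞 M) M (io M e D)) (U := u * ϖ)
      hϖ hj hϖj (hle _) (hle _) (hle _) (hle _) hU hDO ?_
    have e1 : (algebraMap (𝓞 M) M V.a₁ ^ 2 + 4 * algebraMap (𝓞 M) M V.a₂) ^ 2 -
        24 * (2 * algebraMap (𝓞 M) M V.a₄ + algebraMap (𝓞 M) M V.a₁ * algebraMap (𝓞 M) M V.a₃) =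
        algebraMap (𝓞 M) M V.c₄ := by
      unfold WeierstrassCurve.c₄ WeierstrassCurve.b₂ WeierstrassCurve.b₄
      simp only [map_sub, map_add, map_mul, map_pow, map_ofNat]
    rw [e1, hVc]
    linear_combination (12 * u ^ 4 * algebraMap (𝓞 M) M (io M e D) ^ 2) * hϖ4
  · have h6 := val_disc e hD hun hodd
    have h7 : exp m ^ 12 * exp (-6) ≤ (1 : WithZero (Multiplicative ℤ)) :=
      (mul_le_mul_right h6 _).trans hw
    rw [← exp_nsmul, ← exp_add, ← exp_zero, exp_le_exp] at h7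
    have : (12 : ℕ) • m = 12 * m := by simp
    rw [this] at h7
    omega

/-- the equation `y² = x³ - D² x` is minimal -/
theorem crv_minM {D : ZI} (hD : PS D) {v : HeightOneSpectrum (𝓞 M)} (hun : Unr e D v) :
    MinAt (crv (algebraMap (𝓞 M) M (io M e D))) v (crv (io M e D)) := by
  refine ⟨⟨1, by rw [one_smul, crv_map]⟩, ?_⟩
  rintro W' ⟨C, hC⟩ n hn
  have hu := val_leM e hD hun hC
  have hΔ := congrArg WeierstrassCurve.Δ hC
  rw [WeierstrassCurve.variableChange_Δ, WeierstrassCurve.map_Δ, Units.val_inv_eq_inv_val] at hΔ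
  have hu0 : (C.u : M) ≠ 0 := C.u.ne_zero
  have h1 : algebraMap (𝓞 M) M W'.Δ =
      (C.u : M) ^ 12 * algebraMap (𝓞 M) M ((crv (io M e D)).Δ) := by
    rw [← WeierstrassCurve.map_Δ (crv (io M e D)), crv_map, ← hΔ, ← mul_assoc, ← mul_pow,
      mul_inv_cancel₀ hu0, one_pow, one_mul]
  rw [← v.intValuation_le_pow_iff_mem] at hn ⊢
  refine le_trans ?_ hn
  have h2 : v.valuation M (algebraMap (𝓞 M) M W'.Δ) ≤
      v.valuation M (algebraMap (𝓞 M) M (crv (io M e D)).Δ) := by
    rw [h1, map_mul, map_pow]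
    exact mul_le_of_le_one_left zero_le (pow_le_one₀ zero_le hu)
  rw [v.valuation_of_algebraMap (K := M), v.valuation_of_algebraMap (K := M)] at h2
  exact h2

/-- the scaling factor between a minimal model and `y² = x³ - D² x` is a unit -/
theorem val_uM {D : ZI} (hD : PS D) {v : HeightOneSpectrum (𝓞 M)} (hun : Unr e D v)
    {V : WeierstrassCurve (𝓞 M)} (hmin : MinAt (crv (algebraMap (𝓞 M) M (io M e D))) v V)
    {C : WeierstrassCurve.VariableChange M}
    (hC : C • V.map (algebraMap (𝓞 M) M) = crv (algebraMap (𝓞 M) M (io M e D))) :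
    v.valuation M (C.u : M) = 1 := by
  refine le_antisymm (val_leM e hD hun hC) ?_
  have hD0 : io M e D ≠ 0 := by
    rw [Ne, map_eq_zero_iff _ (io_inj e)]
    exact hD.ne
  have hinj : Function.Injective (algebraMap (𝓞 M) M) := IsFractionRing.injective (𝓞 M) M
  have hWD : IsMd (crv (algebraMap (𝓞 M) M (io M e D))) (crv (io M e D)) :=
    ⟨1, by rw [one_smul, crv_map]⟩
  have hΔ := congrArg WeierstrassCurve.Δ hC
  rw [WeierstrassCurve.variableChange_Δ, WeierstrassCurve.map_Δ, crv_Δ] at hΔ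
  have hu0 : (C.u : M) ≠ 0 := C.u.ne_zero
  have hu' : ((C.u⁻¹ : Mˣ) : M) = (C.u : M)⁻¹ := Units.val_inv_eq_inv_val _
  rw [hu'] at hΔ
  set u : M := (C.u : M) with hu
  have hVΔ : algebraMap (𝓞 M) M V.Δ = u ^ 12 * algebraMap (𝓞 M) M ((crv (io M e D)).Δ) := by
    rw [crv_Δ, map_mul, map_pow, map_ofNat, ← hΔ, ← mul_assoc, ← mul_pow, mul_inv_cancel₀ hu0,
      one_pow, one_mul]
  have hW0 : (crv (io M e D)).Δ ≠ 0 := by
    rw [crv_Δ]
    exact mul_ne_zero (by norm_num) (pow_ne_zero _ hD0)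
  have hV0 : V.Δ ≠ 0 := by
    intro h
    rw [h, map_zero] at hVΔ
    rcases mul_eq_zero.1 hVΔ.symm with h1 | h1
    · exact hu0 (pow_eq_zero_iff (by norm_num) |>.1 h1)
    · exact hW0 (hinj (by rw [h1, map_zero]))
  by_contra hlt
  push Not at hlt
  have h1 : v.intValuation V.Δ < v.intValuation (crv (io M e D)).Δ := by
    have h2 := congrArg (v.valuation M) hVΔ
    rw [map_mul, map_pow, HeightOneSpectrum.valuation_of_algebraMap,
      HeightOneSpectrum.valuation_of_algebraMap] at h2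
    rw [h2]
    have h3 : v.intValuation (crv (io M e D)).Δ ≠ 0 := v.intValuation_ne_zero _ hW0
    have h4 : v.valuation M u ^ 12 < 1 := pow_lt_one₀ zero_le hlt (by norm_num)
    exact mul_lt_of_lt_one_left (zero_lt_iff.2 h3) h4
  have h5 := v.intValuation_eq_exp_neg_multiplicity hV0
  have h6 : V.Δ ∈ v.asIdeal ^ (multiplicity v.asIdeal (Ideal.span {V.Δ})) := by
    rw [← v.intValuation_le_pow_iff_mem, h5]
  have h7 := hmin.2 _ hWD _ h6
  rw [← v.intValuation_le_pow_iff_mem, ← h5] at h7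
  exact absurd h7 (not_le.2 h1)

/-- **The Euler factor of a minimal model.** -/
theorem lf_M {D : ZI} (hD : PS D) {v : HeightOneSpectrum (𝓞 M)} (hun : Unr e D v)
    {V : WeierstrassCurve (𝓞 M)} (hmin : MinAt (crv (algebraMap (𝓞 M) M (io M e D))) v V) (s : ℂ) :
    (io M e (2 * D) ∈ v.asIdeal → lf V v s = 1) ∧
      (io M e (2 * D) ∉ v.asIdeal → lf V v s = ef (io M e D) s v) := by
  obtain ⟨C, hC⟩ := hmin.1
  have hu := val_uM e hD hun hmin hC
  have hC' : C • V.map (algebraMap (𝓞 M) M) = (crv (io M e D)).map (algebraMap (𝓞 M) M) := by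
    rw [crv_map]; exact hC
  have haff := Mdl.aff_model v hu hC'
  rw [aff_crv] at haff
  have hcn : cnt v (Ideal.Quotient.mk v.asIdeal (io M e D)) = cn (io M e D) v := rfl
  have hΔ : V.Δ ∈ v.asIdeal ↔ io M e (2 * D) ∈ v.asIdeal := by
    have h1 := congrArg WeierstrassCurve.Δ hC'
    rw [WeierstrassCurve.variableChange_Δ, WeierstrassCurve.map_Δ, WeierstrassCurve.map_Δ] at h1
    have h2 := congrArg (v.valuation M) h1
    rw [map_mul, map_pow, Units.val_inv_eq_inv_val, map_inv₀, hu, inv_one, one_pow, one_mul] at h2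
    rw [← v.valuation_lt_one_iff_mem (K := M), h2, v.valuation_lt_one_iff_mem (K := M), crv_Δ]
    have e1 : (64 : 𝓞 M) * io M e D ^ 6 = io M e (2 * D) ^ 6 := by
      rw [map_mul, map_ofNat]
      ring
    rw [e1]
    exact ⟨fun h => v.isPrime.mem_of_pow_mem 6 h, fun h => Ideal.pow_mem_of_mem _ h 6 (by norm_num)⟩
  constructor
  · intro hbad
    unfold lf
    rw [haff, if_pos (hΔ.2 hbad)]
    have h1 : ((Ideal.absNorm v.asIdeal : ℕ) : ℤ) -
        cnt v (Ideal.Quotient.mk v.asIdeal (io M e D)) = 0 := by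
      rw [map_mul, map_ofNat] at hbad
      rcases v.isPrime.mem_or_mem hbad with h2 | h2
      · have h3 := pi1_mem e h2
        have hb : (below v : ℕ) = 2 := by
          by_contra hne
          have h4 := (nm_eq v).2.2
          have hcop : Nat.Coprime (below v : ℕ) 2 :=
            (Nat.coprime_primes (below v).2 Nat.prime_two).2 hne
          have h5 : IsCoprime (((below v : ℕ) : 𝓞 M)) ((2 : ℕ) : 𝓞 M) := by
            have := Nat.isCoprime_iff_coprime.2 hcop
            have h6 := this.map (Int.castRingHom (𝓞 M))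
            simpa using h6
          obtain ⟨a, b, hab⟩ := h5
          apply v.isPrime.ne_top
          rw [Ideal.eq_top_iff_one, ← hab]
          refine v.asIdeal.add_mem (v.asIdeal.mul_mem_left _ h4) (v.asIdeal.mul_mem_left _ ?_)
          exact_mod_cast h2
        have h4 := Pool.Agent.H82R3.EK.trace_bad (D := 1) v (by rw [hb])
        have h5 : Ideal.Quotient.mk v.asIdeal (io M e D) = ((1 : ℕ) : 𝓞 M ⧸ v.asIdeal) := by
          rw [Nat.cast_one, ← map_one (Ideal.Quotient.mk v.asIdeal), Ideal.Quotient.eq,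
            ← map_one (io M e), ← map_sub]
          have h6 := (prim_iff_dvd D).1 hD.prm
          obtain ⟨c, hc⟩ := (show pi1 ∣ two2 from ⟨2, by decide⟩).trans h6
          rw [hc, map_mul]
          exact v.asIdeal.mul_mem_right _ h3
        unfold cnt
        rw [h5]
        exact h4
      · have h4 := Pool.Agent.H82R3.EK.trace_bad (D := (below v : ℕ)) v (dvd_mul_left _ _)
        have h5 : Ideal.Quotient.mk v.asIdeal (io M e D) = (((below v : ℕ) : ℕ) : 𝓞 M ⧸ v.asIdeal) := by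
          have h3 : (((below v : ℕ) : ℕ) : 𝓞 M ⧸ v.asIdeal) = 0 := by
            have := Ideal.Quotient.eq_zero_iff_mem.2 (nm_eq v).2.2
            simpa using this
          rw [h3, Ideal.Quotient.eq_zero_iff_mem]
          exact h2
        unfold cnt
        rw [h5]
        exact h4
    have h2 : ((Ideal.absNorm v.asIdeal : ℕ) : ℂ) -
        (cnt v (Ideal.Quotient.mk v.asIdeal (io M e D)) : ℂ) = 0 := by
      exact_mod_cast congrArg (Int.cast : ℤ → ℂ) h1
    rw [h2]
    simp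
  · intro hgood
    unfold lf ef
    rw [haff, if_neg (fun h => hgood (hΔ.1 h)), hcn, ← qv_abs]
    congr 2
    have hq : (qv v : ℂ) ≠ 0 := by
      have h1 := two_le_nm v
      rw [← qv_eq] at h1
      have h2 : qv v ≠ 0 := by omega
      exact_mod_cast h2
    have e2 : (1 - 2 * s : ℂ) = 1 + (-2 * s) := by ring
    rw [e2, Complex.cpow_add _ _ hq, Complex.cpow_one]

variable {S : Finset ZI} {H : Finset (Finset ZI)} {y : Finset ZI → 𝓞 M}

/-- all places are unramified over the primes dividing `2 D` -/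
theorem Ctx.unr [IsGalois K M] (C : Ctx e S H y) {D : ZI} (hL : Leaf D S)
    (v : HeightOneSpectrum (𝓞 M)) : Unr e D v := by
  refine ⟨fun z hz hzD hv => C.unr_odd e hz (fun T hT h => ?_) hv,
    fun hv => C.unr_two e (fun l hl => pq_iff.2 ⟨hL.pp l hl, hL.nm l hl⟩) hv⟩
  have h1 := (dvd_prod_iff hL.pp hz (C.sub T hT)).1 h
  exact hL.ndvd z (C.sub T hT h1) hzD

/-- **The complete `L`-function of `y² = x³ - D² x` over `M`.** -/
theorem fullM [IsGalois K M] {D : ZI} (hG : Good D) (hL : Leaf D S) (C : Ctx e S H y) :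
    ∃ L : ℂ → ℂ, Differentiable ℂ L ∧ L 1 ≠ 0 ∧
      ∀ W : HeightOneSpectrum (𝓞 M) → WeierstrassCurve (𝓞 M),
        (∀ v, MinAt (crv (algebraMap (𝓞 M) M (io M e D))) v (W v)) → ∀ s : ℂ, 3 / 2 < s.re →
          HasProd (fun v => lf (W v) v s) (L s) := by
  obtain ⟨L, hL1, hL2, hL3⟩ := eulM e hG hL C
  refine ⟨L, hL1, hL2, fun W hW s hs => ?_⟩
  have h1 := hL3 s hs
  rw [← hasProd_subtype_iff_of_mulSupport_subset (s := {v : HeightOneSpectrum (𝓞 M) |
    io M e (2 * D) ∉ v.asIdeal})]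
  · refine h1.congr_fun fun v => ?_
    exact ((lf_M e hG.ps (C.unr e hL v.1) (hW v.1) s).2 v.2)
  · intro v hv
    by_contra hcon
    apply hv
    exact (lf_M e hG.ps (C.unr e hL v) (hW v) s).1 (not_not.1 hcon)

end Pool.Agent.V7H91.GT
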