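import Pool.Agent.V7H91.GT.G6
import Pool.Agent.V7H91.GT.G8c

/-!
Infinite extensions.
-/

set_option autoImplicit false
set_option linter.unusedSectionVars false

open NumberField IsDedekindDomain

namespace Pool.Agent.V7H91.GT

open H385 (ZI RQ im1 nrm)
open Pool.Agent.Y699

section transfer

variable {K M M' : Type} [Field K] [NumberField K] [Field M] [NumberField M] [Algebra K M]
  [Field M'] [NumberField M'] [Algebra K M'] {e : ZI ≃+* 𝓞 K}
  {S : Finset ZI} {H : Finset (Finset ZI)} {y : Finset ZI → 𝓞 M'}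

/-- the description by square roots is invariant under isomorphisms -/
theorem Ctx.congr (C : Ctx e S H y) (φ : M' ≃ₐ[K] M) :
    Ctx e S H (fun T => RingOfIntegers.mapRingEquiv (φ : M' ≃+* M) (y T)) := by
  refine ⟨C.sub, C.zero, C.sd, ?_, ?_, ?_⟩
  · intro T hT
    rw [← map_pow, C.sq T hT]
    apply RingOfIntegers.ext
    rw [RingOfIntegers.mapRingEquiv_apply]
    show φ ((io M' e (∏ l ∈ T, l) : 𝓞 M') : M') = ((io M e (∏ l ∈ T, l) : 𝓞 M) : M)
    rw [io_coe, io_coe, AlgEquiv.commutes]
  · intro g hg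
    have h1 : (φ.trans g).trans φ.symm = 1 := by
      apply C.inj
      intro T hT
      apply RingOfIntegers.ext
      show φ.symm (g (φ ((y T : 𝓞 M') : M'))) = ((y T : 𝓞 M') : M')
      have h2 : g (φ ((y T : 𝓞 M') : M')) = φ ((y T : 𝓞 M') : M') :=
        congrArg (fun x : 𝓞 M => (x : M)) (hg T hT)
      rw [h2, AlgEquiv.symm_apply_apply]
    ext x
    have h3 := DFunLike.congr_fun h1 (φ.symm x)
    have h4 : φ.symm (g (φ (φ.symm x))) = φ.symm x := h3
    rw [AlgEquiv.apply_symm_apply] at h4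
    exact φ.symm.injective h4
  · rw [C.card]
    exact LinearEquiv.finrank_eq φ.toLinearEquiv

end transfer

section levels

variable {K F : Type} [Field K] [NumberField K] [Field F] [Algebra K F] {e : ZI ≃+* 𝓞 K}

/-- `F = K(√l : l ∈ S)` -/
structure RtI (F : Type) [Field F] [Algebra K F] (e : ZI ≃+* 𝓞 K) (S : Set ZI) (r : ZI → F) :
    Prop where
  sq : ∀ l ∈ S, r l ^ 2 = algebraMap K F ((e l : 𝓞 K) : K)
  gen : ∀ L : Subfield F, (∀ k : K, algebraMap K F k ∈ L) → (∀ l ∈ S, r l ∈ L) → L = ⊤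

/-- the finite levels -/
def lev (K : Type) [Field K] [Algebra K F] (r : ZI → F) (T : Finset ZI) : IntermediateField K F :=
  IntermediateField.adjoin K (r '' (T : Set ZI))

omit [NumberField K] in
lemma lev_mono (r : ZI → F) {T T' : Finset ZI} (h : T ⊆ T') : lev K r T ≤ lev K r T' :=
  IntermediateField.adjoin.mono _ _ _ (Set.image_mono (Finset.coe_subset.2 h))

omit [NumberField K] in
lemma r_mem (r : ZI → F) {T : Finset ZI} {l : ZI} (h : l ∈ T) : r l ∈ lev K r T :=
  IntermediateField.subset_adjoin K _ ⟨l, h, rfl⟩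

namespace RtI

variable {S : Set ZI} {r : ZI → F} (h : RtI F e S r)

include h

lemma ex_lev (x : F) : ∃ T : Finset ZI, (T : Set ZI) ⊆ S ∧ x ∈ lev K r T := by
  classical
  have h1 := h.gen (IntermediateField.adjoin K (r '' S)).toSubfield
    (fun k => (IntermediateField.adjoin K (r '' S)).algebraMap_mem k)
    (fun l hl => IntermediateField.subset_adjoin K _ ⟨l, hl, rfl⟩)
  have h2 : x ∈ IntermediateField.adjoin K (r '' S) := by
    have h3 : x ∈ (IntermediateField.adjoin K (r '' S)).toSubfield := by rw [h1]; trivial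
    exact h3
  obtain ⟨T', hT', hx⟩ := IntermediateField.exists_finset_of_mem_adjoin h2
  obtain ⟨T, hT, rfl⟩ := Finset.subset_set_image_iff.1 hT'
  refine ⟨T, hT, ?_⟩
  unfold lev
  rwa [Finset.coe_image] at hx

lemma gen_lev (T : Finset ZI) (L : Subfield (lev K r T)) (hK : ∀ k : K, algebraMap K (lev K r T) k ∈ L)
    (hr : ∀ l (hl : l ∈ T), (⟨r l, r_mem r hl⟩ : lev K r T) ∈ L) : L = ⊤ := by
  rw [eq_top_iff]
  intro y _
  let L' : IntermediateField K F :=
    { (L.map (algebraMap (lev K r T) F)) with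
      algebraMap_mem' := fun k => ⟨algebraMap K (lev K r T) k, hK k, rfl⟩ }
  have h1 : lev K r T ≤ L' := by
    apply IntermediateField.adjoin_le_iff.2
    rintro _ ⟨l, hl, rfl⟩
    exact ⟨_, hr l hl, rfl⟩
  obtain ⟨y', hy', h2⟩ := h1 y.2
  have h3 : y' = y := Subtype.ext h2
  rw [← h3]
  exact hy'

lemma fin_lev {T : Finset ZI} (hT : (T : Set ZI) ⊆ S) : FiniteDimensional K (lev K r T) := by
  refine (gal2 (I := {l // l ∈ T}) (fun l => ((e l.1 : 𝓞 K) : K))
    (fun l => (⟨r l.1, r_mem r l.2⟩ : lev K r T)) (fun l => ?_)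
    (fun L h1 h2 => h.gen_lev T L h1 fun l hl => h2 ⟨l, hl⟩)).1
  apply Subtype.ext
  exact h.sq l.1 (hT l.2)

lemma nf_lev {T : Finset ZI} (hT : (T : Set ZI) ⊆ S) : NumberField (lev K r T) := by
  haveI := h.fin_lev hT
  exact NumberField.of_module_finite K (lev K r T)

open Classical in
/-- the square roots in the finite levels -/
noncomputable def rl (K : Type) [Field K] [Algebra K F] (r : ZI → F) (T : Finset ZI) (l : ZI) :
    lev K r T := if hl : l ∈ T then ⟨r l, r_mem r hl⟩ else 0

lemma rt_lev {T : Finset ZI} (hT : (T : Set ZI) ⊆ S) (hS : ∀ l ∈ T, PP l) :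
    Rt (lev K r T) e T (rl K r T) := by
  refine ⟨hS, ?_, ?_⟩
  · intro l hl
    unfold rl
    rw [dif_pos hl]
    apply Subtype.ext
    exact h.sq l (hT hl)
  · intro L h1 h2
    refine h.gen_lev T L h1 fun l hl => ?_
    have h3 := h2 l hl
    unfold rl at h3
    rwa [dif_pos hl] at h3

/-- **The points over `F`.** -/
theorem pts {D : ZI} (hD : Good D) (hL : ∀ T : Finset ZI, (T : Set ZI) ⊆ S → Leaf D T) {x y : F}
    (hxy : y ^ 2 = x ^ 3 - (algebraMap K F ((e D : 𝓞 K) : K)) ^ 2 * x) : y = 0 := by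
  classical
  obtain ⟨T1, hT1, hx⟩ := h.ex_lev x
  obtain ⟨T2, hT2, hy⟩ := h.ex_lev y
  have hT : ((T1 ∪ T2 : Finset ZI) : Set ZI) ⊆ S := by
    rw [Finset.coe_union]
    exact Set.union_subset hT1 hT2
  haveI := h.nf_lev hT
  have hLT := hL _ hT
  have hrt := h.rt_lev hT hLT.pp
  have hx' : x ∈ lev K r (T1 ∪ T2) := lev_mono r Finset.subset_union_left hx
  have hy' : y ∈ lev K r (T1 ∪ T2) := lev_mono r Finset.subset_union_right hy
  have h1 := hrt.ptsF hD hLT (x := ⟨x, hx'⟩) (y := ⟨y, hy'⟩) (by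
    apply Subtype.ext
    exact hxy)
  exact congrArg (fun z : lev K r (T1 ∪ T2) => (z : F)) h1

/-- the number of points over the subfields -/
theorem cardS {D : ZI} (hD : Good D) (hL : ∀ T : Finset ZI, (T : Set ZI) ⊆ S → Leaf D T)
    {M : Type} [Field M] [CharZero M] [Algebra K M] (φ : M →ₐ[K] F) :
    Nat.card (crv (algebraMap K M ((e D : 𝓞 K) : K))).toAffine.Point = 4 := by
  have hD0 : algebraMap K M ((e D : 𝓞 K) : K) ≠ 0 := by
    rw [Ne, map_eq_zero_iff _ (algebraMap K M).injective]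
    intro h1
    have h2 : e D = 0 := RingOfIntegers.ext h1
    exact hD.ps.ne ((map_eq_zero_iff e e.injective).1 h2)
  refine card_pts hD0 two_ne_zero fun x y hxy => ?_
  have h1 : φ y = 0 := by
    apply h.pts hD hL (x := φ x)
    rw [← AlgHom.commutes φ, ← map_pow, hxy, map_sub, map_pow, map_mul, map_pow]
  exact (map_eq_zero_iff φ φ.injective).1 h1

/-- the finite subextensions are contained in the finite levels -/
lemma sub_lev (M : IntermediateField K F) [FiniteDimensional K M] :
    ∃ T : Finset ZI, (T : Set ZI) ⊆ S ∧ M ≤ lev K r T := by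
  classical
  obtain ⟨t, ht⟩ : ∃ t : Finset M, Submodule.span K (t : Set M) = ⊤ := Module.Finite.fg_top
  choose T hT1 hT2 using fun x : F => h.ex_lev x
  refine ⟨t.biUnion fun b => T (b : F), ?_, ?_⟩
  · intro l hl
    obtain ⟨b, -, hb⟩ := Finset.mem_biUnion.1 (Finset.mem_coe.1 hl)
    exact hT1 _ hb
  · intro x hx
    have h1 : (⟨x, hx⟩ : M) ∈ Submodule.span K (t : Set M) := by rw [ht]; trivial
    have h2 : ∀ z : M, z ∈ Submodule.span K (t : Set M) →
        (z : F) ∈ lev K r (t.biUnion fun b => T (b : F)) := by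
      intro z hz
      induction hz using Submodule.span_induction with
      | mem z hz =>
        exact lev_mono r (Finset.subset_biUnion_of_mem (fun b : M => T (b : F)) hz) (hT2 (z : F))
      | zero => exact (lev K r _).zero_mem
      | add a b _ _ ha hb => exact (lev K r _).add_mem ha hb
      | smul c a _ ha =>
        have h3 : ((c • a : M) : F) = algebraMap K F c * (a : F) := by
          rw [← Algebra.smul_def]
          rfl
        rw [h3]
        exact (lev K r _).mul_mem ((lev K r _).algebraMap_mem c) ha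
    exact h2 _ h1

/-- **The number fields contained in `F`.** -/
theorem ctxI (hL : ∀ T : Finset ZI, (T : Set ZI) ⊆ S → ∀ l ∈ T, PP l) (M : IntermediateField K F)
    [NumberField M] : ∃ (T : Finset ZI) (H : Finset (Finset ZI)) (y : Finset ZI → 𝓞 M),
      (T : Set ZI) ⊆ S ∧ Ctx e T H y ∧ IsGalois K M := by
  haveI := fin_dim (K := K) (M := M)
  obtain ⟨T, hT, hM⟩ := h.sub_lev M
  haveI := h.nf_lev hT
  have hrt := h.rt_lev hT (hL T hT)
  haveI : IsGalois K (IntermediateField.restrict hM) := (hrt.galM (IntermediateField.restrict hM)).2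
  let φ := (IntermediateField.restrictAlgEquiv hM).symm
  exact ⟨T, _, _, hT, (hrt.ctx (IntermediateField.restrict hM)).congr φ, IsGalois.of_algEquiv φ⟩

end RtI

end levels

end Pool.Agent.V7H91.GT
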