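import Pool.Agent.Y699.Crit

/-!
Leaves of the graph of a good Gaussian integer.
-/

set_option autoImplicit false
set_option linter.unusedSectionVars false

namespace Pool.Agent.V7H91.GT

open H385 (ZI RQ im1 nrm)
open Pool.Agent.Y699
open Pool.Agent.H304R2.EC.A1 (prim prim_mul prim_cancel prim_one prim_norm_odd prim_star eq_one_of_prim
  norm_def' re_mul' im_mul' eq_of_dvd prim_ne_zero exists_prim)

/-- `S` is a set of leaves which can be attached to `D` -/
structure Leaf (D : ZI) (S : Finset ZI) : Prop where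
  pp : ∀ l ∈ S, PP l
  nm : ∀ l ∈ S, l.norm % 8 = 1
  ndvd : ∀ l ∈ S, ¬ l ∣ D
  at0 : ∀ l ∈ S, ∃ π ∈ PD D, qr l π = -1 ∧ ∀ ρ ∈ PD D, ρ ≠ π → qr l ρ = 1
  pw : ∀ l ∈ S, ∀ m ∈ S, m ≠ l → qr l m = 1

lemma Leaf.subset {D : ZI} {S T : Finset ZI} (h : Leaf D S) (hT : T ⊆ S) : Leaf D T where
  pp := fun l hl => h.pp l (hT hl)
  nm := fun l hl => h.nm l (hT hl)
  ndvd := fun l hl => h.ndvd l (hT hl)
  at0 := fun l hl => h.at0 l (hT hl)
  pw := fun l hl m hm => h.pw l (hT hl) m (hT hm)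

lemma qr_fprod {l : ZI} (h : PP l) (T : Finset ZI) : qr l (∏ π ∈ T, π) = ∏ π ∈ T, qr l π := by
  classical
  induction T using Finset.induction_on with
  | empty => rw [Finset.prod_empty, Finset.prod_empty, qr_one h]
  | insert a s ha ih => rw [Finset.prod_insert ha, Finset.prod_insert ha, qr_mul h, ih]

lemma Leaf.notMem {D : ZI} {S : Finset ZI} (h : Leaf D S) (hD : D ≠ 0) {l : ZI} (hl : l ∈ S) :
    l ∉ PD D := fun h' => h.ndvd l hl ((mem_PD hD).1 h').2

lemma Leaf.disj {D : ZI} {S : Finset ZI} (h : Leaf D S) (hD : D ≠ 0) : Disjoint (PD D) S := by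
  rw [Finset.disjoint_left]
  intro π h1 h2
  exact h.notMem hD h2 h1

/-- the product over the primes of `D` on the side of `l` -/
lemma Leaf.prod_at {D : ZI} {S : Finset ZI} (h : Leaf D S) {l : ZI} (hl : l ∈ S)
    {π : ZI} (hneg : qr l π = -1) (hoth : ∀ ρ ∈ PD D, ρ ≠ π → qr l ρ = 1)
    {A : Finset ZI} (hA : A ⊆ PD D ∪ S) (hlA : l ∉ A) (hπ : π ∈ A) : ∏ ρ ∈ A, qr l ρ = -1 := by
  classical
  rw [← Finset.mul_prod_erase A _ hπ, hneg]
  have : ∏ ρ ∈ A.erase π, qr l ρ = 1 := by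
    refine Finset.prod_eq_one fun ρ hρ => ?_
    obtain ⟨h1, h2⟩ := Finset.mem_erase.1 hρ
    rcases Finset.mem_union.1 (hA h2) with h3 | h3
    · exact hoth ρ h3 h1
    · exact h.pw l hl ρ h3 fun h4 => hlA (h4 ▸ h2)
  rw [this, mul_one]

theorem leaf_PS {D : ZI} {S : Finset ZI} (hD : PS D) (h : Leaf D S) :
    PS (D * ∏ l ∈ S, l) ∧ PD (D * ∏ l ∈ S, l) = PD D ∪ S := by
  classical
  have h1 : D * ∏ l ∈ S, l = ∏ π ∈ PD D ∪ S, π := by
    rw [Finset.prod_union (h.disj hD.ne), hD.prod]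
  rw [h1]
  refine PS_prod fun π hπ => ?_
  rcases Finset.mem_union.1 hπ with h2 | h2
  · exact ((mem_PD hD.ne).1 h2).1
  · exact h.pp π h2

lemma leaf_norm {D : ZI} {S : Finset ZI} (h5 : D.norm % 8 = 5) (h : ∀ l ∈ S, l.norm % 8 = 1) :
    (D * ∏ l ∈ S, l).norm % 8 = 5 := by
  classical
  induction S using Finset.induction_on with
  | empty => rw [Finset.prod_empty, mul_one]; exact h5
  | insert a s ha ih =>
    rw [Finset.prod_insert ha]
    have e : D * (a * ∏ l ∈ s, l) = a * (D * ∏ l ∈ s, l) := by ring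
    rw [e, Zsqrtd.norm_mul, Int.mul_emod, h a (Finset.mem_insert_self _ _),
      ih fun l hl => h l (Finset.mem_insert_of_mem hl)]
    rfl

/-- **Leaves keep the criterion.** -/
theorem leaf_good {D : ZI} {S : Finset ZI} (hD : Good D) (h : Leaf D S) :
    Good (D * ∏ l ∈ S, l) := by
  classical
  obtain ⟨hps, hPD⟩ := leaf_PS hD.ps h
  refine ⟨hps, leaf_norm hD.five h.nm, ?_⟩
  -- one half of the argument
  have half : ∀ d d' : ZI, prim d → prim d' → D * ∏ l ∈ S, l = d * d' →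
      (∀ π ∈ PD d, qr π d' = 1) → (∀ π ∈ PD d', qr π d = 1) →
      ∀ π ∈ PD d ∩ PD D, qr π (∏ ρ ∈ PD d' ∩ PD D, ρ) = 1 := by
    intro d d' hd hd' hdd h1 h2 π hπ
    obtain ⟨hπd, hπD⟩ := Finset.mem_inter.1 hπ
    have hPd : PS d := hps.of_dvd hd ⟨d', hdd⟩
    have hPd' : PS d' := hps.of_dvd hd' ⟨d, by rw [hdd, mul_comm]⟩
    have hsub : PD d ⊆ PD D ∪ S := by rw [← hPD]; exact PD_subset hps.ne ⟨d', hdd⟩
    have hsub' : PD d' ⊆ PD D ∪ S := by
      rw [← hPD]; exact PD_subset hps.ne ⟨d, by rw [hdd, mul_comm]⟩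
    have hdis : Disjoint (PD d) (PD d') := by
      rw [Finset.disjoint_left]
      intro ρ h3 h4
      have h5 := ((mem_PD hPd.ne).1 h3)
      have h6 := ((mem_PD hPd'.ne).1 h4)
      apply h5.1.pr.not_isUnit
      apply hps.sqf
      rw [hdd]
      exact mul_dvd_mul h5.2 h6.2
    have hπP : PP π := ((mem_PD hPd.ne).1 hπd).1
    have h3 := h1 π hπd
    rw [← hPd'.prod, qr_fprod hπP] at h3
    have h4 : ∏ ρ ∈ PD d', qr π ρ = ∏ ρ ∈ PD d' ∩ PD D, qr π ρ := by
      symm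
      refine Finset.prod_subset Finset.inter_subset_left fun l hl hl' => ?_
      have hlS : l ∈ S := by
        rcases Finset.mem_union.1 (hsub' hl) with h5 | h5
        · exact absurd (Finset.mem_inter.2 ⟨hl, h5⟩) hl'
        · exact h5
      have hlP := h.pp l hlS
      have hnd : ¬ l ∣ π := fun h5 => by
        have := hlP.eq_of_dvd hπP h5
        rw [this] at hlS
        exact h.notMem hD.ps.ne hlS hπD
      rw [qr_rec hπP hlP]
      rcases qr_cases hnd with h5 | h5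
      · exact h5
      · exfalso
        obtain ⟨π₀, hπ₀, h6, h7⟩ := h.at0 l hlS
        have h8 : π = π₀ := by
          by_contra hne
          rw [h7 π hπD hne] at h5
          norm_num at h5
        have h9 := h2 l hl
        rw [← hPd.prod, qr_fprod hlP] at h9
        have hlA : l ∉ PD d := fun h10 => (Finset.disjoint_left.1 hdis) h10 hl
        rw [h.prod_at hlS h6 h7 hsub hlA (h8 ▸ hπd)] at h9
        norm_num at h9
    rw [qr_fprod hπP, ← h4, h3]
  have fin : ∀ d d' : ZI, prim d → prim d' → D * ∏ l ∈ S, l = d * d' →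
      (∀ π ∈ PD d, qr π d' = 1) → ∏ ρ ∈ PD d ∩ PD D, ρ = 1 → d = 1 := by
    intro d d' hd hd' hdd h1 h2
    have hPd : PS d := hps.of_dvd hd ⟨d', hdd⟩
    have hPd' : PS d' := hps.of_dvd hd' ⟨d, by rw [hdd, mul_comm]⟩
    have hsub : PD d ⊆ PD D ∪ S := by rw [← hPD]; exact PD_subset hps.ne ⟨d', hdd⟩
    have hsub' : PD d' ⊆ PD D ∪ S := by
      rw [← hPD]; exact PD_subset hps.ne ⟨d, by rw [hdd, mul_comm]⟩
    have hemp : PD d ∩ PD D = ∅ := by
      have h3 := (PS_prod (S := PD d ∩ PD D) fun π hπ =>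
        ((mem_PD hPd.ne).1 (Finset.mem_inter.1 hπ).1).1).2
      rw [h2, PD_one] at h3
      exact h3.symm
    have hun : PD d ∪ PD d' = PD D ∪ S := by
      rw [← PD_mul hPd.ne hPd'.ne, ← hdd, hPD]
    have hall : PD D ⊆ PD d' := by
      intro ρ hρ
      have h3 : ρ ∈ PD d ∪ PD d' := by rw [hun]; exact Finset.mem_union_left _ hρ
      rcases Finset.mem_union.1 h3 with h4 | h4
      · exfalso
        have : ρ ∈ PD d ∩ PD D := Finset.mem_inter.2 ⟨h4, hρ⟩
        rw [hemp] at this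
        exact Finset.notMem_empty _ this
      · exact h4
    have hdis : Disjoint (PD d) (PD d') := by
      rw [Finset.disjoint_left]
      intro ρ h3 h4
      have h5 := ((mem_PD hPd.ne).1 h3)
      have h6 := ((mem_PD hPd'.ne).1 h4)
      apply h5.1.pr.not_isUnit
      apply hps.sqf
      rw [hdd]
      exact mul_dvd_mul h5.2 h6.2
    have hemp2 : PD d = ∅ := by
      rw [Finset.eq_empty_iff_forall_notMem]
      intro l hl
      have hlS : l ∈ S := by
        rcases Finset.mem_union.1 (hsub hl) with h5 | h5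
        · exfalso
          have : l ∈ PD d ∩ PD D := Finset.mem_inter.2 ⟨hl, h5⟩
          rw [hemp] at this
          exact Finset.notMem_empty _ this
        · exact h5
      obtain ⟨π₀, hπ₀, h6, h7⟩ := h.at0 l hlS
      have h9 := h1 l hl
      rw [← hPd'.prod, qr_fprod (h.pp l hlS)] at h9
      have hlA : l ∉ PD d' := (Finset.disjoint_left.1 hdis) hl
      rw [h.prod_at hlS h6 h7 hsub' hlA (hall hπ₀)] at h9
      norm_num at h9
    have h3 := hPd.prod
    rw [hemp2, Finset.prod_empty] at h3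
    exact h3.symm
  intro d d' hd hd' hdd h1 h2
  have hPd : PS d := hps.of_dvd hd ⟨d', hdd⟩
  have hPd' : PS d' := hps.of_dvd hd' ⟨d, by rw [hdd, mul_comm]⟩
  have hdd' : D * ∏ l ∈ S, l = d' * d := by rw [hdd, mul_comm]
  have a1 := half d d' hd hd' hdd h1 h2
  have a2 := half d' d hd' hd hdd' h2 h1
  obtain ⟨b1, b2⟩ := PS_prod (S := PD d ∩ PD D) fun π hπ =>
    ((mem_PD hPd.ne).1 (Finset.mem_inter.1 hπ).1).1
  obtain ⟨c1, c2⟩ := PS_prod (S := PD d' ∩ PD D) fun π hπ =>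
    ((mem_PD hPd'.ne).1 (Finset.mem_inter.1 hπ).1).1
  have hun : PD d ∪ PD d' = PD D ∪ S := by
    rw [← PD_mul hPd.ne hPd'.ne, ← hdd, hPD]
  have hDeq : D = (∏ ρ ∈ PD d ∩ PD D, ρ) * ∏ ρ ∈ PD d' ∩ PD D, ρ := by
    rw [← Finset.prod_union]
    · have : (PD d ∩ PD D) ∪ (PD d' ∩ PD D) = PD D := by
        rw [← Finset.union_inter_distrib_right, hun]
        exact Finset.union_inter_cancel_left
      rw [this, hD.ps.prod]
    · rw [Finset.disjoint_left]
      intro ρ h3 h4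
      have h5 := ((mem_PD hPd.ne).1 (Finset.mem_inter.1 h3).1)
      have h6 := ((mem_PD hPd'.ne).1 (Finset.mem_inter.1 h4).1)
      apply h5.1.pr.not_isUnit
      apply hps.sqf
      rw [hdd]
      exact mul_dvd_mul h5.2 h6.2
  rcases hD.ker _ _ b1.prm c1.prm hDeq (by rw [b2]; exact a1) (by rw [c2]; exact a2) with h3 | h3
  · exact Or.inl (fin d d' hd hd' hdd h1 h3)
  · exact Or.inr (fin d' d hd' hd hdd' h2 h3)

end Pool.Agent.V7H91.GT
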