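import Pool.Agent.V7H91.GT.G1
import Pool.Agent.Q283.GA.Dens

/-!
The density of the leaves.
-/

set_option autoImplicit false
set_option linter.unusedSectionVars false

namespace Pool.Agent.V7H91.GT

open H385 (ZI RQ im1 nrm)
open Pool.Agent.Y699
open Pool.Agent.Y715.Qr (qs qs_zero Sqm)
open Q283.GA (Pq Ind indep exists_dat NT ii DatC four_iff)
open Filter Topology
open Pool.Agent.H304R2.EC.A1 (prim norm_def')

lemma pq_iff {l : ZI} : Pq l ↔ PP l ∧ l.norm % 8 = 1 := by
  constructor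
  · intro h
    obtain ⟨h1, h2⟩ := four_iff.1 h.four
    refine ⟨⟨h.prime, ?_⟩, ?_⟩
    · constructor <;> omega
    · rw [norm_def']
      obtain ⟨a, ha⟩ := h1
      obtain ⟨b, hb⟩ := h2
      have e1 : l.re = 4 * a + 1 := by omega
      rw [e1, hb]
      have e2 : (4 * a + 1) ^ 2 + (4 * b) ^ 2 = 8 * (2 * a ^ 2 + a + 2 * b ^ 2) + 1 := by ring
      rw [e2]
      omega
  · rintro ⟨h1, h2⟩
    refine ⟨h1.pr, four_iff.2 ?_⟩
    obtain ⟨h3, h4⟩ := h1.prm
    rw [norm_def'] at h2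
    have h5 : l.im % 4 = 0 := by
      by_contra hne
      have h6 : l.im % 4 = 2 := by omega
      have h7 : l.re % 4 = 3 := by omega
      obtain ⟨a, ha⟩ : ∃ a, l.re = 4 * a + 3 := ⟨l.re / 4, by omega⟩
      obtain ⟨b, hb⟩ : ∃ b, l.im = 4 * b + 2 := ⟨l.im / 4, by omega⟩
      rw [ha, hb] at h2
      have e2 : (4 * a + 3) ^ 2 + (4 * b + 2) ^ 2 =
        8 * (2 * a ^ 2 + 3 * a + 2 * b ^ 2 + 2 * b + 1) + 5 := by ring
      rw [e2] at h2
      omega
    constructor <;> omega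

lemma qs_qr {l x : ZI} (h : ¬ l ∣ x) : qs l x = 0 ↔ qr l x = 1 := by
  rw [qs_zero]
  unfold Sqm qr
  rw [if_neg h]
  constructor
  · intro h1
    rw [if_pos h1]
  · intro h1
    by_contra h2
    rw [if_neg h2] at h1
    norm_num at h1

lemma z2 (x : ZMod 2) : x = 0 ∨ x = 1 := by
  revert x
  decide

lemma qs_qr' {l x : ZI} (h : ¬ l ∣ x) : qs l x = 1 ↔ qr l x = -1 := by
  have h1 := qs_qr h
  rcases z2 (qs l x) with h2 | h2
  · have h3 := h1.1 h2
    rw [h2, h3]
    constructor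
    · intro h4; exact absurd h4 (by decide)
    · intro h4; norm_num at h4
  · rcases qr_cases h with h3 | h3
    · rw [h1.2 h3] at h2
      exact absurd h2 (by decide)
    · rw [h2, h3]
      exact ⟨fun _ => rfl, fun _ => rfl⟩

/-- one coordinate in `A` is `1` and all others are `0` -/
def Qa {P : Finset ZI} (A : Finset ZI) (x : P → ZMod 2) : Prop :=
  ∃ π : P, π.1 ∈ A ∧ x = Pi.single π 1

lemma card_Qa {P A : Finset ZI} (h : A ⊆ P) : Nat.card {x : P → ZMod 2 // Qa A x} = A.card := by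
  classical
  rw [← Fintype.card_coe A, ← Nat.card_eq_fintype_card]
  refine (Nat.card_congr (Equiv.ofBijective
    (fun π : A => (⟨Pi.single ⟨π.1, h π.2⟩ 1, ⟨⟨π.1, h π.2⟩, π.2, rfl⟩⟩ :
      {x : P → ZMod 2 // Qa A x})) ⟨?_, ?_⟩)).symm
  · intro a b hab
    have h1 := congrArg Subtype.val hab
    have h2 := congrFun h1 ⟨a.1, h a.2⟩
    simp only [Pi.single_eq_same] at h2
    by_contra hne
    rw [Pi.single_eq_of_ne (fun h3 => hne (Subtype.ext (by
      have := congrArg Subtype.val h3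
      exact this)))] at h2
    exact absurd h2 (by decide)
  · rintro ⟨x, π, hπ, rfl⟩
    exact ⟨⟨π.1, hπ⟩, rfl⟩

/-- the new leaves -/
def NL (D : ZI) (S : Finset ZI) (l : ZI) : Prop := l ∉ S ∧ Leaf D (insert l S)

lemma NL_iff {D : ZI} {S : Finset ZI} (hD : PS D) (hL : Leaf D S) {l : ZI} (hl : Pq l)
    (hlP : l ∉ PD D ∪ S) : NL D S l ↔ (2 : ℤ) ^ (1 + 2) ∣ l.norm - 1 ∧
      Qa (PD D) (fun q : {x // x ∈ PD D ∪ S} => qs l q.1) := by
  classical
  obtain ⟨hlP', h8⟩ := pq_iff.1 hl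
  have h8' : (2 : ℤ) ^ (1 + 2) ∣ l.norm - 1 := by
    norm_num
    omega
  rw [and_iff_right h8']
  have hPP : ∀ q ∈ PD D ∪ S, PP q := by
    intro q hq
    rcases Finset.mem_union.1 hq with h | h
    · exact ((mem_PD hD.ne).1 h).1
    · exact hL.pp q h
  have hnd : ∀ q ∈ PD D ∪ S, ¬ l ∣ q := fun q hq hd => hlP (by
    rw [hlP'.eq_of_dvd (hPP q hq) hd]; exact hq)
  constructor
  · rintro ⟨-, h⟩
    obtain ⟨π, hπ, h1, h2⟩ := h.at0 l (Finset.mem_insert_self _ _)
    have hπP : π ∈ PD D ∪ S := Finset.mem_union_left _ hπ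
    refine ⟨⟨π, hπP⟩, hπ, ?_⟩
    funext q
    by_cases hq : q = ⟨π, hπP⟩
    · rw [hq, Pi.single_eq_same]
      exact (qs_qr' (hnd π hπP)).2 h1
    · rw [Pi.single_eq_of_ne hq]
      rw [qs_qr (hnd q.1 q.2)]
      rcases Finset.mem_union.1 q.2 with h3 | h3
      · exact h2 q.1 h3 fun h4 => hq (Subtype.ext h4)
      · refine h.pw l (Finset.mem_insert_self _ _) q.1 (Finset.mem_insert_of_mem h3) ?_
        intro h4
        exact hlP (by rw [← h4]; exact q.2)
  · rintro ⟨⟨π, hπP⟩, hπ, hx⟩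
    have hv : ∀ q (hq : q ∈ PD D ∪ S), q ≠ π → qr l q = 1 := by
      intro q hq hne
      rw [← qs_qr (hnd q hq)]
      have h1 := congrFun hx ⟨q, hq⟩
      rwa [Pi.single_eq_of_ne (fun h => hne (congrArg Subtype.val h))] at h1
    have hv0 : qr l π = -1 := by
      rw [← qs_qr' (hnd π hπP)]
      have h1 := congrFun hx ⟨π, hπP⟩
      rwa [Pi.single_eq_same] at h1
    have hlS : l ∉ S := fun h => hlP (Finset.mem_union_right _ h)
    have hπS : ∀ m ∈ S, m ≠ π := fun m hm h => hL.notMem hD.ne hm (h ▸ hπ)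
    refine ⟨hlS, ⟨?_, ?_, ?_, ?_, ?_⟩⟩
    · intro x hx'
      rcases Finset.mem_insert.1 hx' with rfl | h
      · exact hlP'
      · exact hL.pp x h
    · intro x hx'
      rcases Finset.mem_insert.1 hx' with rfl | h
      · exact h8
      · exact hL.nm x h
    · intro x hx'
      rcases Finset.mem_insert.1 hx' with rfl | h
      · intro h1
        exact hlP (Finset.mem_union_left _ ((mem_PD hD.ne).2 ⟨hlP', h1⟩))
      · exact hL.ndvd x h
    · intro x hx'
      rcases Finset.mem_insert.1 hx' with rfl | h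
      · exact ⟨π, hπ, hv0, fun ρ hρ hne => hv ρ (Finset.mem_union_left _ hρ) hne⟩
      · exact hL.at0 x h
    · intro x hx' m hm hne
      rcases Finset.mem_insert.1 hx' with rfl | h
      · rcases Finset.mem_insert.1 hm with rfl | h'
        · exact absurd rfl hne
        · exact hv m (Finset.mem_union_right _ h') (hπS m h')
      · rcases Finset.mem_insert.1 hm with rfl | h'
        · rw [qr_rec (hL.pp x h) hlP']
          exact hv x (Finset.mem_union_right _ h) (hπS x h)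
        · exact hL.pw x h m h' hne

theorem exists_leafdat {D : ZI} {S : Finset ZI} (hD : PS D) (hL : Leaf D S) :
    Ind (PD D ∪ S) := by
  have hPP : ∀ q ∈ PD D ∪ S, PP q := by
    intro q hq
    rcases Finset.mem_union.1 hq with h | h
    · exact ((mem_PD hD.ne).1 h).1
    · exact hL.pp q h
  exact indep _ (fun q hq => (hPP q hq).pr) fun q hq r hr hd => (hPP q hq).eq_of_dvd (hPP r hr) hd

/-- **The density of the new leaves.** -/
theorem leaf_dens {D : ZI} {S : Finset ZI} (hD : PS D) (hL : Leaf D S) :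
    Tendsto (fun X : ℕ => (NT (NL D S) X : ℝ) /
      (NT (fun π => (2 : ℤ) ^ (1 + 2) ∣ π.norm - 1) X : ℝ)) atTop
      (𝓝 (((PD D).card : ℝ) / 2 ^ ((PD D).card + S.card))) := by
  classical
  have hI := exists_leafdat hD hL
  obtain ⟨L, hL', hN, hG, ⟨E⟩⟩ := exists_dat (PD D ∪ S) hI.w0 (k := 1) le_rfl
  have h1 := E.prop le_rfl hI (Qa (PD D)) (NL D S) (by
    intro p _ _ π hπ _ hnP
    exact NL_iff hD hL hπ hnP)
  rwa [card_Qa Finset.subset_union_left, Finset.card_union_of_disjoint (hL.disj hD.ne)] at h1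

/-- there are infinitely many new leaves -/
theorem leaf_inf {D : ZI} {S : Finset ZI} (hD : PS D) (hne : (PD D).Nonempty) (hL : Leaf D S) :
    {l : ZI | NL D S l}.Infinite := by
  classical
  have hI := exists_leafdat hD hL
  obtain ⟨L, hL', hN, hG, ⟨E⟩⟩ := exists_dat (PD D ∪ S) hI.w0 (k := 1) le_rfl
  have h1 := E.dens le_rfl hI (Qa (PD D)) (NL D S) (by
    intro p _ _ π hπ _ hnP
    exact NL_iff hD hL hπ hnP)
  rw [card_Qa Finset.subset_union_left] at h1
  intro hfin
  have h2 : Tendsto (fun X : ℕ => (NT (NL D S) X : ℝ) / (Nat.primeCounting X : ℝ)) atTop (𝓝 0) := by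
    have h3 : Tendsto (fun X : ℕ => ({l : ZI | NL D S l}.ncard : ℝ) / (Nat.primeCounting X : ℝ))
        atTop (𝓝 0) :=
      tendsto_const_nhds.div_atTop
        (tendsto_natCast_atTop_atTop.comp Nat.tendsto_primeCounting)
    refine squeeze_zero (fun X => by positivity) (fun X => ?_) h3
    refine div_le_div_of_nonneg_right ?_ (Nat.cast_nonneg _)
    have h4 : NT (NL D S) X ≤ {l : ZI | NL D S l}.ncard := by
      unfold NT
      exact Set.ncard_le_ncard (fun l hl => hl.2.2) hfin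
    exact_mod_cast h4
  have h3 := tendsto_nhds_unique h1 h2
  have hK : (0 : ℝ) < Nat.card (Q283.GA.KK E.ζ) := by
    have := Nat.card_pos (α := Q283.GA.KK E.ζ)
    exact_mod_cast this
  have hG' : (0 : ℝ) < Nat.card Gal(L/ℚ) := by
    have := Nat.card_pos (α := Gal(L/ℚ))
    exact_mod_cast this
  have hc : (0 : ℝ) < (PD D).card := by exact_mod_cast Finset.card_pos.2 hne
  have : (0 : ℝ) < 2 * (Nat.card (Q283.GA.KK E.ζ) : ℝ) / (Nat.card Gal(L/ℚ) : ℝ) *
        (((PD D).card : ℝ) / 2 ^ (PD D ∪ S).card) := by positivity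
  rw [h3] at this
  exact lt_irrefl _ this

end Pool.Agent.V7H91.GT
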