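import Pool.Agent.V7H91.GT.G1
import Pool.Agent.W164.RC.Split

/-!
Splitting of primes in elementary abelian 2-extensions of the Gaussian field: the unramified primes.
-/

set_option autoImplicit false
set_option linter.unusedSectionVars false

open NumberField IsDedekindDomain

namespace Pool.Agent.V7H91.GT

open H385 (ZI RQ im1 nrm)
open Pool.Agent.Y699
open Pool.Agent.W164.RC (split_abs)
open Pool.Agent.H304R2.EC.A1 (prim prim_mul prim_cancel prim_one prim_norm_odd prim_star eq_one_of_prim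
  norm_def' re_mul' im_mul' eq_of_dvd prim_ne_zero exists_prim)

variable {K M : Type} [Field K] [NumberField K] [Field M] [NumberField M] [Algebra K M]

/-- the embedding of the Gaussian integers in `𝓞 M` -/
noncomputable def io (M : Type) [Field M] [NumberField M] [Algebra K M] (e : ZI ≃+* 𝓞 K) :
    ZI →+* 𝓞 M := (algebraMap (𝓞 K) (𝓞 M)).comp (e : ZI →+* 𝓞 K)

variable (e : ZI ≃+* 𝓞 K)

lemma io_apply (x : ZI) : io M e x = algebraMap (𝓞 K) (𝓞 M) (e x) := rfl

lemma io_coe (x : ZI) : ((io M e x : 𝓞 M) : M) = algebraMap K M ((e x : 𝓞 K) : K) := rfl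

lemma io_inj : Function.Injective (io M e) := by
  intro a b h
  have h1 : algebraMap K M ((e a : 𝓞 K) : K) = algebraMap K M ((e b : 𝓞 K) : K) := by
    rw [← io_coe (M := M), ← io_coe (M := M), h]
  have h2 := (algebraMap K M).injective h1
  exact e.injective (RingOfIntegers.ext h2)

/-- the description of `M` by square roots -/
structure Ctx (S : Finset ZI) (H : Finset (Finset ZI)) (y : Finset ZI → 𝓞 M) : Prop where
  sub : ∀ T ∈ H, T ⊆ S
  zero : ∅ ∈ H
  sd : ∀ T ∈ H, ∀ T' ∈ H, symmDiff T T' ∈ H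
  sq : ∀ T ∈ H, y T ^ 2 = io M e (∏ l ∈ T, l)
  inj : ∀ g : M ≃ₐ[K] M, (∀ T ∈ H, g • y T = y T) → g = 1
  card : H.card = Module.finrank K M

open Classical in
/-- the residue degree -/
noncomputable def fo (H : Finset (Finset ZI)) (z : ZI) : ℕ :=
  if ∀ T ∈ H, ¬ z ∣ ∏ l ∈ T, l → qr z (∏ l ∈ T, l) = 1 then 1 else 2

lemma smul_io (σ : M ≃ₐ[K] M) (a : ZI) : σ • (io M e a) = io M e a := by
  apply RingOfIntegers.ext
  change σ ((io M e a : 𝓞 M) : M) = _
  rw [io_coe, AlgEquiv.commutes]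

lemma fin_dim : FiniteDimensional K M := by
  have : IsScalarTower ℚ K M := IsScalarTower.of_algebraMap_eq' (RingHom.ext_rat _ _)
  exact Module.Finite.of_restrictScalars_finite ℚ K M

lemma pm_sq {x a : 𝓞 M} (h : x ^ 2 = a ^ 2) : x = a ∨ x = -a := sq_eq_sq_iff_eq_or_eq_neg.1 h

/-- the automorphisms act on the square roots by signs -/
lemma Ctx.sign {S : Finset ZI} {H : Finset (Finset ZI)} {y : Finset ZI → 𝓞 M} (C : Ctx e S H y)
    (σ : M ≃ₐ[K] M) {T : Finset ZI} (hT : T ∈ H) : σ • y T = y T ∨ σ • y T = - y T := by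
  apply pm_sq
  rw [← smul_pow', C.sq T hT, smul_io]

section basics

lemma comm_inst : SMulCommClass (M ≃ₐ[K] M) (𝓞 K) (𝓞 M) := by
  constructor
  intro g a y
  rw [Algebra.smul_def, Algebra.smul_def, smul_mul']
  congr 1
  apply RingOfIntegers.ext
  change g (algebraMap K M (a : K)) = _
  rw [AlgEquiv.commutes]
  rfl

lemma inv_inst [IsGalois K M] : Algebra.IsInvariant (𝓞 K) (𝓞 M) (M ≃ₐ[K] M) := by
  haveI := fin_dim (K := K) (M := M)
  constructor
  intro b hb
  obtain ⟨y, hy⟩ := (IsGalois.mem_range_algebraMap_iff_fixed (F := K) (b : M)).2 (fun σ =>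
    congrArg (fun z : 𝓞 M => (z : M)) (hb σ))
  have h1 : IsIntegral ℤ y := by
    have h2 : IsIntegral ℤ (algebraMap K M y) := by rw [hy]; exact b.2
    exact (isIntegral_algHom_iff ((algebraMap K M).toIntAlgHom) (algebraMap K M).injective).1 h2
  refine ⟨⟨y, h1⟩, ?_⟩
  apply RingOfIntegers.ext
  exact hy

variable {z : ZI}

lemma span_prime (hz : PP z) : (Ideal.span {e z} : Ideal (𝓞 K)).IsPrime := by
  have hp0 : e z ≠ 0 := (map_ne_zero_iff e e.injective).2 hz.ne
  have hpr : Prime (e z) := (MulEquiv.prime_iff e).2 hz.pr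
  exact (Ideal.span_singleton_prime hp0).2 hpr

lemma span_ne_bot (hz : PP z) : (Ideal.span {e z} : Ideal (𝓞 K)) ≠ ⊥ := by
  rw [Ne, Ideal.span_singleton_eq_bot]
  exact (map_ne_zero_iff e e.injective).2 hz.ne

lemma span_max (hz : PP z) : (Ideal.span {e z} : Ideal (𝓞 K)).IsMaximal :=
  (span_prime e hz).isMaximal (span_ne_bot e hz)

lemma card_span (hz : PP z) : Nat.card (𝓞 K ⧸ Ideal.span {e z}) = nrm z := by
  have h1 : Nat.card (𝓞 K ⧸ Ideal.span {e z}) = Nat.card (ZI ⧸ Ideal.span {z}) := by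
    refine Nat.card_congr (Ideal.quotientEquiv _ _ e.symm ?_).toEquiv
    rw [Ideal.map_span, Set.image_singleton]
    simp
  rw [h1]
  haveI := fin_RQ hz
  letI : Fintype (RQ z) := Fintype.ofFinite _
  have h2 := card_fin hz
  rw [← h2, Nat.card_eq_fintype_card]

lemma over_of_mem (hz : PP z) {v : HeightOneSpectrum (𝓞 M)} (hv : io M e z ∈ v.asIdeal) :
    v.asIdeal.LiesOver (Ideal.span {e z}) := by
  constructor
  have := v.isPrime
  refine (span_max e hz).eq_of_le ?_ ?_
  · exact (inferInstance : (v.asIdeal.under (𝓞 K)).IsPrime).ne_top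
  · rw [Ideal.span_singleton_le_iff_mem, Ideal.mem_comap]
    exact hv

lemma mem_of_dvd {v : HeightOneSpectrum (𝓞 M)} (hv : io M e z ∈ v.asIdeal) {a : ZI} (h : z ∣ a) :
    io M e a ∈ v.asIdeal := by
  obtain ⟨c, rfl⟩ := h
  rw [map_mul]
  exact v.asIdeal.mul_mem_right _ hv

lemma dvd_of_mem (hz : PP z) {v : HeightOneSpectrum (𝓞 M)} (hv : io M e z ∈ v.asIdeal) {a : ZI}
    (h : io M e a ∈ v.asIdeal) : z ∣ a := by
  have hover := over_of_mem e hz hv
  have h1 : e a ∈ v.asIdeal.under (𝓞 K) := by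
    rw [Ideal.mem_comap]; exact h
  rw [← hover.over, Ideal.mem_span_singleton] at h1
  have := map_dvd e.symm h1
  simpa using this

lemma mem_iff_dvd (hz : PP z) {v : HeightOneSpectrum (𝓞 M)} (hv : io M e z ∈ v.asIdeal) {a : ZI} :
    io M e a ∈ v.asIdeal ↔ z ∣ a := ⟨dvd_of_mem e hz hv, mem_of_dvd e hv⟩

lemma two_notMem (hz : PP z) {v : HeightOneSpectrum (𝓞 M)} (hv : io M e z ∈ v.asIdeal) :
    (2 : 𝓞 M) ∉ v.asIdeal := by
  intro h
  have h1 : io M e (2 : ZI) ∈ v.asIdeal := by rw [map_ofNat]; exact h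
  exact not_dvd_two hz (dvd_of_mem e hz hv h1)

/-- a square root prime to `v` is determined modulo `v` -/
lemma det_sign (hz : PP z) {v : HeightOneSpectrum (𝓞 M)} (hv : io M e z ∈ v.asIdeal) {x : 𝓞 M}
    (hx : x ∉ v.asIdeal) (h : -x - x ∈ v.asIdeal) : False := by
  have h1 : (2 : 𝓞 M) * x ∈ v.asIdeal := by
    have := v.asIdeal.neg_mem h
    have e1 : -(-x - x) = 2 * x := by ring
    rwa [e1] at this
  rcases v.isPrime.mem_or_mem h1 with h2 | h2
  · exact two_notMem e hz hv h2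
  · exact hx h2

lemma exists_place [IsGalois K M] (hz : PP z) : ∃ v : HeightOneSpectrum (𝓞 M), io M e z ∈ v.asIdeal := by
  haveI := inv_inst (K := K) (M := M)
  have hnu : ¬ IsUnit (io M e z) := by
    intro hun
    obtain ⟨y, hy⟩ := hun.exists_right_inv
    obtain ⟨b, hb⟩ := (inv_inst (K := K) (M := M)).isInvariant y (by
      intro t
      have h4 : io M e z * (t • y) = 1 := by
        rw [← smul_io e t z, ← smul_mul', hy, smul_one]
      exact hun.mul_left_cancel (h4.trans hy.symm))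
    obtain ⟨b', rfl⟩ := e.surjective b
    apply hz.pr.not_isUnit
    refine IsUnit.of_mul_eq_one b' ?_
    apply io_inj (M := M) e
    rw [map_mul, map_one]
    have : io M e b' = y := hb
    rw [this]
    exact hy
  obtain ⟨P, hP, hzP⟩ := exists_max_ideal_of_mem_nonunits (mem_nonunits_iff.2 hnu)
  refine ⟨⟨P, hP.isPrime, ?_⟩, hzP⟩
  intro hbot
  rw [hbot, Ideal.mem_bot] at hzP
  exact hz.ne (io_inj (M := M) e (by rw [hzP, map_zero]))

/-- the places above `z` and the primes over it -/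
lemma card_places (hz : PP z) :
    Nat.card {v : HeightOneSpectrum (𝓞 M) // io M e z ∈ v.asIdeal} =
      ((Ideal.span {e z} : Ideal (𝓞 K)).primesOver (𝓞 M)).ncard := by
  rw [← Nat.card_coe_set_eq]
  refine Nat.card_congr
    { toFun := fun v => ⟨v.1.asIdeal, v.1.isPrime, over_of_mem e hz v.2⟩
      invFun := fun P => ⟨⟨P.1, P.2.1, ?_⟩, ?_⟩
      left_inv := fun v => rfl
      right_inv := fun P => rfl }
  · have h8 := P.2.2.over
    intro hbot
    have h9 : e z ∈ P.1.under (𝓞 K) := by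
      rw [← h8]; exact Ideal.mem_span_singleton_self _
    rw [Ideal.mem_comap, hbot, Ideal.mem_bot] at h9
    exact hz.ne (io_inj (M := M) e (by
      have : io M e z = 0 := h9
      rw [this, map_zero]))
  · have h8 := P.2.2.over
    have h9 : e z ∈ P.1.under (𝓞 K) := by
      rw [← h8]; exact Ideal.mem_span_singleton_self _
    rw [Ideal.mem_comap] at h9
    exact h9

end basics

section frob

variable {S : Finset ZI} {H : Finset (Finset ZI)} {y : Finset ZI → 𝓞 M} {z : ZI}

lemma Ctx.y_notMem (C : Ctx e S H y) (hz : PP z) {v : HeightOneSpectrum (𝓞 M)}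
    (hv : io M e z ∈ v.asIdeal) {T : Finset ZI} (hT : T ∈ H) (hzT : ¬ z ∣ ∏ l ∈ T, l) :
    y T ∉ v.asIdeal := by
  intro h
  apply hzT
  apply dvd_of_mem e hz hv
  rw [← C.sq T hT, pow_two]
  exact v.asIdeal.mul_mem_left _ h

/-- the action of a Frobenius element -/
lemma Ctx.frob (C : Ctx e S H y) (hz : PP z) {v : HeightOneSpectrum (𝓞 M)}
    (hv : io M e z ∈ v.asIdeal) {σ : M ≃ₐ[K] M} (hσ : ∀ x : 𝓞 M, σ • x - x ^ nrm z ∈ v.asIdeal)
    {T : Finset ZI} (hT : T ∈ H) (hzT : ¬ z ∣ ∏ l ∈ T, l) :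
    σ • y T = ((qr z (∏ l ∈ T, l) : ℤ) : 𝓞 M) * y T := by
  have hyv := C.y_notMem e hz hv hT hzT
  have hodd : nrm z = 2 * (nrm z / 2) + 1 := by
    have h1 := hz.odd
    have h2 := nrm_cast z
    omega
  have h1 := hσ (y T)
  have h3 : y T ^ nrm z = io M e ((∏ l ∈ T, l) ^ (nrm z / 2)) * y T := by
    conv_lhs => rw [hodd]
    rw [pow_succ, pow_mul, C.sq T hT, map_pow]
  have h4 : io M e ((∏ l ∈ T, l) ^ (nrm z / 2)) - ((qr z (∏ l ∈ T, l) : ℤ) : 𝓞 M) ∈ v.asIdeal := by
    have h5 := mem_of_dvd e hv (qr_euler hz (∏ l ∈ T, l))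
    rwa [map_sub, map_intCast] at h5
  have h5 : σ • y T - ((qr z (∏ l ∈ T, l) : ℤ) : 𝓞 M) * y T ∈ v.asIdeal := by
    have h6 := v.asIdeal.add_mem h1 (v.asIdeal.mul_mem_right (y T) h4)
    rw [h3] at h6
    have e1 : σ • y T - io M e ((∏ l ∈ T, l) ^ (nrm z / 2)) * y T +
      (io M e ((∏ l ∈ T, l) ^ (nrm z / 2)) - ((qr z (∏ l ∈ T, l) : ℤ) : 𝓞 M)) * y T =
        σ • y T - ((qr z (∏ l ∈ T, l) : ℤ) : 𝓞 M) * y T := by ring
    rwa [e1] at h6
  rcases qr_cases hzT with h6 | h6 <;> rw [h6] at h5 ⊢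
  · rcases C.sign e σ hT with h7 | h7
    · rw [h7]; push_cast; ring
    · exfalso
      rw [h7] at h5
      push_cast at h5
      rw [one_mul] at h5
      exact det_sign e hz hv hyv h5
  · rcases C.sign e σ hT with h7 | h7
    · exfalso
      rw [h7] at h5
      push_cast at h5
      apply det_sign e hz hv hyv
      have := v.asIdeal.neg_mem h5
      have e1 : -(y T - -1 * y T) = - y T - y T := by ring
      rwa [e1] at this
    · rw [h7]; push_cast; ring

/-- **Splitting of the primes which do not divide the radicands.** -/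
theorem Ctx.split [IsGalois K M] (C : Ctx e S H y) (hz : PP z) (hzH : ∀ T ∈ H, ¬ z ∣ ∏ l ∈ T, l) :
    (∀ v : HeightOneSpectrum (𝓞 M), io M e z ∈ v.asIdeal →
      Nat.card (𝓞 M ⧸ v.asIdeal) = nrm z ^ fo H z) ∧
    Nat.card {v : HeightOneSpectrum (𝓞 M) // io M e z ∈ v.asIdeal} * fo H z = H.card := by
  classical
  haveI := fin_dim (K := K) (M := M)
  haveI := comm_inst (K := K) (M := M)
  haveI := inv_inst (K := K) (M := M)
  haveI := span_max e hz
  haveI hfz : Finite (𝓞 K ⧸ Ideal.span {e z}) := Ideal.finiteQuotientOfFreeOfNeBot _ (span_ne_bot e hz)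
  have key : ∀ v : HeightOneSpectrum (𝓞 M), io M e z ∈ v.asIdeal →
      Nat.card (𝓞 M ⧸ v.asIdeal) = nrm z ^ fo H z ∧
      ((Ideal.span {e z} : Ideal (𝓞 K)).primesOver (𝓞 M)).ncard * fo H z = H.card := by
    intro v hv
    have hvpr := v.isPrime
    have hvmax : v.asIdeal.IsMaximal := v.isPrime.isMaximal v.ne_bot
    have hfv : Finite (𝓞 M ⧸ v.asIdeal) := Ideal.finiteQuotientOfFreeOfNeBot v.asIdeal v.ne_bot
    haveI hover := over_of_mem e hz hv
    obtain ⟨σ, hσ⟩ := IsArithFrobAt.exists_of_isInvariant (𝓞 K) (M ≃ₐ[K] M) v.asIdeal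
    have hσ0 : ∀ x : 𝓞 M, σ • x - x ^ Nat.card (𝓞 K ⧸ Ideal.span {e z}) ∈ v.asIdeal := by
      intro x
      have h1 := hσ x
      rw [← hover.over] at h1
      exact h1
    have hσ' : ∀ x : 𝓞 M, σ • x - x ^ nrm z ∈ v.asIdeal := by
      intro x
      rw [← card_span e hz]
      exact hσ0 x
    have hq : ∀ T ∈ H, σ • y T = ((qr z (∏ l ∈ T, l) : ℤ) : 𝓞 M) * y T := fun T hT =>
      C.frob e hz hv hσ' hT (hzH T hT)
    have h2 : σ ^ 2 = 1 := by
      apply C.inj
      intro T hT
      rw [pow_two, mul_smul, hq T hT, smul_mul', hq T hT]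
      have h3 : σ • (((qr z (∏ l ∈ T, l) : ℤ)) : 𝓞 M) = ((qr z (∏ l ∈ T, l) : ℤ) : 𝓞 M) := by
        have := smul_io e (M := M) σ ((qr z (∏ l ∈ T, l) : ℤ) : ZI)
        rwa [map_intCast] at this
      rw [h3, ← mul_assoc, ← Int.cast_mul, qr_sq (hzH T hT), Int.cast_one, one_mul]
    have hy0 : ∀ T ∈ H, y T ≠ 0 := by
      intro T hT h0
      apply C.y_notMem e hz hv hT (hzH T hT)
      rw [h0]
      exact v.asIdeal.zero_mem
    have hord : orderOf σ = fo H z := by
      unfold fo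
      split_ifs with h1
      · rw [orderOf_eq_one_iff]
        apply C.inj
        intro T hT
        rw [hq T hT, h1 T hT (hzH T hT), Int.cast_one, one_mul]
      · have := Fact.mk Nat.prime_two
        apply orderOf_eq_prime h2
        intro h3
        apply h1
        intro T hT _
        have h4 := hq T hT
        rw [h3, one_smul] at h4
        rcases qr_cases (hzH T hT) with h5 | h5
        · exact h5
        · exfalso
          rw [h5] at h4
          push_cast at h4
          have h6 : (2 : 𝓞 M) * y T = 0 := by linear_combination h4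
          rcases mul_eq_zero.1 h6 with h7 | h7
          · exact two_ne_zero h7
          · exact hy0 T hT h7
    have h5 := split_abs (M ≃ₐ[K] M) (Ideal.span {e z}) v.asIdeal (by
      intro g hg
      apply C.inj
      intro T hT
      rcases C.sign e g hT with h6 | h6
      · exact h6
      · exfalso
        have h7 := hg (y T)
        rw [h6] at h7
        exact det_sign e hz hv (C.y_notMem e hz hv hT (hzH T hT)) h7) σ hσ0
    rw [card_span e hz, hord, IsGalois.card_aut_eq_finrank, ← C.card] at h5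
    exact h5
  obtain ⟨v0, hv0⟩ := exists_place (M := M) e hz
  refine ⟨fun v hv => (key v hv).1, ?_⟩
  rw [card_places e hz]
  exact (key v0 hv0).2

end frob

end Pool.Agent.V7H91.GT
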