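import Pool.Agent.V7H91.GT.G3

/-!
Splitting of primes in elementary abelian 2-extensions of the Gaussian field: the ramified primes.
-/

set_option autoImplicit false
set_option linter.unusedSectionVars false

open NumberField IsDedekindDomain
open scoped Pointwise

namespace Pool.Agent.V7H91.GT

open H385 (ZI RQ im1 nrm)
open Pool.Agent.Y699

variable {K M : Type} [Field K] [NumberField K] [Field M] [NumberField M] [Algebra K M]
  (e : ZI ≃+* 𝓞 K)

variable {S : Finset ZI} {H : Finset (Finset ZI)} {y : Finset ZI → 𝓞 M} {z : ZI}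

lemma dvd_prod_iff (hS : ∀ l ∈ S, PP l) (hz : PP z) {T : Finset ZI} (hT : T ⊆ S) :
    z ∣ ∏ l ∈ T, l ↔ z ∈ T := by
  constructor
  · intro h
    obtain ⟨l, hl, h1⟩ := (hz.pr.dvd_finsetProd_iff _).1 h
    rw [hz.eq_of_dvd (hS l (hT hl)) h1]
    exact hl
  · intro h
    exact Finset.dvd_prod_of_mem _ h

lemma prod_sd (T T' : Finset ZI) :
    (∏ l ∈ T, l) * (∏ l ∈ T', l) = (∏ l ∈ symmDiff T T', l) * (∏ l ∈ T ∩ T', l) ^ 2 := by
  classical
  have h1 : ∏ l ∈ T, l = (∏ l ∈ T \ T', l) * ∏ l ∈ T ∩ T', l := by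
    rw [← Finset.prod_union (Finset.disjoint_sdiff_inter T T'), Finset.sdiff_union_inter]
  have h2 : ∏ l ∈ T', l = (∏ l ∈ T' \ T, l) * ∏ l ∈ T ∩ T', l := by
    rw [Finset.inter_comm, ← Finset.prod_union (Finset.disjoint_sdiff_inter T' T),
      Finset.sdiff_union_inter]
  have h3 : ∏ l ∈ symmDiff T T', l = (∏ l ∈ T \ T', l) * ∏ l ∈ T' \ T, l := by
    rw [← Finset.prod_union]
    · rfl
    · rw [Finset.disjoint_left]
      intro a ha hb
      exact (Finset.mem_sdiff.1 hb).2 (Finset.mem_sdiff.1 ha).1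
  rw [h1, h2, h3]
  ring

/-- products of square roots -/
lemma Ctx.mul_y (C : Ctx e S H y) {T T' : Finset ZI} (hT : T ∈ H) (hT' : T' ∈ H) :
    y T * y T' = y (symmDiff T T') * io M e (∏ l ∈ T ∩ T', l) ∨
      y T * y T' = -(y (symmDiff T T') * io M e (∏ l ∈ T ∩ T', l)) := by
  apply pm_sq
  rw [mul_pow, mul_pow, C.sq T hT, C.sq T' hT', C.sq _ (C.sd T hT T' hT'), ← map_mul, prod_sd,
    map_mul, map_pow]

/-- half of the sets contain `z` -/
lemma Ctx.half (C : Ctx e S H y) {T₀ : Finset ZI} (hT₀ : T₀ ∈ H) (hz : z ∈ T₀) :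
    H.card = 2 * (H.filter (fun T => z ∉ T)).card := by
  classical
  have h1 : (H.filter (fun T => z ∈ T)).card = (H.filter (fun T => z ∉ T)).card := by
    refine Finset.card_bij' (fun T _ => symmDiff T T₀) (fun T _ => symmDiff T T₀) ?_ ?_ ?_ ?_
    · intro T hT
      obtain ⟨h2, h3⟩ := Finset.mem_filter.1 hT
      refine Finset.mem_filter.2 ⟨C.sd T h2 T₀ hT₀, ?_⟩
      rw [Finset.mem_symmDiff]
      tauto
    · intro T hT
      obtain ⟨h2, h3⟩ := Finset.mem_filter.1 hT
      refine Finset.mem_filter.2 ⟨C.sd T h2 T₀ hT₀, ?_⟩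
      rw [Finset.mem_symmDiff]
      tauto
    · intro T _
      exact symmDiff_symmDiff_cancel_right _ _
    · intro T _
      exact symmDiff_symmDiff_cancel_right _ _
  have h2 := Finset.card_filter_add_card_filter_not (s := H) (fun T => z ∈ T)
  omega

/-- **Splitting of a prime `z` which divides some radicands, if all other radicands are squares
modulo `z`.** -/
theorem Ctx.ram [IsGalois K M] (C : Ctx e S H y) (hS : ∀ l ∈ S, PP l) (hz : PP z)
    {T₀ : Finset ZI} (hT₀ : T₀ ∈ H) (hz0 : z ∈ T₀)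
    (hres : ∀ T ∈ H, z ∉ T → qr z (∏ l ∈ T, l) = 1) :
    (∀ v : HeightOneSpectrum (𝓞 M), io M e z ∈ v.asIdeal → Nat.card (𝓞 M ⧸ v.asIdeal) = nrm z) ∧
    Nat.card {v : HeightOneSpectrum (𝓞 M) // io M e z ∈ v.asIdeal} =
      (H.filter (fun T => z ∉ T)).card := by
  classical
  haveI := fin_dim (K := K) (M := M)
  haveI := comm_inst (K := K) (M := M)
  haveI := inv_inst (K := K) (M := M)
  haveI := span_max e hz
  haveI hfz : Finite (𝓞 K ⧸ Ideal.span {e z}) := Ideal.finiteQuotientOfFreeOfNeBot _ (span_ne_bot e hz)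
  have hdv : ∀ T ∈ H, (z ∣ ∏ l ∈ T, l ↔ z ∈ T) := fun T hT => dvd_prod_iff hS hz (C.sub T hT)
  have key : ∀ v : HeightOneSpectrum (𝓞 M), io M e z ∈ v.asIdeal →
      Nat.card (𝓞 M ⧸ v.asIdeal) = nrm z ∧
      ((Ideal.span {e z} : Ideal (𝓞 K)).primesOver (𝓞 M)).ncard =
        (H.filter (fun T => z ∉ T)).card := by
    intro v hv
    haveI hvpr := v.isPrime
    haveI hvmax : v.asIdeal.IsMaximal := v.isPrime.isMaximal v.ne_bot
    have hfv : Finite (𝓞 M ⧸ v.asIdeal) := Ideal.finiteQuotientOfFreeOfNeBot v.asIdeal v.ne_bot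
    haveI hover := over_of_mem e hz hv
    have hy0 : ∀ T ∈ H, y T ≠ 0 := by
      intro T hT h0
      have h1 := C.sq T hT
      rw [h0, zero_pow (by norm_num)] at h1
      have h2 : (∏ l ∈ T, l) = 0 := io_inj (M := M) e (by rw [map_zero]; exact h1.symm)
      rw [Finset.prod_eq_zero_iff] at h2
      obtain ⟨l, hl, h3⟩ := h2
      exact (hS l (C.sub T hT hl)).ne h3
    -- the stabilizer
    have hstab : ∀ g : M ≃ₐ[K] M, g ∈ MulAction.stabilizer (M ≃ₐ[K] M) v.asIdeal →
        ∀ T ∈ H, z ∉ T → g • y T = y T := by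
      intro g hg T hT hzT
      have hzT' : ¬ z ∣ ∏ l ∈ T, l := fun h => hzT ((hdv T hT).1 h)
      have h1 := hres T hT hzT
      obtain ⟨b, hb⟩ : ∃ b : ZI, z ∣ (∏ l ∈ T, l) - b ^ 2 := by
        by_contra hcon
        unfold qr at h1
        rw [if_neg hzT', if_neg hcon] at h1
        norm_num at h1
      have h2 : (y T - io M e b) * (y T + io M e b) ∈ v.asIdeal := by
        have h3 := mem_of_dvd e (M := M) hv hb
        rw [map_sub, map_pow, ← C.sq T hT] at h3
        have e1 : (y T - io M e b) * (y T + io M e b) = y T ^ 2 - io M e b ^ 2 := by ring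
        rwa [e1]
      obtain ⟨c, hc⟩ : ∃ c : ZI, y T - io M e c ∈ v.asIdeal := by
        rcases v.isPrime.mem_or_mem h2 with h3 | h3
        · exact ⟨b, h3⟩
        · refine ⟨-b, ?_⟩
          rw [map_neg, sub_neg_eq_add]
          exact h3
      have h3 : g • (y T - io M e c) ∈ v.asIdeal := by
        have h4 : g • (y T - io M e c) ∈ g • v.asIdeal := Ideal.smul_mem_pointwise_smul _ _ _ hc
        rwa [MulAction.mem_stabilizer_iff.1 hg] at h4
      rw [smul_sub, smul_io] at h3
      rcases C.sign e g hT with h4 | h4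
      · exact h4
      · exfalso
        rw [h4] at h3
        have h5 := v.asIdeal.sub_mem h3 hc
        have e1 : -y T - io M e c - (y T - io M e c) = -y T - y T := by ring
        rw [e1] at h5
        exact det_sign e hz hv (C.y_notMem e hz hv hT hzT') h5
    have hstab2 : Nat.card (MulAction.stabilizer (M ≃ₐ[K] M) v.asIdeal) ≤ 2 := by
      have hinj : Function.Injective
          (fun g : MulAction.stabilizer (M ≃ₐ[K] M) v.asIdeal => decide (g.1 • y T₀ = y T₀)) := by
        intro g h hgh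
        have h1 : g.1 • y T₀ = h.1 • y T₀ := by
          have h2 : (g.1 • y T₀ = y T₀ ↔ h.1 • y T₀ = y T₀) := decide_eq_decide.1 hgh
          rcases C.sign e g.1 hT₀ with h3 | h3
          · rw [h3, h2.1 h3]
          · rcases C.sign e h.1 hT₀ with h4 | h4
            · rw [h4, h2.2 h4]
            · rw [h3, h4]
        have h2 : ∀ T ∈ H, g.1 • y T = h.1 • y T := by
          intro T hT
          by_cases hzT : z ∈ T
          · have hzs : z ∉ symmDiff T T₀ := by
              rw [Finset.mem_symmDiff]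
              tauto
            have hg := hstab g.1 g.2 _ (C.sd T hT T₀ hT₀) hzs
            have hh := hstab h.1 h.2 _ (C.sd T hT T₀ hT₀) hzs
            have h3 : g.1 • (y T * y T₀) = h.1 • (y T * y T₀) := by
              rcases C.mul_y e hT hT₀ with h4 | h4
              · rw [h4, smul_mul', smul_mul', smul_io, smul_io, hg, hh]
              · rw [h4, smul_neg, smul_neg, smul_mul', smul_mul', smul_io, smul_io, hg, hh]
            rw [smul_mul', smul_mul', h1] at h3
            refine mul_right_cancel₀ ?_ h3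
            intro h0
            apply hy0 T₀ hT₀
            rcases C.sign e h.1 hT₀ with h4 | h4
            · rw [← h4, h0]
            · rw [h4, neg_eq_zero] at h0
              exact h0
          · rw [hstab g.1 g.2 T hT hzT, hstab h.1 h.2 T hT hzT]
        have h3 : (h.1)⁻¹ * g.1 = 1 := by
          apply C.inj
          intro T hT
          rw [mul_smul, h2 T hT, inv_smul_smul]
        apply Subtype.ext
        exact (inv_mul_eq_one.1 h3).symm
      have := Nat.card_le_card_of_injective _ hinj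
      simpa using this
    -- counting
    have hcount : ((Ideal.span {e z} : Ideal (𝓞 K)).primesOver (𝓞 M)).ncard *
        Nat.card (MulAction.stabilizer (M ≃ₐ[K] M) v.asIdeal) = H.card := by
      have horb := Algebra.IsInvariant.orbit_eq_primesOver (𝓞 K) (𝓞 M) (M ≃ₐ[K] M)
        (Ideal.span {e z}) v.asIdeal
      have h3 := Nat.card_congr (MulAction.orbitProdStabilizerEquivGroup (M ≃ₐ[K] M) v.asIdeal)
      rw [Nat.card_prod, horb, Nat.card_coe_set_eq, IsGalois.card_aut_eq_finrank, ← C.card] at h3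
      exact h3
    have hefg := Ideal.ncard_primesOver_mul_ramificationIdxIn_mul_inertiaDegIn
      (Ideal.span {e z} : Ideal (𝓞 K)) (𝓞 M) (M ≃ₐ[K] M)
    rw [IsGalois.card_aut_eq_finrank, ← C.card,
      Ideal.ramificationIdxIn_eq_ramificationIdx (Ideal.span {e z}) v.asIdeal (M ≃ₐ[K] M),
      Ideal.inertiaDegIn_eq_inertiaDeg (Ideal.span {e z}) v.asIdeal (M ≃ₐ[K] M)] at hefg
    have he : 2 ≤ v.asIdeal.ramificationIdx (𝓞 K) := by
      have hp0 := span_ne_bot e hz
      have h1 := Ideal.ramificationIdx_pos v.asIdeal (𝓞 K)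
      have h2 : v.asIdeal.ramificationIdx (𝓞 K) ≠ 1 := by
        rw [← Ideal.ramificationIdx'_eq_ramificationIdx (Ideal.span {e z}) v.asIdeal hp0]
        have hle : (Ideal.span {e z}).map (algebraMap (𝓞 K) (𝓞 M)) ≤ v.asIdeal := by
          rw [Ideal.map_le_iff_le_comap]
          exact hover.over.le
        rw [Ideal.ramificationIdx'_ne_one_iff hle, Ideal.map_span, Set.image_singleton,
          Ideal.span_singleton_le_iff_mem]
        have hyv : y T₀ ∈ v.asIdeal := by
          have h3 : y T₀ ^ 2 ∈ v.asIdeal := by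
            rw [C.sq T₀ hT₀]
            exact mem_of_dvd e hv ((hdv T₀ hT₀).2 hz0)
          exact v.isPrime.mem_of_pow_mem 2 h3
        have h4 : io M e z * io M e (∏ l ∈ T₀.erase z, l) ∈ v.asIdeal ^ 2 := by
          rw [← map_mul, Finset.mul_prod_erase T₀ (fun l => l) hz0, ← C.sq T₀ hT₀]
          exact Ideal.pow_mem_pow hyv 2
        have h5 : io M e (∏ l ∈ T₀.erase z, l) ∉ v.asIdeal := by
          intro h6
          have h7 := dvd_of_mem e hz hv h6
          have h8 := (dvd_prod_iff hS hz ((Finset.erase_subset _ _).trans (C.sub T₀ hT₀))).1 h7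
          exact (Finset.mem_erase.1 h8).1 rfl
        rw [mul_comm] at h4
        exact (Ideal.IsPrime.mul_mem_pow v.asIdeal h4).resolve_left h5
      omega
    have hf := Ideal.inertiaDeg_pos v.asIdeal (𝓞 K)
    have hg0 : ((Ideal.span {e z} : Ideal (𝓞 K)).primesOver (𝓞 M)).ncard ≠ 0 := by
      intro h0
      rw [h0, zero_mul] at hcount
      have : 0 < H.card := Finset.card_pos.2 ⟨T₀, hT₀⟩
      omega
    set g := ((Ideal.span {e z} : Ideal (𝓞 K)).primesOver (𝓞 M)).ncard with hg
    set st := Nat.card (MulAction.stabilizer (M ≃ₐ[K] M) v.asIdeal) with hst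
    set ee := v.asIdeal.ramificationIdx (𝓞 K) with hee
    set ff := v.asIdeal.inertiaDeg (𝓞 K) with hff
    have h6 : st = ee * ff := Nat.eq_of_mul_eq_mul_left (Nat.pos_of_ne_zero hg0)
      (hcount.trans hefg.symm)
    have h7 : ee * ff ≤ 2 := by rw [← h6]; exact hstab2
    have hff1 : ff = 1 := by
      by_contra hne
      have : 2 ≤ ff := by omega
      have : 2 * 2 ≤ ee * ff := Nat.mul_le_mul he this
      omega
    have hee2 : ee = 2 := by
      rw [hff1, mul_one] at h7
      omega
    constructor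
    · have h8 := Ideal.inertiaDeg_eq_of_isMaximal (Ideal.span {e z} : Ideal (𝓞 K)) v.asIdeal
      rw [← hff, hff1] at h8
      letI : Field (𝓞 K ⧸ Ideal.span {e z}) := Ideal.Quotient.field _
      letI : Fintype (𝓞 K ⧸ Ideal.span {e z}) := Fintype.ofFinite _
      letI : Fintype (𝓞 M ⧸ v.asIdeal) := Fintype.ofFinite _
      have h9 := Module.card_eq_pow_finrank (K := 𝓞 K ⧸ Ideal.span {e z}) (V := 𝓞 M ⧸ v.asIdeal)
      rw [← h8, pow_one] at h9
      rw [← card_span e hz, Nat.card_eq_fintype_card, Nat.card_eq_fintype_card, h9]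
    · have h8 := C.half e hT₀ hz0
      rw [hff1, hee2] at hefg
      omega
  obtain ⟨v0, hv0⟩ := exists_place (M := M) e hz
  refine ⟨fun v hv => (key v hv).1, ?_⟩
  rw [card_places e hz]
  exact (key v0 hv0).2

end Pool.Agent.V7H91.GT
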