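import Pool.Agent.V7H91.GT.G4

/-!
The Euler product of `y² = x³ - D² x` over `M`.
-/

set_option autoImplicit false
set_option linter.unusedSectionVars false

open NumberField IsDedekindDomain

namespace Pool.Agent.V7H91.GT

open H385 (ZI RQ im1 nrm)
open Pool.Agent.Y699
open Pool.Agent.W164.RC (tc_mul tc_star two2 prim_iff_dvd unit_norm unit_cases Ip Ip_spec Ip_exists dg
  aD_roots)
open Pool.Agent.H921R2.TatePole (below deg nm nm_eq nm_summable two_le_nm)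
open Pool.Agent.H82R3.EK (luc luc_eq)
open Pool.Agent.H304R3.HK (tc tc_star_mul LH)

/-! ### the places of a number field -/

section places
variable {F : Type} [Field F] [NumberField F]

/-- the number of elements of the residue field -/
noncomputable def qv (v : HeightOneSpectrum (𝓞 F)) : ℕ := Nat.card (𝓞 F ⧸ v.asIdeal)

/-- the number of affine points of `y² = x³ - c² x` over the residue field -/
noncomputable def cn (c : 𝓞 F) (v : HeightOneSpectrum (𝓞 F)) : ℕ :=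
  Nat.card {P : (𝓞 F ⧸ v.asIdeal) × (𝓞 F ⧸ v.asIdeal) //
    P.2 ^ 2 = P.1 ^ 3 - Ideal.Quotient.mk v.asIdeal c ^ 2 * P.1}

/-- the Euler factor -/
noncomputable def ef (c : 𝓞 F) (s : ℂ) (v : HeightOneSpectrum (𝓞 F)) : ℂ :=
  (1 - ((qv v : ℂ) - cn c v) * (qv v : ℂ) ^ (-s) + (qv v : ℂ) ^ (1 - 2 * s))⁻¹

lemma qv_eq (v : HeightOneSpectrum (𝓞 F)) : qv v = nm v := by
  unfold qv Pool.Agent.H921R2.TatePole.nm
  rw [Ideal.absNorm_apply, Submodule.cardQuot_apply]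

lemma qv_abs (v : HeightOneSpectrum (𝓞 F)) : qv v = Ideal.absNorm v.asIdeal := qv_eq v

/-- the trace of the Frobenius -/
def Tr (c : 𝓞 F) (v : HeightOneSpectrum (𝓞 F)) (x : ℂ) : Prop :=
  (qv v : ℂ) - cn c v = x + (starRingEnd ℂ) x ∧ x * (starRingEnd ℂ) x = qv v

lemma ef_eq {c : 𝓞 F} {v : HeightOneSpectrum (𝓞 F)} {x : ℂ} (h : Tr c v x) (s : ℂ) :
    ef c s v = ((1 - x * (qv v : ℂ) ^ (-s)) * (1 - (starRingEnd ℂ) x * (qv v : ℂ) ^ (-s)))⁻¹ := by
  have hq : (qv v : ℂ) ≠ 0 := by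
    have h1 := two_le_nm v
    rw [← qv_eq] at h1
    have h2 : qv v ≠ 0 := by omega
    exact_mod_cast h2
  unfold ef
  rw [h.1]
  congr 1
  have h2 : (qv v : ℂ) ^ (1 - 2 * s) = (qv v : ℂ) * ((qv v : ℂ) ^ (-s)) ^ 2 := by
    have e : (1 - 2 * s : ℂ) = 1 + ((2 : ℕ) : ℂ) * (-s) := by push_cast; ring
    rw [e, Complex.cpow_add _ _ hq, Complex.cpow_one, Complex.cpow_nat_mul]
  rw [h2]
  linear_combination (-((qv v : ℂ) ^ (-s)) ^ 2) * h.2

theorem inv_bound {x y : ℂ} {w : ℝ} (hx : ‖x‖ ≤ w) (hy : ‖y‖ ≤ w) (hw : w ≤ 1 / 4) :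
    ‖((1 - x) * (1 - y))⁻¹ - 1‖ ≤ 12 * w := by
  have hw0 : 0 ≤ w := (norm_nonneg x).trans hx
  set u : ℂ := x + y - x * y with hu
  have h1 : (1 - x) * (1 - y) = 1 - u := by rw [hu]; ring
  have h2 : ‖u‖ ≤ 3 * w := by
    calc ‖u‖ ≤ ‖x + y‖ + ‖x * y‖ := norm_sub_le _ _
      _ ≤ (‖x‖ + ‖y‖) + ‖x‖ * ‖y‖ := by rw [norm_mul]; gcongr; exact norm_add_le _ _
      _ ≤ (w + w) + w * w := by gcongr
      _ ≤ 3 * w := by nlinarith
  have h3 : 1 / 4 ≤ ‖1 - u‖ := by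
    have h4 := norm_sub_norm_le (1 : ℂ) u
    rw [norm_one] at h4
    linarith
  have h5 : (1 - u) ≠ 0 := by
    intro h
    rw [h, norm_zero] at h3
    norm_num at h3
  have h6 : (1 - u)⁻¹ - 1 = u / (1 - u) := by
    field_simp
    ring
  rw [h1, h6, norm_div, div_le_iff₀ (by linarith)]
  nlinarith

lemma tr_norm {c : 𝓞 F} {v : HeightOneSpectrum (𝓞 F)} {x : ℂ} (h : Tr c v x) :
    ‖x‖ = (qv v : ℝ) ^ (1 / 2 : ℝ) := by
  have h1 : (‖x‖ ^ 2 : ℝ) = qv v := by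
    have h2 := h.2
    rw [Complex.mul_conj, Complex.normSq_eq_norm_sq] at h2
    exact_mod_cast h2
  rw [← h1, ← Real.sqrt_eq_rpow, Real.sqrt_sq (norm_nonneg _)]

theorem mult {c : 𝓞 F} {U : Set (HeightOneSpectrum (𝓞 F))} (hU : ∀ v ∈ U, ∃ x, Tr c v x) {s : ℂ}
    (hs : 3 / 2 < s.re) : Multipliable (fun v : U => ef c s v.1) := by
  have hsum0 := nm_summable (K := F) (x := s.re - 1 / 2) (by linarith)
  have hsum := hsum0.subtype U
  have h5 : Summable (fun v : U => ‖ef c s v.1 - 1‖) := by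
    refine Summable.of_norm_bounded_eventually (hsum.mul_left 12) ?_
    have h6 := hsum.tendsto_cofinite_zero.eventually (Iio_mem_nhds (by norm_num : (0 : ℝ) < 1 / 4))
    filter_upwards [h6] with v hv
    rw [norm_norm]
    obtain ⟨x, hx⟩ := hU v.1 v.2
    have hq0 : (0 : ℝ) < (qv v.1 : ℝ) := by
      have h1 := two_le_nm v.1
      rw [← qv_eq] at h1
      have h2 : 0 < qv v.1 := by omega
      exact_mod_cast h2
    have hX : ‖(qv v.1 : ℂ) ^ (-s)‖ = (qv v.1 : ℝ) ^ (-s.re) := by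
      have h2 : (qv v.1 : ℂ) = ((qv v.1 : ℝ) : ℂ) := by push_cast; rfl
      rw [h2, Complex.norm_cpow_eq_rpow_re_of_pos hq0, Complex.neg_re]
    have hw : ∀ y : ℂ, ‖y‖ = (qv v.1 : ℝ) ^ (1 / 2 : ℝ) →
        ‖y * (qv v.1 : ℂ) ^ (-s)‖ ≤ (nm v.1 : ℝ) ^ (-(s.re - 1 / 2)) := by
      intro y hy
      rw [norm_mul, hy, hX, ← Real.rpow_add hq0, ← qv_eq]
      apply le_of_eq
      congr 1
      ring
    rw [ef_eq hx]
    exact inv_bound (hw _ (tr_norm hx)) (hw _ (by rw [RCLike.norm_conj]; exact tr_norm hx))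
      (le_of_lt hv)
  have h7 := multipliable_one_add_of_summable h5
  refine h7.congr (fun v => ?_)
  ring

/-- from the fibres to the places -/
theorem eul_abs {c : 𝓞 F} {U : Set (HeightOneSpectrum (𝓞 F))} (hU : ∀ v ∈ U, ∃ x, Tr c v x) {s : ℂ}
    (hs : 3 / 2 < s.re) {B : Type} (β : U → B) {h : B → ℂ} {G : ℂ}
    (hh : ∀ b, HasProd (fun v : {v : U // β v = b} => ef c s v.1.1) (h b)) (hG : HasProd h G) :
    HasProd (fun v : U => ef c s v.1) G := by
  rw [← (Equiv.sigmaFiberEquiv β).hasProd_iff]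
  exact HasProd.sigma_of_hasProd hG (fun b => hh b)
    (((Equiv.sigmaFiberEquiv β).multipliable_iff).2 (mult hU hs))

end places

/-! ### the L-functions over `K` -/

open Classical in
/-- the Euler factor at `z` of `y² = x³ - D² x` over `K` -/
noncomputable def gz (D : ZI) (s : ℂ) (z : ZI) : ℂ :=
  if PP z then ((1 - (qr z D : ℂ) * tc z * ((nrm z : ℕ) : ℂ) ^ (-s)) *
    (1 - (qr z D : ℂ) * tc (star z) * ((nrm z : ℕ) : ℂ) ^ (-s)))⁻¹ else 1

lemma pp_or {K : Type} [Field K] [NumberField K] (e : ZI ≃+* 𝓞 K) (v : HeightOneSpectrum (𝓞 K)) :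
    PP (pg e v) ∨ pg e v = pi1 := by
  rcases pg_cases e v with ⟨-, h2⟩ | ⟨-, h2⟩
  · exact Or.inr h2
  · exact Or.inl ⟨(Ip_spec (below v).2 h2).2.1, (Ip_spec (below v).2 h2).1⟩

lemma not_pp_pi1 : ¬ PP pi1 := fun h => pi1_prim h.prm dvd_rfl

theorem good_L {D : ZI} (h : Good D) {K : Type} [Field K] [NumberField K] (e : ZI ≃+* 𝓞 K) :
    ∃ L : ℂ → ℂ, Differentiable ℂ L ∧ L 1 ≠ 0 ∧ ∀ s : ℂ, 3 / 2 < s.re →
      HasProd (fun v : HeightOneSpectrum (𝓞 K) => gz D s (pg e v)) (L s) := by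
  have hp := fam_PF h.ps.ne
  refine ⟨LE hp Finset.univ, LE_diff hp _, LE_one hp _ (LH_ne hp (good_nonempty h)
    (wt_sum h.ps h.five) (ker_of_good h)), ?_⟩
  intro s hs
  have h1 := (f1_hasProd hp Finset.univ e hs).mul (f2_hasProd hp Finset.univ e hs)
  refine h1.congr_fun fun v => ?_
  unfold gz f1 f2
  rw [norm_pg e (pg_span e v)]
  rcases pp_or e v with h2 | h2
  · rw [if_pos h2, XX_qr hp _ h2, h.ps.DD, mul_inv]
  · rw [h2, if_neg not_pp_pi1, XX_pi1]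
    simp

/-! ### the trace at a place of `M` -/

section trace
variable {K M : Type} [Field K] [NumberField K] [Field M] [NumberField M] [Algebra K M]
  (e : ZI ≃+* 𝓞 K)

lemma below_ne_two {z : ZI} (hz : PP z) {v : HeightOneSpectrum (𝓞 M)}
    (hv : io M e z ∈ v.asIdeal) : (below v : ℕ) ≠ 2 := by
  intro h2
  have h3 := (nm_eq v).2.2
  rw [h2] at h3
  exact two_notMem e hz hv (by exact_mod_cast h3)

lemma mem_Ip {z : ZI} (hz : PP z) {v : HeightOneSpectrum (𝓞 M)} (hv : io M e z ∈ v.asIdeal) :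
    z ∈ Ip (below v) := by
  have h2 := below_ne_two e hz hv
  have h3 := (nm_eq v).2.2
  have := v.isPrime
  obtain ⟨w, hw, hwv⟩ := Ip_exists (below v).2 h2 (io M e) v.asIdeal h3
  have h4 := Ip_spec (below v).2 hw
  have h5 : z ∣ w := dvd_of_mem e hz hv hwv
  rw [hz.eq_of_dvd ⟨h4.2.1, h4.1⟩ h5]
  exact hw

lemma card_field {z : ZI} (v : HeightOneSpectrum (𝓞 M)) {f : ℕ}
    (hf : Nat.card (𝓞 M ⧸ v.asIdeal) = nrm z ^ f) : qv v = nrm z ^ f := hf

/-- the trace of the twist -/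
lemma tr_twist {z D : ZI} (hz : PP z) {v : HeightOneSpectrum (𝓞 M)} (hv : io M e z ∈ v.asIdeal)
    (hD : ¬ z ∣ D) {f : ℕ} (hf12 : f = 1 ∨ f = 2) (hf : Nat.card (𝓞 M ⧸ v.asIdeal) = nrm z ^ f) :
    (qv v : ℤ) - cn (io M e D) v = (qr z D) ^ f * ((qv v : ℤ) - cn (1 : 𝓞 M) v) := by
  classical
  have hmax : v.asIdeal.IsMaximal := v.isPrime.isMaximal v.ne_bot
  letI : Field (𝓞 M ⧸ v.asIdeal) := Ideal.Quotient.field v.asIdeal
  have : Finite (𝓞 M ⧸ v.asIdeal) := Ideal.finiteQuotientOfFreeOfNeBot v.asIdeal v.ne_bot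
  letI : Fintype (𝓞 M ⧸ v.asIdeal) := Fintype.ofFinite _
  set d : 𝓞 M ⧸ v.asIdeal := Ideal.Quotient.mk v.asIdeal (io M e D) with hd
  have hd0 : d ≠ 0 := by
    rw [hd, Ne, Ideal.Quotient.eq_zero_iff_mem, mem_iff_dvd e hz hv]
    exact hD
  have hchar : ringChar (𝓞 M ⧸ v.asIdeal) ≠ 2 := by
    intro h2
    have h3 : ((2 : ℕ) : 𝓞 M ⧸ v.asIdeal) = 0 := by
      rw [← h2]
      exact ringChar.Nat.cast_ringChar
    have h4 : Ideal.Quotient.mk v.asIdeal (2 : 𝓞 M) = 0 := by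
      rw [← h3, map_ofNat]
      norm_num
    rw [Ideal.Quotient.eq_zero_iff_mem] at h4
    exact two_notMem e hz hv h4
  have hcard : Fintype.card (𝓞 M ⧸ v.asIdeal) = nrm z ^ f := by
    rw [← hf, Nat.card_eq_fintype_card]
  have hodd : nrm z % 2 = 1 := by
    have h1 := hz.odd
    have h2 := nrm_cast z
    omega
  have hmk : d ^ (nrm z / 2) = ((qr z D : ℤ) : 𝓞 M ⧸ v.asIdeal) := by
    have h5 := mem_of_dvd e hv (qr_euler hz D)
    rw [map_sub, map_intCast, map_pow, ← Ideal.Quotient.eq_zero_iff_mem, map_sub, map_pow,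
      map_intCast, ← hd, sub_eq_zero] at h5
    exact h5
  have hq : (((qr z D) ^ f : ℤ) : 𝓞 M ⧸ v.asIdeal) =
      ((quadraticChar (𝓞 M ⧸ v.asIdeal) d : ℤ) : 𝓞 M ⧸ v.asIdeal) := by
    rw [quadraticChar_eq_pow_of_char_ne_two' hchar, hcard]
    rcases hf12 with rfl | rfl
    · rw [pow_one, pow_one, hmk]
    · have h1 : nrm z ^ 2 / 2 = nrm z / 2 * (nrm z + 1) := by
        obtain ⟨k, hk⟩ : ∃ k, nrm z = 2 * k + 1 := ⟨nrm z / 2, by omega⟩
        rw [hk]
        have e1 : (2 * k + 1) ^ 2 = 2 * (k * (2 * k + 2)) + 1 := by ring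
        rw [e1]
        have e2 : (2 * k + 1) / 2 = k := by omega
        rw [e2]
        have e3 : (2 * (k * (2 * k + 2)) + 1) / 2 = k * (2 * k + 2) := by omega
        rw [e3]
      rw [h1, pow_mul, hmk]
      obtain ⟨m, hm⟩ : ∃ m, nrm z + 1 = 2 * m := ⟨(nrm z + 1) / 2, by omega⟩
      rw [hm, pow_mul]
      have h2 : (qr z D) ^ 2 = 1 := by rw [sq]; exact qr_sq hD
      rw [← Int.cast_pow, h2, Int.cast_one, one_pow]
  have hq' : (qr z D) ^ f = quadraticChar (𝓞 M ⧸ v.asIdeal) d := by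
    have h1 : (qr z D) ^ f = 1 ∨ (qr z D) ^ f = -1 := by
      rcases qr_cases hD with h | h
      · rw [h, one_pow]; exact Or.inl rfl
      · rw [h]
        rcases hf12 with rfl | rfl
        · right; norm_num
        · left; norm_num
    have h2 : quadraticChar (𝓞 M ⧸ v.asIdeal) d = 1 ∨ quadraticChar (𝓞 M ⧸ v.asIdeal) d = -1 :=
      quadraticChar_dichotomy hd0
    have h3 : (1 : 𝓞 M ⧸ v.asIdeal) ≠ -1 := by
      intro h
      have h4 : (2 : 𝓞 M ⧸ v.asIdeal) = 0 := by linear_combination h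
      apply hchar
      apply (CharP.ringChar_of_prime_eq_zero Nat.prime_two)
      exact_mod_cast h4
    rcases h1 with h1 | h1 <;> rcases h2 with h2 | h2 <;> rw [h1, h2] at hq ⊢
    · exfalso
      push_cast at hq
      exact h3 hq
    · exfalso
      push_cast at hq
      exact h3 hq.symm
  unfold cn
  have c1 := Pool.Agent.H82R3.EK.card_points hchar (fun x : 𝓞 M ⧸ v.asIdeal => x ^ 3 - d ^ 2 * x)
  have c2 := Pool.Agent.H82R3.EK.card_points hchar
    (fun x : 𝓞 M ⧸ v.asIdeal => x ^ 3 - Ideal.Quotient.mk v.asIdeal (1 : 𝓞 M) ^ 2 * x)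
  have hqv : qv v = Fintype.card (𝓞 M ⧸ v.asIdeal) := by
    unfold qv
    rw [Nat.card_eq_fintype_card]
  rw [c1, c2, hqv]
  have h3 : ∑ x : 𝓞 M ⧸ v.asIdeal, quadraticChar (𝓞 M ⧸ v.asIdeal) (x ^ 3 - d ^ 2 * x) =
      qr z D ^ f * ∑ x : 𝓞 M ⧸ v.asIdeal, quadraticChar (𝓞 M ⧸ v.asIdeal)
        (x ^ 3 - Ideal.Quotient.mk v.asIdeal (1 : 𝓞 M) ^ 2 * x) := by
    rw [← Equiv.sum_comp (Equiv.mulLeft₀ d hd0), Finset.mul_sum, hq', map_one]
    refine Finset.sum_congr rfl fun x _ => ?_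
    have e1 : (Equiv.mulLeft₀ d hd0) x = d * x := rfl
    have e2 : (d * x) ^ 3 - d ^ 2 * (d * x) = d ^ 2 * (d * (x ^ 3 - 1 ^ 2 * x)) := by ring
    rw [e1, e2, map_mul, map_mul, quadraticChar_sq_one' hd0, one_mul]
  rw [h3]
  ring

/-- the trace -/
theorem tr_at {z D : ZI} (hz : PP z) {v : HeightOneSpectrum (𝓞 M)} (hv : io M e z ∈ v.asIdeal)
    (hD : ¬ z ∣ D) {f : ℕ} (hf12 : f = 1 ∨ f = 2) (hf : Nat.card (𝓞 M ⧸ v.asIdeal) = nrm z ^ f) :
    Tr (io M e D) v (((qr z D : ℂ) * tc z) ^ f) := by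
  have h2 := below_ne_two e hz hv
  have hzI := mem_Ip e hz hv
  obtain ⟨s1, s2, s3, s4⟩ := Ip_spec (below v).2 hzI
  have hstar : (starRingEnd ℂ) (tc z) = tc (star z) := (tc_star z).symm
  have hint : (starRingEnd ℂ) ((qr z D : ℤ) : ℂ) = ((qr z D : ℤ) : ℂ) := map_intCast _ _
  have hdeg : deg v = dg (below v) * f := by
    have h1 := (nm_eq v).1
    rw [← qv_eq] at h1
    unfold qv at h1
    rw [hf, s3, ← pow_mul] at h1
    exact (Nat.pow_right_injective (below v).2.two_le h1).symm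
  constructor
  · have h3 := Pool.Agent.H82R3.EK.trace_good (D := 1) v (by
      rw [mul_one, Nat.prime_dvd_prime_iff_eq (below v).2 Nat.prime_two]
      exact h2)
    have h4 : cn (1 : 𝓞 M) v = Nat.card {x : (𝓞 M ⧸ v.asIdeal) × (𝓞 M ⧸ v.asIdeal) //
        x.2 ^ 2 = x.1 ^ 3 - ((1 : ℕ) : 𝓞 M ⧸ v.asIdeal) ^ 2 * x.1} := by
      unfold cn
      rw [Nat.cast_one, map_one]
    have h5 := tr_twist e hz hv hD hf12 hf
    rw [h4, qv_abs, h3] at h5
    obtain ⟨α, β, k3, k4, k5, k6⟩ := aD_roots (below v).2 h2 hzI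
    have h7 := luc_eq k3 k4 (deg v)
    have h8 := congrArg (Int.cast : ℤ → ℂ) h5
    push_cast at h8
    rw [h7, hdeg, pow_mul, pow_mul, k5, k6] at h8
    rw [qv_abs, h8, map_pow, map_mul, hint, hstar, mul_pow, mul_pow]
    ring
  · rw [map_pow, map_mul, hint, hstar, ← mul_pow]
    have h4 : (qr z D : ℂ) * (qr z D : ℂ) = 1 := by
      have := qr_sq hD
      exact_mod_cast congrArg (Int.cast : ℤ → ℂ) this
    have h5 : tc z * tc (star z) = ((nrm z : ℕ) : ℂ) := by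
      rw [← tc_mul, ← Zsqrtd.norm_eq_mul_conj, ← nrm_cast]
      unfold tc
      simp
    have h6 : (qr z D : ℂ) * tc z * ((qr z D : ℂ) * tc (star z)) = ((nrm z : ℕ) : ℂ) := by
      linear_combination tc z * tc (star z) * h4 + h5
    rw [h6, card_field v hf]
    push_cast
    rfl

end trace

/-! ### the product over the twists at one place -/

lemma sign_prod {H : Finset (Finset ZI)} {ε : Finset ZI → ℤ}
    (hε : ∀ T ∈ H, ε T = 1 ∨ ε T = -1) (hsd : ∀ T ∈ H, ∀ T' ∈ H, symmDiff T T' ∈ H)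
    (hm : ∀ T ∈ H, ∀ T' ∈ H, ε (symmDiff T T') = ε T * ε T') {T₀ : Finset ZI} (h0 : T₀ ∈ H)
    (h1 : ε T₀ = -1) (x : ℂ) :
    ∏ T ∈ H, (1 - (ε T : ℂ) * x) = (1 - x ^ 2) ^ (H.filter (fun T => ε T = 1)).card ∧
      H.card = 2 * (H.filter (fun T => ε T = 1)).card := by
  classical
  have hc : (H.filter (fun T => ¬ ε T = 1)).card = (H.filter (fun T => ε T = 1)).card := by
    refine Finset.card_bij' (fun T _ => symmDiff T T₀) (fun T _ => symmDiff T T₀) ?_ ?_ ?_ ?_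
    · intro T hT
      obtain ⟨h2, h3⟩ := Finset.mem_filter.1 hT
      refine Finset.mem_filter.2 ⟨hsd T h2 T₀ h0, ?_⟩
      rw [hm T h2 T₀ h0, h1, (hε T h2).resolve_left h3]
      norm_num
    · intro T hT
      obtain ⟨h2, h3⟩ := Finset.mem_filter.1 hT
      refine Finset.mem_filter.2 ⟨hsd T h2 T₀ h0, ?_⟩
      rw [hm T h2 T₀ h0, h1, h3]
      norm_num
    · intro T _
      exact symmDiff_symmDiff_cancel_right _ _
    · intro T _
      exact symmDiff_symmDiff_cancel_right _ _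
  constructor
  · rw [← Finset.prod_filter_mul_prod_filter_not H (fun T => ε T = 1)]
    have h2 : ∏ T ∈ H.filter (fun T => ε T = 1), (1 - (ε T : ℂ) * x) =
        (1 - x) ^ (H.filter (fun T => ε T = 1)).card := by
      rw [← Finset.prod_const]
      refine Finset.prod_congr rfl fun T hT => ?_
      rw [(Finset.mem_filter.1 hT).2, Int.cast_one, one_mul]
    have h3 : ∏ T ∈ H.filter (fun T => ¬ ε T = 1), (1 - (ε T : ℂ) * x) =
        (1 + x) ^ (H.filter (fun T => ε T = 1)).card := by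
      rw [← hc, ← Finset.prod_const]
      refine Finset.prod_congr rfl fun T hT => ?_
      obtain ⟨h2, h3⟩ := Finset.mem_filter.1 hT
      rw [(hε T h2).resolve_left h3]
      push_cast
      ring
    rw [h2, h3, ← mul_pow]
    congr 1
    ring
  · have h2 := Finset.card_filter_add_card_filter_not (s := H) (fun T => ε T = 1)
    omega

end Pool.Agent.V7H91.GT
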