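import Pool.Agent.V7H91.GT.Ku2
import Pool.Agent.TH841.NF.Tm
import Pool.Agent.Y699.Mn

/-!
The points of `y² = x³ - D² x` over `K(√l : l ∈ S)`.
-/

set_option autoImplicit false
set_option linter.unusedSectionVars false

open NumberField WeierstrassCurve

namespace Pool.Agent.V7H91.GT

open H385 (ZI RQ im1 nrm)
open Pool.Agent.Y699
open Pool.Agent.TH841.NF (Sc tF tF_some tF_add ns_iff)
open scoped Classical

section maps

variable {F1 F2 F3 : Type} [Field F1] [Field F2] [Field F3]

/-- the map on points -/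
noncomputable def tH {ι : F1 →+* F2} {u : F2} {W : WeierstrassCurve F1} {W' : WeierstrassCurve F2}
    (S : Sc ι u W W') : W.toAffine.Point →+ W'.toAffine.Point where
  toFun := tF S
  map_zero' := rfl
  map_add' := tF_add S

lemma tH_some {ι : F1 →+* F2} {u : F2} {W : WeierstrassCurve F1} {W' : WeierstrassCurve F2}
    (S : Sc ι u W W') (x y : F1) (h : W.toAffine.Nonsingular x y) :
    ∃ h', tH S (.some x y h) = .some (ι x * u ^ 2) (ι y * u ^ 3) h' := ⟨_, rfl⟩

lemma tH_tH {ι₁ : F1 →+* F2} {ι₂ : F2 →+* F3} {ι : F1 →+* F3} {u₁ : F2} {u₂ u : F3}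
    {W : WeierstrassCurve F1} {W' : WeierstrassCurve F2} {W'' : WeierstrassCurve F3}
    (S₁ : Sc ι₁ u₁ W W') (S₂ : Sc ι₂ u₂ W' W'') (S : Sc ι u W W'')
    (hι : ∀ x, ι₂ (ι₁ x) = ι x) (hu : u = ι₂ u₁ * u₂) (P : W.toAffine.Point) :
    tH S₂ (tH S₁ P) = tH S P := by
  rcases P with _ | ⟨x, y, h⟩
  · rfl
  · obtain ⟨h1, e1⟩ := tH_some S₁ x y h
    obtain ⟨h2, e2⟩ := tH_some S₂ _ _ h1
    obtain ⟨h3, e3⟩ := tH_some S x y h
    rw [e1, e2, e3, Affine.Point.some.injEq]
    constructor
    · rw [map_mul, map_pow, hι, hu]; ring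
    · rw [map_mul, map_pow, hι, hu]; ring

lemma sCr (ι : F1 →+* F2) {u : F2} (hu : u ≠ 0) {a : F1} {b : F2}
    (h : b ^ 2 = (ι a) ^ 2 * u ^ 4) : Sc ι u (crv a) (crv b) where
  hu := hu
  h1 := by
    change (0 : F2) = ι 0 * u
    rw [map_zero, zero_mul]
  h2 := by
    change (0 : F2) = ι 0 * u ^ 2
    rw [map_zero, zero_mul]
  h3 := by
    change (0 : F2) = ι 0 * u ^ 3
    rw [map_zero, zero_mul]
  h4 := by
    change -b ^ 2 = ι (-a ^ 2) * u ^ 4
    rw [map_neg, map_pow]
    linear_combination -h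
  h6 := by
    change (0 : F2) = ι 0 * u ^ 6
    rw [map_zero, zero_mul]

end maps

section order

variable {F : Type} [Field F] {a : F}

lemma crv_eqn {x y : F} : (crv a).toAffine.Equation x y ↔ y ^ 2 = x ^ 3 - a ^ 2 * x := by
  rw [Affine.equation_iff]
  unfold crv
  simp only [zero_mul, add_zero]
  constructor <;> intro h <;> linear_combination h

lemma crv_negY (x y : F) : (crv a).toAffine.negY x y = -y := by
  unfold Affine.negY crv
  simp

lemma two_zero {x : F} (h : (crv a).toAffine.Nonsingular x 0) :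
    (2 : ℕ) • (Affine.Point.some x 0 h : (crv a).toAffine.Point) = 0 := by
  rw [two_nsmul]
  exact Affine.Point.add_of_Y_eq rfl (by rw [crv_negY, neg_zero])

lemma y_zero (h2 : (2 : F) ≠ 0) {x y : F} (h : (crv a).toAffine.Nonsingular x y)
    (h0 : (2 : ℕ) • (Affine.Point.some x y h : (crv a).toAffine.Point) = 0) : y = 0 := by
  by_contra hy
  have hne : ¬ (x = x ∧ y = (crv a).toAffine.negY x y) := by
    rw [crv_negY]
    rintro ⟨-, h3⟩
    apply hy
    have h4 : 2 * y = 0 := by linear_combination h3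
    exact (mul_eq_zero.1 h4).resolve_left h2
  rw [two_nsmul, Affine.Point.add_some hne] at h0
  exact Affine.Point.some_ne_zero _ h0

lemma dbl (h2 : (2 : F) ≠ 0) {x y : F} (h : (crv a).toAffine.Nonsingular x y) (hy : y ≠ 0) :
    ∃ X Y h', (2 : ℕ) • (Affine.Point.some x y h : (crv a).toAffine.Point) = .some X Y h' ∧
      X * (2 * y) ^ 2 = (x ^ 2 + a ^ 2) ^ 2 := by
  have hyne : y ≠ (crv a).toAffine.negY x y := by
    rw [crv_negY]
    intro h3
    apply hy
    have h4 : 2 * y = 0 := by linear_combination h3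
    exact (mul_eq_zero.1 h4).resolve_left h2
  have hne : ¬ (x = x ∧ y = (crv a).toAffine.negY x y) := fun h3 => hyne h3.2
  have hadd := Affine.Point.add_some (h₁ := h) (h₂ := h) hne
  refine ⟨_, _, _, (two_nsmul _).trans hadd, ?_⟩
  rw [Affine.slope_of_Y_ne rfl hyne, crv_negY]
  have heq := crv_eqn.1 h.1
  unfold Affine.addX crv
  simp only [mul_zero, zero_mul, add_zero, sub_zero]
  have h3 : y - -y = 2 * y := by ring
  rw [h3]
  have h4 : 2 * y ≠ 0 := mul_ne_zero h2 hy
  field_simp
  linear_combination (-8 * x) * heq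

/-- no points of order four if `a` is not a square -/
theorem ord4 (h2 : (2 : F) ≠ 0) {j : F} (hj : j ^ 2 = -1) (hsq : ¬ ∃ b : F, b ^ 2 = a)
    (Q : (crv a).toAffine.Point) (h : (2 : ℕ) • ((2 : ℕ) • Q) = 0) : (2 : ℕ) • Q = 0 := by
  rcases Q with _ | ⟨x, y, hn⟩
  · exact smul_zero _
  by_cases hy : y = 0
  · subst hy
    exact two_zero hn
  exfalso
  obtain ⟨X, Y, h', e1, e2⟩ := dbl h2 hn hy
  rw [e1] at h
  have hY := y_zero h2 h' h
  subst hY
  have h3 := crv_eqn.1 h'.1
  have h4 : X * ((X - a) * (X + a)) = 0 := by linear_combination -h3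
  have hyy : 2 * y ≠ 0 := mul_ne_zero h2 hy
  have heq := crv_eqn.1 hn.1
  rcases mul_eq_zero.1 h4 with h5 | h5
  · apply hsq
    refine ⟨(x ^ 2 + 2 * a * x - a ^ 2) / (2 * y), ?_⟩
    rw [div_pow, div_eq_iff (pow_ne_zero 2 hyy)]
    rw [h5, zero_mul] at e2
    linear_combination -e2 - (4 * a) * heq
  · rcases mul_eq_zero.1 h5 with h6 | h6
    · apply hsq
      refine ⟨(x ^ 2 + a ^ 2) / (2 * y), ?_⟩
      rw [div_pow, div_eq_iff (pow_ne_zero 2 hyy), ← e2]
      have h7 : X = a := sub_eq_zero.1 h6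
      rw [h7]
    · apply hsq
      refine ⟨j * ((x ^ 2 + a ^ 2) / (2 * y)), ?_⟩
      rw [mul_pow, hj, div_pow, mul_div_assoc', div_eq_iff (pow_ne_zero 2 hyy), ← e2]
      have h7 : X = -a := eq_neg_of_add_eq_zero_left h6
      rw [h7]
      ring

theorem ord2k (h2 : (2 : F) ≠ 0) {j : F} (hj : j ^ 2 = -1) (hsq : ¬ ∃ b : F, b ^ 2 = a)
    (k : ℕ) (P : (crv a).toAffine.Point) (h : 2 ^ k • P = 0) : (2 : ℕ) • P = 0 := by
  induction k with
  | zero =>
    rw [pow_zero, one_smul] at h
    rw [h, smul_zero]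
  | succ k ih =>
    cases k with
    | zero => simpa using h
    | succ k =>
      apply ih
      have h3 := ord4 h2 hj hsq (2 ^ k • P) (by
        rw [← mul_smul, ← mul_smul]
        have : 2 * 2 * 2 ^ k = 2 ^ (k + 1 + 1) := by ring
        rw [this]
        exact h)
      rw [← mul_smul] at h3
      have : 2 * 2 ^ k = 2 ^ (k + 1) := by ring
      rw [this] at h3
      exact h3

end order

variable {K F : Type} [Field K] [NumberField K] [Field F] [NumberField F] [Algebra K F]
  {e : ZI ≃+* 𝓞 K}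

namespace Rt

variable {S : Finset ZI} {r : ZI → F} (h : Rt F e S r)

include h

/-- `D` is not a square in `F` -/
theorem nosqF {D : ZI} (hD : Good D) (hL : Leaf D S) : ¬ ∃ a : F, a ^ 2 = kF F e D := by
  rintro ⟨a, ha⟩
  obtain ⟨hfd, hgal⟩ := h.gal
  letI : Fintype (F ≃ₐ[K] F) := Fintype.ofFinite _
  have hD0 : kF F e D ≠ 0 := by
    rw [Ne, map_eq_zero_iff _ kF_inj]
    exact hD.ps.ne
  have ha0 : a ≠ 0 := by
    rintro rfl
    rw [zero_pow (by norm_num)] at ha
    exact hD0 ha.symm
  -- the traces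
  have htr : ∀ T ⊆ S, ∑ σ : F ≃ₐ[K] F, σ (a * rS r T) = 0 := by
    intro T hT
    have h1 : (a * rS r T) ^ 2 = kF F e (D * ∏ l ∈ T, l) := by
      rw [mul_pow, ha, h.rsq hT, map_mul]
    obtain ⟨hps, hPD⟩ := leaf_PS hD.ps (hL.subset hT)
    have h2 : D * ∏ l ∈ T, l ≠ 1 := by
      intro h3
      rw [h3, PD_one] at hPD
      obtain ⟨i, -⟩ := good_nonempty hD
      have : i.1 ∈ (∅ : Finset ZI) := by
        rw [hPD]
        exact Finset.mem_union_left _ i.2
      exact Finset.notMem_empty _ this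
    have h3 : ∃ τ : F ≃ₐ[K] F, τ (a * rS r T) = -(a * rS r T) := by
      by_contra hcon
      push Not at hcon
      apply no_sq e hps h2
      obtain ⟨k, hk⟩ := (IsGalois.mem_range_algebraMap_iff_fixed (F := K) (a * rS r T)).2 fun σ => by
        refine (sq_eq_sq_iff_eq_or_eq_neg.1 ?_).resolve_right (hcon σ)
        rw [← map_pow, h1, kF_apply, AlgEquiv.commutes]
      refine ⟨k, ?_⟩
      apply (algebraMap K F).injective
      rw [map_pow, hk, h1]
      rfl
    obtain ⟨τ, hτ⟩ := h3
    have h4 : ∑ σ : F ≃ₐ[K] F, σ (a * rS r T) = - ∑ σ : F ≃ₐ[K] F, σ (a * rS r T) := by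
      conv_lhs => rw [← Equiv.sum_comp (Equiv.mulRight τ)]
      rw [← Finset.sum_neg_distrib]
      refine Finset.sum_congr rfl fun σ _ => ?_
      show σ (τ (a * rS r T)) = _
      rw [hτ, map_neg]
    have h5 : (2 : F) * ∑ σ : F ≃ₐ[K] F, σ (a * rS r T) = 0 := by linear_combination h4
    exact (mul_eq_zero.1 h5).resolve_left two_ne_zero
  obtain ⟨b, hb⟩ := h.span a⁻¹
  have h1 : ∑ σ : F ≃ₐ[K] F, σ (a * a⁻¹) = (Fintype.card (F ≃ₐ[K] F) : F) := by
    rw [mul_inv_cancel₀ ha0]
    simp
  have h2 : ∑ σ : F ≃ₐ[K] F, σ (a * a⁻¹) = 0 := by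
    have h3 : ∀ σ : F ≃ₐ[K] F, σ (a * a⁻¹) =
        ∑ T ∈ S.powerset, algebraMap K F (b T) * σ (a * rS r T) := by
      intro σ
      conv_lhs => rw [hb, Finset.mul_sum, map_sum]
      refine Finset.sum_congr rfl fun T _ => ?_
      rw [show a * (algebraMap K F (b T) * rS r T) = algebraMap K F (b T) * (a * rS r T) by ring,
        map_mul, AlgEquiv.commutes]
    rw [Finset.sum_congr rfl fun σ _ => h3 σ, Finset.sum_comm]
    refine Finset.sum_eq_zero fun T hT => ?_
    rw [← Finset.mul_sum, htr T (Finset.mem_powerset.1 hT), mul_zero]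
  rw [h2] at h1
  have h3 : ((Fintype.card (F ≃ₐ[K] F) : ℕ) : F) ≠ 0 := by
    exact_mod_cast (Fintype.card_pos_iff.2 ⟨1⟩).ne'
  exact h3 h1.symm

/-- **The points over `F`.** -/
theorem ptsF {D : ZI} (hD : Good D) (hL : Leaf D S) {x y : F}
    (hxy : y ^ 2 = x ^ 3 - (kF F e D) ^ 2 * x) : y = 0 := by
  obtain ⟨hfd, hgal⟩ := h.gal
  letI : Fintype (F ≃ₐ[K] F) := Fintype.ofFinite _
  have hD0 : kF F e D ≠ 0 := by
    rw [Ne, map_eq_zero_iff _ kF_inj]
    exact hD.ps.ne
  have hsub : ∀ T : {T // T ∈ S.powerset}, T.1 ⊆ S := fun T => Finset.mem_powerset.1 T.2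
  have hune : ∀ T : {T // T ∈ S.powerset}, rS r T.1 ≠ 0 := fun T => h.ne (hsub T)
  have hu2 : ∀ T : {T // T ∈ S.powerset}, rS r T.1 ^ 2 = kF F e (∏ l ∈ T.1, l) :=
    fun T => h.rsq (hsub T)
  -- the maps
  have S1 : ∀ T : {T // T ∈ S.powerset}, Sc (RingHom.id F) (rS r T.1) (crv (kF F e D))
      (crv (kF F e (D * ∏ l ∈ T.1, l))) := fun T =>
    sCr _ (hune T) (by
      rw [RingHom.id_apply, map_mul, ← hu2]
      ring)
  have S2 : ∀ T : {T // T ∈ S.powerset}, Sc (RingHom.id F) (rS r T.1)⁻¹
      (crv (kF F e (D * ∏ l ∈ T.1, l))) (crv (kF F e D)) := fun T =>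
    sCr _ (inv_ne_zero (hune T)) (by
      rw [RingHom.id_apply, map_mul, ← hu2]
      have := hune T
      field_simp)
  have Sg : ∀ (b : ZI) (g : F ≃ₐ[K] F), Sc (g : F →+* F) 1 (crv (kF F e b)) (crv (kF F e b)) :=
    fun b g => sCr _ one_ne_zero (by
      rw [one_pow, mul_one]
      have : (g : F →+* F) (kF F e b) = kF F e b := g.commutes _
      rw [this])
  have Sa : ∀ b : ZI, Sc (algebraMap K F) 1 (crv (((e b : 𝓞 K) : K))) (crv (kF F e b)) := fun b =>
    sCr _ one_ne_zero (by rw [one_pow, mul_one]; rfl)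
  let R : ∀ T : {T // T ∈ S.powerset}, (crv (kF F e D)).toAffine.Point →
      (crv (kF F e (D * ∏ l ∈ T.1, l))).toAffine.Point :=
    fun T P => ∑ g : F ≃ₐ[K] F, tH (Sg _ g) (tH (S1 T) P)
  have hRinv : ∀ T P (g : F ≃ₐ[K] F), tH (Sg _ g) (R T P) = R T P := by
    intro T P g
    show tH (Sg _ g) (∑ g' : F ≃ₐ[K] F, tH (Sg _ g') (tH (S1 T) P)) =
      ∑ g' : F ≃ₐ[K] F, tH (Sg _ g') (tH (S1 T) P)
    rw [map_sum, ← Equiv.sum_comp (Equiv.mulLeft g)
      (fun g' => tH (Sg (D * ∏ l ∈ T.1, l) g') (tH (S1 T) P))]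
    refine Finset.sum_congr rfl fun g' _ => ?_
    exact tH_tH (Sg _ g') (Sg _ g) (Sg _ (g * g')) (fun y => rfl)
      (by rw [map_one, mul_one]) _
  -- descent
  have hdesc : ∀ (b : ZI) (Q : (crv (kF F e b)).toAffine.Point),
      (∀ g : F ≃ₐ[K] F, tH (Sg b g) Q = Q) →
      ∃ Q0 : (crv (((e b : 𝓞 K) : K))).toAffine.Point, tH (Sa b) Q0 = Q := by
    intro b Q hQ
    rcases Q with _ | ⟨X, Y, hn⟩
    · exact ⟨0, rfl⟩
    · have h1 : ∀ g : F ≃ₐ[K] F, g X = X ∧ g Y = Y := by
        intro g
        have h2 := hQ g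
        obtain ⟨h3, e3⟩ := tH_some (Sg b g) X Y hn
        rw [e3, Affine.Point.some.injEq, one_pow, one_pow, mul_one, mul_one] at h2
        exact h2
      obtain ⟨X0, rfl⟩ := (IsGalois.mem_range_algebraMap_iff_fixed (F := K) X).2 fun g => (h1 g).1
      obtain ⟨Y0, rfl⟩ := (IsGalois.mem_range_algebraMap_iff_fixed (F := K) Y).2 fun g => (h1 g).2
      have hns : (crv (((e b : 𝓞 K) : K))).toAffine.Nonsingular X0 Y0 := by
        have h2 := (ns_iff (Sa b) X0 Y0).1
        apply h2
        rw [one_pow, one_pow, mul_one, mul_one]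
        exact hn
      refine ⟨.some X0 Y0 hns, ?_⟩
      obtain ⟨h3, e3⟩ := tH_some (Sa b) X0 Y0 hns
      rw [e3, Affine.Point.some.injEq, one_pow, one_pow, mul_one, mul_one]
      exact ⟨rfl, rfl⟩
  have hR2 : ∀ T P, (2 : ℕ) • R T P = 0 := by
    intro T P
    obtain ⟨Q0, hQ0⟩ := hdesc _ _ (hRinv T P)
    rw [← hQ0, ← map_nsmul]
    have h1 : (2 : ℕ) • Q0 = 0 := by
      rcases Q0 with _ | ⟨X, Y, hn⟩
      · exact smul_zero _
      · have h2 : Y = 0 := crit_pts (leaf_good hD (hL.subset (hsub T))) e (crv_eqn.1 hn.1)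
        subst h2
        exact two_zero hn
    rw [h1, map_zero]
  -- the sum
  have hsum : ∀ P, ∑ T : {T // T ∈ S.powerset}, tH (S2 T) (R T P) = 2 ^ S.card • P := by
    intro P
    have h1 : ∀ T, tH (S2 T) (R T P) =
        ∑ g : F ≃ₐ[K] F, tH (S2 T) (tH (Sg _ g) (tH (S1 T) P)) := fun T => map_sum _ _ _
    rw [Finset.sum_congr rfl fun T _ => h1 T, Finset.sum_comm, Finset.sum_eq_single 1]
    · have h2 : ∀ T, tH (S2 T) (tH (Sg _ (1 : F ≃ₐ[K] F)) (tH (S1 T) P)) = P := by
        intro T
        rw [tH_tH (S1 T) (Sg _ 1) (S1 T) (fun y => rfl) (by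
          rw [mul_one]
          rfl)]
        have S4 : Sc (RingHom.id F) 1 (crv (kF F e D)) (crv (kF F e D)) :=
          sCr _ one_ne_zero (by rw [RingHom.id_apply, one_pow, mul_one])
        rw [tH_tH (S1 T) (S2 T) S4 (fun y => rfl) (by
          rw [RingHom.id_apply, mul_inv_cancel₀ (hune T)])]
        rcases P with _ | ⟨X, Y, hn⟩
        · rfl
        · obtain ⟨h3, e3⟩ := tH_some S4 X Y hn
          rw [e3, Affine.Point.some.injEq]
          simp
      rw [Finset.sum_congr rfl fun T _ => h2 T, Finset.sum_const, Finset.card_univ,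
        Fintype.card_coe, Finset.card_powerset]
    · intro g _ hg
      obtain ⟨l0, hl0, hgl⟩ : ∃ l ∈ S, g (rS r {l}) = - rS r {l} := by
        by_contra hcon
        push Not at hcon
        apply hg
        have h5 := h.gen (RingHom.eqLocusField (g : F →+* F) (RingHom.id F))
          (fun y => g.commutes y) (fun l hl => by
            have h6 := (h.sign g (Finset.singleton_subset_iff.2 hl)).resolve_right (hcon l hl)
            unfold rS at h6
            rw [Finset.prod_singleton] at h6
            exact h6)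
        ext y
        have h7 : y ∈ RingHom.eqLocusField (g : F →+* F) (RingHom.id F) := by rw [h5]; trivial
        exact h7
      have SS : Sc (g : F →+* F) 1 (crv (kF F e D)) (crv (kF F e D)) := Sg D g
      have SN : Sc (g : F →+* F) (-1) (crv (kF F e D)) (crv (kF F e D)) :=
        sCr _ (neg_ne_zero.2 one_ne_zero) (by
          have : (g : F →+* F) (kF F e D) = kF F e D := g.commutes _
          rw [this]
          ring)
      have hSN : tH SN P = - tH SS P := by
        rcases P with _ | ⟨X, Y, hn⟩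
        · change tH SN 0 = - tH SS 0
          rw [map_zero, map_zero, neg_zero]
        · obtain ⟨h3, e3⟩ := tH_some SN X Y hn
          obtain ⟨h4, e4⟩ := tH_some SS X Y hn
          rw [e3, e4, Affine.Point.neg_some, Affine.Point.some.injEq, crv_negY]
          constructor <;> ring
      set c : Finset ZI → ℤ := fun T => if g (rS r T) = rS r T then 1 else -1 with hc
      have hterm : ∀ T : {T // T ∈ S.powerset}, tH (S2 T) (tH (Sg _ g) (tH (S1 T) P)) =
          c T.1 • tH SS P := by
        intro T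
        have S3 : Sc (g : F →+* F) (g (rS r T.1)) (crv (kF F e D))
            (crv (kF F e (D * ∏ l ∈ T.1, l))) :=
          sCr _ ((map_ne_zero _).2 (hune T)) (by
            have h2 : (g : F →+* F) (kF F e D) = kF F e D := g.commutes _
            have h3 : (g (rS r T.1)) ^ 2 = rS r T.1 ^ 2 := by
              rcases h.sign g (hsub T) with h4 | h4 <;> rw [h4]
              ring
            have h4 : (g (rS r T.1)) ^ 4 = (rS r T.1 ^ 2) ^ 2 := by
              rw [← h3]; ring
            rw [h2, h4, hu2, map_mul]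
            ring)
        rw [tH_tH (S1 T) (Sg _ g) S3 (fun y => rfl) (by
          rw [mul_one]
          rfl)]
        rcases h.sign g (hsub T) with h4 | h4
        · have h5 : c T.1 = 1 := by rw [hc]; simp only; rw [if_pos h4]
          rw [h5, one_smul]
          exact tH_tH S3 (S2 T) SS (fun y => rfl) (by
            rw [RingHom.id_apply, h4, mul_inv_cancel₀ (hune T)]) P
        · have h5 : c T.1 = -1 := by
            rw [hc]
            simp only
            rw [if_neg]
            rw [h4]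
            intro h6
            apply hune T
            have h7 : 2 * rS r T.1 = 0 := by linear_combination -h6
            exact (mul_eq_zero.1 h7).resolve_left two_ne_zero
          rw [h5, neg_one_smul, ← hSN]
          exact tH_tH S3 (S2 T) SN (fun y => rfl) (by
            rw [RingHom.id_apply, h4, neg_mul, mul_inv_cancel₀ (hune T)]) P
      rw [Finset.sum_congr rfl fun T _ => hterm T, ← Finset.sum_smul]
      have hc0 : ∑ T : {T // T ∈ S.powerset}, c T.1 = 0 := by
        rw [Finset.sum_coe_sort S.powerset c]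
        have hsd : ∀ T ∈ S.powerset, symmDiff T {l0} ∈ S.powerset := by
          intro T hT
          rw [Finset.mem_powerset] at hT ⊢
          intro z hz
          rw [Finset.mem_symmDiff] at hz
          rcases hz with hz | hz
          · exact hT hz.1
          · rw [Finset.mem_singleton.1 hz.1]
            exact hl0
        have hflip : ∀ T ∈ S.powerset, c T + c (symmDiff T {l0}) = 0 := by
          intro T hT
          have hTS := Finset.mem_powerset.1 hT
          have hTS' := Finset.mem_powerset.1 (hsd T hT)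
          have h5 := h.rmul (T' := {l0}) hTS
          have h6 := congrArg g h5
          rw [map_mul, map_mul, hgl] at h6
          have h7 : g (kF F e (∏ l ∈ T ∩ {l0}, l)) = kF F e (∏ l ∈ T ∩ {l0}, l) := g.commutes _
          rw [h7] at h6
          have h8 : kF F e (∏ l ∈ T ∩ {l0}, l) ≠ 0 := by
            rw [← h.rsq (Finset.inter_subset_left.trans hTS)]
            exact pow_ne_zero _ (h.ne (Finset.inter_subset_left.trans hTS))
          have hn1 := h.ne hTS
          have hn2 := h.ne hTS'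
          have hneg : ∀ w : F, w ≠ 0 → -w ≠ w := by
            intro w hw h9
            apply hw
            have h10 : 2 * w = 0 := by linear_combination -h9
            exact (mul_eq_zero.1 h10).resolve_left two_ne_zero
          rcases h.sign g hTS with h9 | h9
          · have h10 : g (rS r (symmDiff T {l0})) = - rS r (symmDiff T {l0}) := by
              apply mul_left_cancel₀ h8
              rw [← h6, h9]
              linear_combination -h5
            rw [hc]
            simp only
            rw [if_pos h9, h10, if_neg (hneg _ hn2)]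
            norm_num
          · have h10 : g (rS r (symmDiff T {l0})) = rS r (symmDiff T {l0}) := by
              apply mul_left_cancel₀ h8
              rw [← h6, h9]
              linear_combination h5
            rw [hc]
            simp only
            rw [if_pos h10, h9, if_neg (hneg _ hn1)]
            norm_num
        refine Finset.sum_involution (fun T _ => symmDiff T {l0}) hflip ?_ hsd ?_
        · intro T _ _ h5
          have h6 : l0 ∈ symmDiff T {l0} ↔ l0 ∈ T := by rw [h5]
          rw [Finset.mem_symmDiff] at h6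
          have h7 : l0 ∈ ({l0} : Finset ZI) := Finset.mem_singleton_self _
          tauto
        · intro T _
          exact symmDiff_symmDiff_cancel_right _ _
      rw [hc0, zero_smul]
    · intro h5
      exact absurd (Finset.mem_univ _) h5
  -- conclusion
  have hΔ : (crv (kF F e D)).Δ ≠ 0 := by
    rw [crv_Δ]
    exact mul_ne_zero (by norm_num) (pow_ne_zero 6 hD0)
  have hns : (crv (kF F e D)).toAffine.Nonsingular x y := by
    rw [← WeierstrassCurve.Affine.equation_iff_nonsingular_of_Δ_ne_zero hΔ]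
    exact crv_eqn.2 hxy
  set P : (crv (kF F e D)).toAffine.Point := .some x y hns with hP
  have hPk : 2 ^ (S.card + 1) • P = 0 := by
    rw [pow_succ, mul_comm, mul_smul, ← hsum P, Finset.smul_sum]
    refine Finset.sum_eq_zero fun T _ => ?_
    rw [← map_nsmul, hR2, map_zero]
  have hj : (kF F e ⟨0, 1⟩) ^ 2 = -1 := by
    rw [← map_pow]
    have : (⟨0, 1⟩ : ZI) ^ 2 = -1 := by decide
    rw [this, map_neg, map_one]
  exact y_zero two_ne_zero hns (ord2k two_ne_zero hj (h.nosqF hD hL) _ P hPk)

/-- **The points over the intermediate fields.** -/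
theorem cardM {D : ZI} (hD : Good D) (hL : Leaf D S) (M : IntermediateField K F) :
    Nat.card (crv (algebraMap K M ((e D : 𝓞 K) : K))).toAffine.Point = 4 := by
  have hD0 : algebraMap K M ((e D : 𝓞 K) : K) ≠ 0 := by
    rw [Ne, map_eq_zero_iff _ (algebraMap K M).injective]
    intro h1
    have h2 : e D = 0 := RingOfIntegers.ext h1
    exact hD.ps.ne ((map_eq_zero_iff e e.injective).1 h2)
  refine card_pts hD0 two_ne_zero fun x y hxy => ?_
  have h1 : (y : F) = 0 := by
    apply h.ptsF hD hL (x := (x : F))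
    exact congrArg (fun z : M => (z : F)) hxy
  exact Subtype.ext h1

end Rt

end Pool.Agent.V7H91.GT
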