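import Pool.Agent.V7H91.GT.G4
import Pool.Agent.V7H91.GT.G2

/-!
The primes dividing `2 D` are unramified.
-/

set_option autoImplicit false
set_option linter.unusedSectionVars false

open NumberField IsDedekindDomain

namespace Pool.Agent.V7H91.GT

open H385 (ZI RQ im1 nrm)
open Pool.Agent.Y699
open Pool.Agent.W164.RC (split_abs)
open Q283.GA (Pq)

variable {K M : Type} [Field K] [NumberField K] [Field M] [NumberField M] [Algebra K M]
  (e : ZI ≃+* 𝓞 K)

lemma spr {z : ZI} (hz : Prime z) : (Ideal.span {e z} : Ideal (𝓞 K)).IsPrime := by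
  have hp0 : e z ≠ 0 := (map_ne_zero_iff e e.injective).2 hz.ne_zero
  have hpr : Prime (e z) := (MulEquiv.prime_iff e).2 hz
  exact (Ideal.span_singleton_prime hp0).2 hpr

lemma snb {z : ZI} (hz : Prime z) : (Ideal.span {e z} : Ideal (𝓞 K)) ≠ ⊥ := by
  rw [Ne, Ideal.span_singleton_eq_bot]
  exact (map_ne_zero_iff e e.injective).2 hz.ne_zero

lemma smax {z : ZI} (hz : Prime z) : (Ideal.span {e z} : Ideal (𝓞 K)).IsMaximal :=
  (spr e hz).isMaximal (snb e hz)

lemma sover {z : ZI} (hz : Prime z) {v : HeightOneSpectrum (𝓞 M)} (hv : io M e z ∈ v.asIdeal) :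
    v.asIdeal.LiesOver (Ideal.span {e z}) := by
  constructor
  have := v.isPrime
  refine (smax e hz).eq_of_le ?_ ?_
  · exact (inferInstance : (v.asIdeal.under (𝓞 K)).IsPrime).ne_top
  · rw [Ideal.span_singleton_le_iff_mem, Ideal.mem_comap]
    exact hv

lemma sdvd {z : ZI} (hz : Prime z) {v : HeightOneSpectrum (𝓞 M)} (hv : io M e z ∈ v.asIdeal) {a : ZI}
    (h : io M e a ∈ v.asIdeal) : z ∣ a := by
  have hover := sover e hz hv
  have h1 : e a ∈ v.asIdeal.under (𝓞 K) := by
    rw [Ideal.mem_comap]; exact h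
  rw [← hover.over, Ideal.mem_span_singleton] at h1
  have := map_dvd e.symm h1
  simpa using this

/-- **A prime with trivial inertia groups is unramified.** -/
theorem unr [IsGalois K M] {z : ZI} (hz : Prime z) {v : HeightOneSpectrum (𝓞 M)}
    (hv : io M e z ∈ v.asIdeal)
    (hin : ∀ g : M ≃ₐ[K] M, (∀ x : 𝓞 M, g • x - x ∈ v.asIdeal) → g = 1) :
    io M e z ∉ v.asIdeal ^ 2 := by
  classical
  haveI := fin_dim (K := K) (M := M)
  haveI := comm_inst (K := K) (M := M)
  haveI := inv_inst (K := K) (M := M)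
  haveI := smax e hz
  haveI hfz : Finite (𝓞 K ⧸ Ideal.span {e z}) := Ideal.finiteQuotientOfFreeOfNeBot _ (snb e hz)
  haveI hvpr := v.isPrime
  haveI hvmax : v.asIdeal.IsMaximal := v.isPrime.isMaximal v.ne_bot
  have hfv : Finite (𝓞 M ⧸ v.asIdeal) := Ideal.finiteQuotientOfFreeOfNeBot v.asIdeal v.ne_bot
  haveI hover := sover e hz hv
  obtain ⟨σ, hσ⟩ := IsArithFrobAt.exists_of_isInvariant (𝓞 K) (M ≃ₐ[K] M) v.asIdeal
  have hσ0 : ∀ x : 𝓞 M, σ • x - x ^ Nat.card (𝓞 K ⧸ Ideal.span {e z}) ∈ v.asIdeal := by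
    intro x
    have h1 := hσ x
    rw [← hover.over] at h1
    exact h1
  obtain ⟨h1, h2⟩ := split_abs (M ≃ₐ[K] M) (Ideal.span {e z}) v.asIdeal hin σ hσ0
  have hefg := Ideal.ncard_primesOver_mul_ramificationIdxIn_mul_inertiaDegIn
    (Ideal.span {e z} : Ideal (𝓞 K)) (𝓞 M) (M ≃ₐ[K] M)
  rw [Ideal.ramificationIdxIn_eq_ramificationIdx (Ideal.span {e z}) v.asIdeal (M ≃ₐ[K] M),
    Ideal.inertiaDegIn_eq_inertiaDeg (Ideal.span {e z}) v.asIdeal (M ≃ₐ[K] M)] at hefg
  have hG : 0 < Nat.card (M ≃ₐ[K] M) := Nat.card_pos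
  have hf : Nat.card (𝓞 M ⧸ v.asIdeal) = Nat.card (𝓞 K ⧸ Ideal.span {e z}) ^
      v.asIdeal.inertiaDeg (𝓞 K) := by
    have h8 := Ideal.inertiaDeg_eq_of_isMaximal (Ideal.span {e z} : Ideal (𝓞 K)) v.asIdeal
    letI : Field (𝓞 K ⧸ Ideal.span {e z}) := Ideal.Quotient.field _
    letI : Fintype (𝓞 K ⧸ Ideal.span {e z}) := Fintype.ofFinite _
    letI : Fintype (𝓞 M ⧸ v.asIdeal) := Fintype.ofFinite _
    have h9 := Module.card_eq_pow_finrank (K := 𝓞 K ⧸ Ideal.span {e z}) (V := 𝓞 M ⧸ v.asIdeal)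
    rw [← h8] at h9
    rw [Nat.card_eq_fintype_card, Nat.card_eq_fintype_card, h9]
  have hq : 1 < Nat.card (𝓞 K ⧸ Ideal.span {e z}) := by
    haveI : Nontrivial (𝓞 K ⧸ Ideal.span {e z}) := Ideal.Quotient.nontrivial_iff.2 (spr e hz).ne_top
    exact Finite.one_lt_card
  have h3 : orderOf σ = v.asIdeal.inertiaDeg (𝓞 K) :=
    Nat.pow_right_injective hq (h1.symm.trans hf)
  set g := ((Ideal.span {e z} : Ideal (𝓞 K)).primesOver (𝓞 M)).ncard with hg
  set ee := v.asIdeal.ramificationIdx (𝓞 K) with hee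
  set ff := v.asIdeal.inertiaDeg (𝓞 K) with hff
  rw [h3] at h2
  have h4 : g * (ee * ff) = g * ff := hefg.trans h2.symm
  have hgf : g * ff ≠ 0 := by rw [h2]; exact hG.ne'
  have hee1 : ee = 1 := by
    have h5 : ee * (g * ff) = 1 * (g * ff) := by
      have h6 : ee * (g * ff) = g * (ee * ff) := by ring
      rw [h6, h4, one_mul]
    exact Nat.eq_of_mul_eq_mul_right (Nat.pos_of_ne_zero hgf) h5
  intro hcon
  have h5 : v.asIdeal.ramificationIdx (𝓞 K) ≠ 1 := by
    rw [← Ideal.ramificationIdx'_eq_ramificationIdx (Ideal.span {e z}) v.asIdeal (snb e hz)]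
    have hle : (Ideal.span {e z}).map (algebraMap (𝓞 K) (𝓞 M)) ≤ v.asIdeal := by
      rw [Ideal.map_le_iff_le_comap]
      exact hover.over.le
    rw [Ideal.ramificationIdx'_ne_one_iff hle, Ideal.map_span, Set.image_singleton,
      Ideal.span_singleton_le_iff_mem]
    exact hcon
  exact h5 hee1

variable {S : Finset ZI} {H : Finset (Finset ZI)} {y : Finset ZI → 𝓞 M}

/-- the odd primes which do not divide the radicands -/
theorem Ctx.unr_odd [IsGalois K M] (C : Ctx e S H y) {z : ZI} (hz : PP z)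
    (hzH : ∀ T ∈ H, ¬ z ∣ ∏ l ∈ T, l) {v : HeightOneSpectrum (𝓞 M)}
    (hv : io M e z ∈ v.asIdeal) : io M e z ∉ v.asIdeal ^ 2 := by
  refine unr e hz.pr hv fun g hg => ?_
  apply C.inj
  intro T hT
  rcases C.sign e g hT with h6 | h6
  · exact h6
  · exfalso
    have h7 := hg (y T)
    rw [h6] at h7
    exact det_sign e hz hv (C.y_notMem e hz hv hT (hzH T hT)) h7

lemma four_prod {T : Finset ZI} (h : ∀ l ∈ T, Pq l) : (4 : ZI) ∣ ∏ l ∈ T, l - 1 := by
  classical
  induction T using Finset.induction_on with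
  | empty => rw [Finset.prod_empty, sub_self]; exact dvd_zero _
  | insert a s ha ih =>
    rw [Finset.prod_insert ha]
    have h1 := (h a (Finset.mem_insert_self _ _)).four
    have h2 := ih fun l hl => h l (Finset.mem_insert_of_mem hl)
    have e1 : a * ∏ l ∈ s, l - 1 = (a - 1) * ∏ l ∈ s, l + (∏ l ∈ s, l - 1) := by ring
    rw [e1]
    exact dvd_add (h1.mul_right _) h2

/-- the prime `1 + i` -/
theorem Ctx.unr_two [IsGalois K M] (C : Ctx e S H y) (hS : ∀ l ∈ S, Pq l)
    {v : HeightOneSpectrum (𝓞 M)} (hv : io M e pi1 ∈ v.asIdeal) :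
    io M e pi1 ∉ v.asIdeal ^ 2 := by
  refine unr e pi1_prime hv fun g hg => ?_
  apply C.inj
  intro T hT
  rcases C.sign e g hT with h6 | h6
  · exact h6
  · exfalso
    obtain ⟨c, hc⟩ := four_prod (T := T) fun l hl => hS l (C.sub T hT hl)
    have hc' : ∏ l ∈ T, l = 1 + 4 * c := by linear_combination hc
    have hsq := C.sq T hT
    rw [hc', map_add, map_mul, map_one, map_ofNat] at hsq
    -- the half
    set w : M := (1 + (y T : M)) / 2 with hw
    have hsqM : (y T : M) ^ 2 = 1 + 4 * (io M e c : M) := by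
      have := congrArg (algebraMap (𝓞 M) M) hsq
      rw [map_pow, map_add, map_one, map_mul, map_ofNat] at this
      exact this
    have hweq : w ^ 2 - w - (io M e c : M) = 0 := by
      rw [hw]
      field_simp
      linear_combination hsqM
    have hint : IsIntegral (𝓞 M) w := by
      refine ⟨Polynomial.X ^ 2 - Polynomial.X - Polynomial.C (io M e c), ?_, ?_⟩
      · monicity!
      · simp only [Polynomial.eval₂_sub, Polynomial.eval₂_pow, Polynomial.eval₂_X,
          Polynomial.eval₂_C]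
        exact hweq
    obtain ⟨w', hw'⟩ := IsIntegrallyClosed.algebraMap_eq_of_integral hint
    have h2w : 2 * w' = 1 + y T := by
      apply RingOfIntegers.ext
      show algebraMap (𝓞 M) M (2 * w') = algebraMap (𝓞 M) M (1 + y T)
      rw [map_mul, map_ofNat, map_add, map_one, hw', hw]
      field_simp
    have h7 := hg w'
    have h8 : g • (2 * w') = g • (1 + y T) := by rw [h2w]
    rw [smul_mul', smul_add, smul_one, h6] at h8
    have h9 : g • (2 : 𝓞 M) = 2 := by
      have := smul_io e (M := M) g (2 : ZI)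
      rwa [map_ofNat] at this
    rw [h9] at h8
    have h10 : g • w' - w' = - y T := by
      have h11 : (2 : 𝓞 M) * (g • w' - w') = 2 * (- y T) := by
        rw [mul_sub, h8, h2w]
        ring
      exact mul_left_cancel₀ two_ne_zero h11
    rw [h10] at h7
    have h11 : y T ∈ v.asIdeal := by
      have := v.asIdeal.neg_mem h7
      rwa [neg_neg] at this
    have h12 : io M e (∏ l ∈ T, l) ∈ v.asIdeal := by
      rw [← C.sq T hT, pow_two]
      exact v.asIdeal.mul_mem_left _ h11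
    have h13 := sdvd e pi1_prime hv h12
    rw [hc'] at h13
    have h14 : pi1 ∣ 4 * c := (pi1_two.trans ⟨2, by decide⟩).mul_right _
    have h15 : pi1 ∣ (1 : ZI) := by
      have := dvd_sub h13 h14
      have e1 : 1 + 4 * c - 4 * c = (1 : ZI) := by ring
      rwa [e1] at this
    exact pi1_prime.not_isUnit (isUnit_of_dvd_one h15)

end Pool.Agent.V7H91.GT
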