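import Pool.Agent.V7H91.GT.G4

/-!
The subfields of `K(√l : l ∈ S)`.
-/

set_option autoImplicit false
set_option linter.unusedSectionVars false

open NumberField Polynomial

namespace Pool.Agent.V7H91.GT

open H385 (ZI RQ im1 nrm)
open Pool.Agent.Y699

section gal

variable {K F : Type} [Field K] [CharZero K] [Field F] [Algebra K F]

theorem gal2 {I : Type} [Fintype I] (d : I → K) (x : I → F)
    (hx : ∀ i, x i ^ 2 = algebraMap K F (d i))
    (hgen : ∀ S : Subfield F, (∀ k : K, algebraMap K F k ∈ S) → (∀ i, x i ∈ S) → S = ⊤) :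
    FiniteDimensional K F ∧ IsGalois K F := by
  classical
  set p : K[X] := ∏ i, (X ^ 2 - C (d i)) with hp
  have hp0 : p ≠ 0 := Finset.prod_ne_zero_iff.2 fun i _ => X_pow_sub_C_ne_zero (by norm_num) _
  have hmap : p.map (algebraMap K F) = ∏ i, ((X - C (x i)) * (X - C (-(x i)))) := by
    rw [hp, Polynomial.map_prod]
    refine Finset.prod_congr rfl fun i _ => ?_
    rw [Polynomial.map_sub, Polynomial.map_pow, Polynomial.map_X, Polynomial.map_C, ← hx i,
      C_neg, C_pow]
    ring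
  have hsplit : (p.map (algebraMap K F)).Splits := by
    rw [hmap]
    refine Splits.prod fun i _ => ?_
    exact (Splits.X_sub_C _).mul (Splits.X_sub_C _)
  have hspl : IsSplittingField K F p := by
    rw [isSplittingField_iff_intermediateField]
    refine ⟨hsplit, ?_⟩
    have h1 := hgen (IntermediateField.adjoin K (p.rootSet F)).toSubfield
      (fun k => (IntermediateField.adjoin K (p.rootSet F)).algebraMap_mem k) (fun i => by
        apply IntermediateField.subset_adjoin K (p.rootSet F)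
        rw [mem_rootSet]
        refine ⟨hp0, ?_⟩
        rw [hp, map_prod]
        apply Finset.prod_eq_zero (Finset.mem_univ i)
        rw [map_sub, map_pow, aeval_X, aeval_C, hx i, sub_self])
    rw [eq_top_iff]
    intro y _
    have h2 : y ∈ (IntermediateField.adjoin K (p.rootSet F)).toSubfield := by rw [h1]; trivial
    exact h2
  have hfd : FiniteDimensional K F := IsSplittingField.finiteDimensional F p
  have hnor : Normal K F := Normal.of_isSplittingField p
  have hsep : Algebra.IsSeparable K F := Algebra.IsAlgebraic.isSeparable_of_perfectField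
  exact ⟨hfd, ⟨⟩⟩

end gal

variable {K F : Type} [Field K] [NumberField K] [Field F] [NumberField F] [Algebra K F]
  {e : ZI ≃+* 𝓞 K}

/-- the Gaussian integers in `F` -/
noncomputable def kF (F : Type) [Field F] [Algebra K F] (e : ZI ≃+* 𝓞 K) : ZI →+* F :=
  (algebraMap K F).comp ((algebraMap (𝓞 K) K).comp (e : ZI →+* 𝓞 K))

omit [NumberField K] [NumberField F] in
lemma kF_apply (x : ZI) : kF F e x = algebraMap K F ((e x : 𝓞 K) : K) := rfl

omit [NumberField K] [NumberField F] in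
lemma kF_inj : Function.Injective (kF F e) := by
  intro a b h
  rw [kF_apply, kF_apply] at h
  have h2 := (algebraMap K F).injective h
  exact e.injective (RingOfIntegers.ext h2)

/-- `F = K(√l : l ∈ S)` -/
structure Rt (F : Type) [Field F] [Algebra K F] (e : ZI ≃+* 𝓞 K) (S : Finset ZI) (r : ZI → F) :
    Prop where
  pp : ∀ l ∈ S, PP l
  sq : ∀ l ∈ S, r l ^ 2 = algebraMap K F ((e l : 𝓞 K) : K)
  gen : ∀ L : Subfield F, (∀ k : K, algebraMap K F k ∈ L) → (∀ l ∈ S, r l ∈ L) → L = ⊤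

/-- products of the square roots -/
def rS (r : ZI → F) (T : Finset ZI) : F := ∏ l ∈ T, r l

omit [NumberField F] in
lemma rS_empty (r : ZI → F) : rS r ∅ = 1 := Finset.prod_empty

omit [NumberField K] [NumberField F] in
/-- a squarefree element which is not `1` is not a square -/
theorem no_sq (e : ZI ≃+* 𝓞 K) {z : ZI} (hz : PS z) (h1 : z ≠ 1) :
    ¬ ∃ k : K, k ^ 2 = ((e z : 𝓞 K) : K) := by
  rintro ⟨k, hk⟩
  have hint : IsIntegral ℤ k := by
    refine IsIntegral.of_pow (n := 2) (by norm_num) ?_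
    rw [hk]
    exact (e z).2
  obtain ⟨b, hb⟩ : ∃ b : 𝓞 K, (b : K) = k := ⟨⟨k, hint⟩, rfl⟩
  obtain ⟨c, rfl⟩ := e.surjective b
  have h3 : e (c ^ 2) = e z := by
    apply RingOfIntegers.ext
    rw [← hk, ← hb, map_pow]
    rfl
  have h4 := e.injective h3
  have h5 : IsUnit c := hz.sqf c ⟨1, by rw [mul_one, ← h4, sq]⟩
  have h6 : IsUnit z := by rw [← h4]; exact h5.pow 2
  have h7 : PD z = ∅ := by
    rw [Finset.eq_empty_iff_forall_notMem]
    intro π hπ
    obtain ⟨h8, h9⟩ := (mem_PD hz.ne).1 hπ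
    exact h8.pr.not_isUnit (isUnit_of_dvd_unit h9 h6)
  have h8 := hz.prod
  rw [h7, Finset.prod_empty] at h8
  exact h1 h8.symm

namespace Rt

variable {S : Finset ZI} {r : ZI → F} (h : Rt F e S r)

include h

lemma rsq {T : Finset ZI} (hT : T ⊆ S) : rS r T ^ 2 = kF F e (∏ l ∈ T, l) := by
  unfold rS
  rw [← Finset.prod_pow, map_prod]
  exact Finset.prod_congr rfl fun l hl => h.sq l (hT hl)

lemma ne {T : Finset ZI} (hT : T ⊆ S) : rS r T ≠ 0 := by
  intro h0
  have h1 := h.rsq hT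
  rw [h0, zero_pow (by norm_num)] at h1
  have h2 : (∏ l ∈ T, l) = 0 := kF_inj (F := F) (e := e) (by rw [map_zero]; exact h1.symm)
  rw [Finset.prod_eq_zero_iff] at h2
  obtain ⟨l, hl, h3⟩ := h2
  exact (h.pp l (hT hl)).ne h3

lemma rmul {T T' : Finset ZI} (hT : T ⊆ S) :
    rS r T * rS r T' = kF F e (∏ l ∈ T ∩ T', l) * rS r (symmDiff T T') := by
  have h0 := h.rsq (Finset.inter_subset_left.trans hT : T ∩ T' ⊆ S)
  unfold rS at h0 ⊢
  have h1 : ∏ l ∈ T, r l = (∏ l ∈ T \ T', r l) * ∏ l ∈ T ∩ T', r l := by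
    rw [← Finset.prod_union (Finset.disjoint_sdiff_inter T T'), Finset.sdiff_union_inter]
  have h2 : ∏ l ∈ T', r l = (∏ l ∈ T' \ T, r l) * ∏ l ∈ T ∩ T', r l := by
    rw [Finset.inter_comm, ← Finset.prod_union (Finset.disjoint_sdiff_inter T' T),
      Finset.sdiff_union_inter]
  have h3 : ∏ l ∈ symmDiff T T', r l = (∏ l ∈ T \ T', r l) * ∏ l ∈ T' \ T, r l := by
    rw [← Finset.prod_union]
    · rfl
    · rw [Finset.disjoint_left]
      intro a ha hb
      exact (Finset.mem_sdiff.1 hb).2 (Finset.mem_sdiff.1 ha).1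
  rw [h1, h2, h3, ← h0]
  ring

theorem gal : FiniteDimensional K F ∧ IsGalois K F :=
  gal2 (I := {x : ZI // x ∈ S}) (fun i => ((e i.1 : 𝓞 K) : K)) (fun i => r i.1)
    (fun i => h.sq i.1 i.2) (fun L h1 h2 => h.gen L h1 fun l hl => h2 ⟨l, hl⟩)

lemma psT {T : Finset ZI} (hT : T ⊆ S) (hne : T ≠ ∅) : PS (∏ l ∈ T, l) ∧ ∏ l ∈ T, l ≠ 1 := by
  obtain ⟨h1, h2⟩ := PS_prod (S := T) fun π hπ => h.pp π (hT hπ)
  refine ⟨h1, fun h3 => hne ?_⟩
  rw [h3, PD_one] at h2
  exact h2.symm

/-- the automorphisms act by signs -/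
lemma sign (σ : F ≃ₐ[K] F) {T : Finset ZI} (hT : T ⊆ S) :
    σ (rS r T) = rS r T ∨ σ (rS r T) = - rS r T := by
  apply sq_eq_sq_iff_eq_or_eq_neg.1
  rw [← map_pow, h.rsq hT, kF_apply, AlgEquiv.commutes]

lemma sum_zero (N : Subgroup (F ≃ₐ[K] F)) [Fintype N] {T : Finset ZI} {τ : F ≃ₐ[K] F}
    (hτ : τ ∈ N) (h1 : τ (rS r T) = - rS r T) : ∑ σ : N, σ.1 (rS r T) = 0 := by
  have h2 : ∑ σ : N, σ.1 (rS r T) = - ∑ σ : N, σ.1 (rS r T) := by
    conv_lhs => rw [← Equiv.sum_comp (Equiv.mulRight (⟨τ, hτ⟩ : N))]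
    rw [← Finset.sum_neg_distrib]
    refine Finset.sum_congr rfl fun σ _ => ?_
    show σ.1 (τ (rS r T)) = _
    rw [h1, map_neg]
  have h3 : (2 : F) * ∑ σ : N, σ.1 (rS r T) = 0 := by linear_combination h2
  exact (mul_eq_zero.1 h3).resolve_left two_ne_zero

/-- the square roots are not in `K` -/
lemma notMem {T : Finset ZI} (hT : T ⊆ S) (hne : T ≠ ∅) :
    ¬ ∃ k : K, algebraMap K F k = rS r T := by
  rintro ⟨k, hk⟩
  obtain ⟨h1, h2⟩ := h.psT hT hne
  apply no_sq e h1 h2
  refine ⟨k, ?_⟩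
  apply (algebraMap K F).injective
  rw [map_pow, hk, h.rsq hT]
  rfl

/-- **The square roots are linearly independent.** -/
theorem lin (a : Finset ZI → K)
    (h0 : ∑ T ∈ S.powerset, algebraMap K F (a T) * rS r T = 0) : ∀ T ⊆ S, a T = 0 := by
  classical
  obtain ⟨hfd, hgal⟩ := h.gal
  intro T₁ hT₁
  letI : Fintype (F ≃ₐ[K] F) := Fintype.ofFinite _
  have h1 : ∑ T ∈ S.powerset, algebraMap K F (a T) * (rS r T * rS r T₁) = 0 := by
    have h2 : (∑ T ∈ S.powerset, algebraMap K F (a T) * rS r T) * rS r T₁ = 0 := by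
      rw [h0, zero_mul]
    rw [Finset.sum_mul] at h2
    rw [← h2]
    exact Finset.sum_congr rfl fun T _ => by ring
  have h2 : ∑ σ : F ≃ₐ[K] F, σ (∑ T ∈ S.powerset, algebraMap K F (a T) * (rS r T * rS r T₁)) = 0 := by
    rw [h1]
    simp
  simp only [map_sum, map_mul, AlgEquiv.commutes] at h2
  rw [Finset.sum_comm, Finset.sum_eq_single T₁] at h2
  · have h3 : ∀ σ : F ≃ₐ[K] F, algebraMap K F (a T₁) * (σ (rS r T₁) * σ (rS r T₁)) =
        algebraMap K F (a T₁) * (rS r T₁ * rS r T₁) := by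
      intro σ
      rcases h.sign σ hT₁ with h4 | h4 <;> rw [h4] <;> ring
    rw [Finset.sum_congr rfl fun σ _ => h3 σ, Finset.sum_const, Finset.card_univ, nsmul_eq_mul] at h2
    have h4 : ((Fintype.card (F ≃ₐ[K] F) : ℕ) : F) ≠ 0 := by
      exact_mod_cast (Fintype.card_pos_iff.2 ⟨1⟩).ne'
    have h5 := (mul_eq_zero.1 h2).resolve_left h4
    have h6 := (mul_eq_zero.1 h5).resolve_right (mul_ne_zero (h.ne hT₁) (h.ne hT₁))
    exact (map_eq_zero _).1 h6
  · intro T hT hne
    have hTS := Finset.mem_powerset.1 hT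
    have hsd : symmDiff T T₁ ⊆ S := by
      intro x hx
      rw [Finset.mem_symmDiff] at hx
      rcases hx with hx | hx
      · exact hTS hx.1
      · exact hT₁ hx.1
    have hne' : symmDiff T T₁ ≠ ∅ := by
      intro h3
      apply hne
      exact symmDiff_eq_bot.1 h3
    have h3 : ∃ τ : F ≃ₐ[K] F, τ (rS r (symmDiff T T₁)) = - rS r (symmDiff T T₁) := by
      by_contra hcon
      push Not at hcon
      apply h.notMem hsd hne'
      refine (IsGalois.mem_range_algebraMap_iff_fixed (F := K) _).2 fun σ => ?_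
      exact (h.sign σ hsd).resolve_right (hcon σ)
    obtain ⟨τ, hτ⟩ := h3
    have h4 := h.sum_zero ⊤ (Subgroup.mem_top τ) hτ
    have h5 : ∑ σ : (⊤ : Subgroup (F ≃ₐ[K] F)), σ.1 (rS r (symmDiff T T₁)) =
        ∑ σ : F ≃ₐ[K] F, σ (rS r (symmDiff T T₁)) :=
      Fintype.sum_equiv Subgroup.topEquiv.toEquiv _ _ fun σ => rfl
    rw [h5] at h4
    have h6 : ∀ σ : F ≃ₐ[K] F, algebraMap K F (a T) * (σ (rS r T) * σ (rS r T₁)) =
        algebraMap K F (a T) * kF F e (∏ l ∈ T ∩ T₁, l) * σ (rS r (symmDiff T T₁)) := by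
      intro σ
      rw [← map_mul, h.rmul hTS, map_mul, kF_apply, AlgEquiv.commutes]
      ring
    rw [Finset.sum_congr rfl fun σ _ => h6 σ, ← Finset.mul_sum, h4, mul_zero]
  · intro h3
    exact absurd (Finset.mem_powerset.2 hT₁) h3

/-- **The square roots span `F`.** -/
theorem span (x : F) : ∃ a : Finset ZI → K,
    x = ∑ T ∈ S.powerset, algebraMap K F (a T) * rS r T := by
  classical
  obtain ⟨hfd, hgal⟩ := h.gal
  set V : Submodule K F := Submodule.span K ((fun T => rS r T) '' (S.powerset : Set (Finset ZI))) with hV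
  have hmem : ∀ T ⊆ S, rS r T ∈ V := fun T hT =>
    Submodule.subset_span ⟨T, Finset.mem_coe.2 (Finset.mem_powerset.2 hT), rfl⟩
  have h1 : (1 : F) ∈ V := by
    have := hmem ∅ (Finset.empty_subset _)
    rwa [rS_empty] at this
  have hsdS : ∀ T T' : Finset ZI, T ⊆ S → T' ⊆ S → symmDiff T T' ⊆ S := by
    intro T T' hT hT' x hx
    rw [Finset.mem_symmDiff] at hx
    rcases hx with hx | hx
    · exact hT hx.1
    · exact hT' hx.1
  have h2 : ∀ x y, x ∈ V → y ∈ V → x * y ∈ V := by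
    intro x y hx hy
    induction hx using Submodule.span_induction with
    | mem x hx =>
      obtain ⟨T, hT, rfl⟩ := hx
      have hT' := Finset.mem_powerset.1 (Finset.mem_coe.1 hT)
      induction hy using Submodule.span_induction with
      | mem y hy =>
        obtain ⟨T', hT2, rfl⟩ := hy
        have hT2' := Finset.mem_powerset.1 (Finset.mem_coe.1 hT2)
        show rS r T * rS r T' ∈ V
        rw [h.rmul hT', kF_apply, ← Algebra.smul_def]
        exact V.smul_mem _ (hmem _ (hsdS _ _ hT' hT2'))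
      | zero => rw [mul_zero]; exact V.zero_mem
      | add y z _ _ hy hz => rw [mul_add]; exact V.add_mem hy hz
      | smul c y _ hy => rw [mul_smul_comm]; exact V.smul_mem _ hy
    | zero => rw [zero_mul]; exact V.zero_mem
    | add x z _ _ hx hz => rw [add_mul]; exact V.add_mem hx hz
    | smul c x _ hx => rw [smul_mul_assoc]; exact V.smul_mem _ hx
  set A : Subalgebra K F := V.toSubalgebra h1 h2 with hA
  have h3 : Algebra.adjoin K (r '' (S : Set ZI)) ≤ A := by
    apply Algebra.adjoin_le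
    rintro _ ⟨l, hl, rfl⟩
    have h4 := hmem {l} (Finset.singleton_subset_iff.2 hl)
    unfold rS at h4
    rw [Finset.prod_singleton] at h4
    exact h4
  have h4 := h.gen (IntermediateField.adjoin K (r '' (S : Set ZI))).toSubfield
    (fun k => (IntermediateField.adjoin K (r '' (S : Set ZI))).algebraMap_mem k)
    (fun l hl => IntermediateField.subset_adjoin K _ ⟨l, hl, rfl⟩)
  have h5 : x ∈ V := by
    have h6 : x ∈ (IntermediateField.adjoin K (r '' (S : Set ZI))).toSubfield := by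
      rw [h4]; trivial
    have h7 : x ∈ (IntermediateField.adjoin K (r '' (S : Set ZI))).toSubalgebra := h6
    rw [IntermediateField.adjoin_toSubalgebra] at h7
    exact h3 h7
  have h6 : V = Submodule.span K (Set.range fun T : {T // T ∈ S.powerset} => rS r T.1) := by
    rw [hV]
    congr 1
    ext y
    constructor
    · rintro ⟨T, hT, rfl⟩
      exact ⟨⟨T, hT⟩, rfl⟩
    · rintro ⟨T, rfl⟩
      exact ⟨T.1, T.2, rfl⟩
  rw [h6, Submodule.mem_span_range_iff_exists_fun] at h5
  obtain ⟨c, hc⟩ := h5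
  refine ⟨fun T => if hT : T ∈ S.powerset then c ⟨T, hT⟩ else 0, ?_⟩
  rw [← hc, ← Finset.sum_coe_sort S.powerset]
  refine Finset.sum_congr rfl fun T _ => ?_
  simp only [dif_pos T.2]
  rw [Algebra.smul_def]

end Rt

end Pool.Agent.V7H91.GT
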