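import Pool.Agent.V7H91.GT.Ku

/-!
The intermediate fields of `K(√l : l ∈ S) / K`.
-/

set_option autoImplicit false
set_option linter.unusedSectionVars false

open NumberField Polynomial

namespace Pool.Agent.V7H91.GT

open H385 (ZI RQ im1 nrm)
open Pool.Agent.Y699

variable {K F : Type} [Field K] [NumberField K] [Field F] [NumberField F] [Algebra K F]
  {e : ZI ≃+* 𝓞 K}

open Classical in
/-- the sets `T` with `√∏ T ∈ M` -/
noncomputable def HM (S : Finset ZI) (r : ZI → F) (M : IntermediateField K F) :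
    Finset (Finset ZI) := S.powerset.filter (fun T => rS r T ∈ M)

omit [NumberField K] [NumberField F] in
lemma mem_HM {S : Finset ZI} {r : ZI → F} {M : IntermediateField K F} {T : Finset ZI} :
    T ∈ HM S r M ↔ T ⊆ S ∧ rS r T ∈ M := by
  classical
  unfold HM
  rw [Finset.mem_filter, Finset.mem_powerset]

namespace Rt

variable {S : Finset ZI} {r : ZI → F} (h : Rt F e S r) (M : IntermediateField K F)

include h

theorem spanM {x : F} (hx : x ∈ M) : ∃ a : Finset ZI → K,
    x = ∑ T ∈ HM S r M, algebraMap K F (a T) * rS r T := by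
  classical
  obtain ⟨hfd, hgal⟩ := h.gal
  obtain ⟨a, ha⟩ := h.span x
  refine ⟨a, ?_⟩
  set N : Subgroup (F ≃ₐ[K] F) := M.fixingSubgroup with hN
  letI : Fintype N := Fintype.ofFinite _
  have h1 : ∑ σ : N, σ.1 x = (Fintype.card N : F) * x := by
    have h2 : ∀ σ : N, σ.1 x = x := fun σ =>
      (IntermediateField.mem_fixingSubgroup_iff M σ.1).1 σ.2 x hx
    rw [Finset.sum_congr rfl fun σ _ => h2 σ, Finset.sum_const, Finset.card_univ, nsmul_eq_mul]
  have h2 : ∑ σ : N, σ.1 x = ∑ T ∈ S.powerset, algebraMap K F (a T) * ∑ σ : N, σ.1 (rS r T) := by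
    have h3 : ∀ σ : N, σ.1 x = ∑ T ∈ S.powerset, algebraMap K F (a T) * σ.1 (rS r T) := by
      intro σ
      conv_lhs => rw [ha]
      rw [map_sum]
      refine Finset.sum_congr rfl fun T _ => ?_
      rw [map_mul, AlgEquiv.commutes]
    rw [Finset.sum_congr rfl fun σ _ => h3 σ, Finset.sum_comm]
    exact Finset.sum_congr rfl fun T _ => (Finset.mul_sum _ _ _).symm
  have h3 : ∑ T ∈ S.powerset, algebraMap K F (a T) * ∑ σ : N, σ.1 (rS r T) =
      ∑ T ∈ HM S r M, algebraMap K F (a T) * ∑ σ : N, σ.1 (rS r T) := by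
    symm
    refine Finset.sum_subset (Finset.filter_subset _ _) fun T hT hT' => ?_
    have hTS := Finset.mem_powerset.1 hT
    have h4 : rS r T ∉ M := fun h4 => hT' (mem_HM.2 ⟨hTS, h4⟩)
    have h5 : ∃ τ ∈ N, τ (rS r T) = - rS r T := by
      by_contra hcon
      push Not at hcon
      apply h4
      rw [← IsGalois.fixedField_fixingSubgroup M, IntermediateField.mem_fixedField_iff]
      intro σ hσ
      exact (h.sign σ hTS).resolve_right (hcon σ hσ)
    obtain ⟨τ, hτ, h6⟩ := h5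
    rw [h.sum_zero N hτ h6, mul_zero]
  have h4 : ∀ T ∈ HM S r M, ∑ σ : N, σ.1 (rS r T) = (Fintype.card N : F) * rS r T := by
    intro T hT
    have h5 : ∀ σ : N, σ.1 (rS r T) = rS r T := fun σ =>
      (IntermediateField.mem_fixingSubgroup_iff M σ.1).1 σ.2 _ (mem_HM.1 hT).2
    rw [Finset.sum_congr rfl fun σ _ => h5 σ, Finset.sum_const, Finset.card_univ, nsmul_eq_mul]
  have h5 : ((Fintype.card N : ℕ) : F) ≠ 0 := by
    exact_mod_cast (Fintype.card_pos_iff.2 ⟨1⟩).ne'
  apply mul_left_cancel₀ h5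
  rw [← h1, h2, h3, Finset.mul_sum]
  refine Finset.sum_congr rfl fun T hT => ?_
  rw [h4 T hT]
  ring

lemma memM {T : Finset ZI} (hT : T ∈ HM S r M) : rS r T ∈ M := (mem_HM.1 hT).2

lemma isInt {T : Finset ZI} (hT : T ⊆ S) : IsIntegral ℤ (rS r T) := by
  refine IsIntegral.of_pow (n := 2) (by norm_num) ?_
  rw [h.rsq hT, kF_apply]
  exact (e (∏ l ∈ T, l)).2.map ((algebraMap K F).toIntAlgHom)

lemma isIntM {T : Finset ZI} (hT : T ∈ HM S r M) : IsIntegral ℤ (⟨rS r T, h.memM M hT⟩ : M) := by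
  have h1 := h.isInt (mem_HM.1 hT).1
  exact (isIntegral_algHom_iff (M.val.restrictScalars ℤ) M.val.injective).1 h1

lemma genM (L : Subfield M) (hK : ∀ k : K, algebraMap K M k ∈ L)
    (hr : ∀ T : {T // T ∈ HM S r M}, (⟨rS r T.1, h.memM M T.2⟩ : M) ∈ L) : L = ⊤ := by
  rw [eq_top_iff]
  rintro ⟨x, hx⟩ _
  obtain ⟨a, ha⟩ := h.spanM M hx
  have h1 : (⟨x, hx⟩ : M) = ∑ T : {T // T ∈ HM S r M}, algebraMap K M (a T.1) *
      (⟨rS r T.1, h.memM M T.2⟩ : M) := by
    apply Subtype.ext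
    rw [← IntermediateField.coe_val, map_sum]
    simp only [map_mul]
    show x = ∑ T : {T // T ∈ HM S r M}, algebraMap K F (a T.1) * rS r T.1
    rw [Finset.sum_coe_sort (HM S r M) (fun T => algebraMap K F (a T) * rS r T)]
    exact ha
  rw [h1]
  exact sum_mem fun T _ => mul_mem (hK _) (hr T)

theorem galM : FiniteDimensional K M ∧ IsGalois K M := by
  refine gal2 (I := {T // T ∈ HM S r M}) (fun T => ((e (∏ l ∈ T.1, l) : 𝓞 K) : K))
    (fun T => (⟨rS r T.1, h.memM M T.2⟩ : M)) (fun T => ?_) (fun L h1 h2 => h.genM M L h1 h2)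
  apply Subtype.ext
  exact h.rsq (mem_HM.1 T.2).1

theorem finrankM : (HM S r M).card = Module.finrank K M := by
  classical
  obtain ⟨hfd, hgal⟩ := h.galM M
  have hli : LinearIndependent K (fun T : {T // T ∈ HM S r M} => (⟨rS r T.1, h.memM M T.2⟩ : M)) := by
    rw [Fintype.linearIndependent_iff]
    intro g hg T₁
    have h1 := h.lin (fun T => if hT : T ∈ HM S r M then g ⟨T, hT⟩ else 0) (by
      have h2 : ∑ T ∈ HM S r M, algebraMap K F (if hT : T ∈ HM S r M then g ⟨T, hT⟩ else 0) *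
          rS r T = 0 := by
        rw [← Finset.sum_coe_sort (HM S r M)]
        have h3 := congrArg (fun x : M => (x : F)) hg
        rw [← IntermediateField.coe_val, map_sum] at h3
        rw [← h3.trans (show ((0 : M) : F) = 0 from rfl)]
        refine Finset.sum_congr rfl fun T _ => ?_
        rw [dif_pos T.2, ← Algebra.smul_def]
        rfl
      rw [← h2]
      symm
      refine Finset.sum_subset (Finset.filter_subset _ _) fun T _ hT' => ?_
      rw [dif_neg hT', map_zero, zero_mul]) T₁.1 (mem_HM.1 T₁.2).1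
    simpa only [dif_pos T₁.2] using h1
  have hsp : ⊤ ≤ Submodule.span K (Set.range (fun T : {T // T ∈ HM S r M} =>
      (⟨rS r T.1, h.memM M T.2⟩ : M))) := by
    rintro ⟨x, hx⟩ _
    obtain ⟨a, ha⟩ := h.spanM M hx
    rw [Submodule.mem_span_range_iff_exists_fun]
    refine ⟨fun T => a T.1, ?_⟩
    apply Subtype.ext
    rw [← IntermediateField.coe_val, map_sum]
    show ∑ T : {T // T ∈ HM S r M}, a T.1 • rS r T.1 = x
    rw [Finset.sum_coe_sort (HM S r M) (fun T => a T • rS r T), ha]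
    exact Finset.sum_congr rfl fun T _ => Algebra.smul_def _ _
  have h1 := Module.finrank_eq_card_basis (Module.Basis.mk hli hsp)
  rw [h1, Fintype.card_coe]

open Classical in
/-- the square roots in `𝓞 M` -/
noncomputable def yM (T : Finset ZI) : 𝓞 M :=
  if hT : T ∈ HM S r M then ⟨⟨rS r T, h.memM M hT⟩, h.isIntM M hT⟩ else 0

lemma yM_coe {T : Finset ZI} (hT : T ∈ HM S r M) : (((h.yM M T : 𝓞 M) : M) : F) = rS r T := by
  unfold yM
  rw [dif_pos hT]
  rfl

theorem ctx : Ctx e S (HM S r M) (h.yM M) := by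
  refine ⟨fun T hT => (mem_HM.1 hT).1, ?_, ?_, ?_, ?_, h.finrankM M⟩
  · refine mem_HM.2 ⟨Finset.empty_subset _, ?_⟩
    rw [rS_empty]
    exact M.one_mem
  · intro T hT T' hT'
    obtain ⟨h1, h2⟩ := mem_HM.1 hT
    obtain ⟨h3, h4⟩ := mem_HM.1 hT'
    refine mem_HM.2 ⟨?_, ?_⟩
    · intro x hx
      rw [Finset.mem_symmDiff] at hx
      rcases hx with hx | hx
      · exact h1 hx.1
      · exact h3 hx.1
    · have h5 := h.rmul (T' := T') h1
      have h6 : kF F e (∏ l ∈ T ∩ T', l) ≠ 0 := by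
        rw [← h.rsq (Finset.inter_subset_left.trans h1)]
        exact pow_ne_zero _ (h.ne (Finset.inter_subset_left.trans h1))
      have h7 : rS r (symmDiff T T') = (kF F e (∏ l ∈ T ∩ T', l))⁻¹ * (rS r T * rS r T') := by
        rw [h5, inv_mul_cancel_left₀ h6]
      rw [h7]
      exact M.mul_mem (M.inv_mem (M.algebraMap_mem _)) (M.mul_mem h2 h4)
  · intro T hT
    apply RingOfIntegers.ext
    apply Subtype.ext
    have h1 : (((h.yM M T ^ 2 : 𝓞 M) : M) : F) = (((h.yM M T : 𝓞 M) : M) : F) ^ 2 := rfl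
    rw [h1, h.yM_coe M hT, h.rsq (mem_HM.1 hT).1]
    rfl
  · intro g hg
    have h5 := h.genM M (RingHom.eqLocusField (g : M →+* M) (RingHom.id M))
      (fun y => g.commutes y) (fun T => by
        have h6 := congrArg (fun x : 𝓞 M => (x : M)) (hg T.1 T.2)
        have h7 : ((h.yM M T.1 : 𝓞 M) : M) = ⟨rS r T.1, h.memM M T.2⟩ := by
          apply Subtype.ext
          exact h.yM_coe M T.2
        have h8 : g ((h.yM M T.1 : 𝓞 M) : M) = ((h.yM M T.1 : 𝓞 M) : M) := h6
        rw [h7] at h8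
        exact h8)
    ext1 y
    have h7 : y ∈ RingHom.eqLocusField (g : M →+* M) (RingHom.id M) := by rw [h5]; trivial
    exact h7

end Rt

end Pool.Agent.V7H91.GT
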